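import Pool.Agent.H90.MR.Stm

/-! # Project MR-INT (helper90): the metric engine for ALL integers `n = k + 1` (statements) -/

set_option autoImplicit false

namespace Pool.Agent.H90.MR

open Finset MeasureTheory Filter

/-- `COVG`: covariance of two arcs at arbitrary multipliers. Proof: `D = gcd p q`, `p = D p'`, `q = D q'`; the integrand is
`F (D x)` with `F x = g c d p' x * g c' d' q' x` of period 1, so the integral is `∫₀¹ F`, and `S_COV` gives `(d - c) / p'`. -/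
def S_COVG : Prop := ∀ p q : ℕ, 1 ≤ q → q < p → ∀ c d c' d' : ℝ, 0 ≤ c → c ≤ d → d ≤ 1 → 0 ≤ c' → c' ≤ d' →
  d' ≤ 1 → |∫ x in (0 : ℝ)..1, g c d p x * g c' d' q x| ≤ (d - c) * (Nat.gcd p q : ℝ) / p

/-- `GCD`: Pillai's function. Proof: sort by `D = gcd m n`: at most `n / D` of the `m < n` are divisible by the divisor `D`
of `n`. (`m = 0` contributes `gcd 0 n = n`, the divisor `D = n`.) -/
def S_GCD : Prop := ∀ n : ℕ, 1 ≤ n → ∑ m ∈ range n, Nat.gcd m n ≤ n * n.divisors.card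

/-- `TAU`: the mean of the divisor function. Proof: `∑_{n ≤ N} τ(n) = ∑_{D ≤ N} ⌊N / D⌋ ≤ N ∑_{D ≤ N} 1 / D` and
`∑_{D ≤ 2^m} 1 / D ≤ m + 1` (dyadic blocks). -/
def S_TAU : Prop := ∀ m : ℕ, ∑ k ∈ range (2 ^ m), ((k + 1).divisors.card : ℝ) ≤ 2 ^ m * ((m : ℝ) + 1)

/-- `MOMG`: the second moment over a set `D` of indices (`k` stands for the integer `k + 1`). Proof: as `S_MOM`, with
`COVG` and `GCD`: `∑_{l < k} gcd (l + 1) (k + 1) / (k + 1) ≤ τ(k + 1)`. -/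
def S_MOMG : Prop := ∀ (c d : ℕ → ℝ), (∀ k, 0 ≤ c k ∧ c k ≤ d k ∧ d k ≤ 1) → ∀ D : Finset ℕ,
  ∫ x in (0 : ℝ)..1, (∑ k ∈ D, g (c k) (d k) (k + 1) x) ^ 2 ≤ 3 * ∑ k ∈ D, ((k + 1).divisors.card : ℝ) * (d k - c k)

/-- `EXPG`: the mean of `QQ` (as `S_EXP`). -/
def S_EXPG : Prop := ∀ (c d : ℕ → ℝ), (∀ k, 0 ≤ c k ∧ c k ≤ d k ∧ d k ≤ 1) →
  ∀ (m : ℕ) (S : Finset ℕ) (rs : List (ℕ → ℕ)) (τ : ℕ → List ℤ),
  ∫ x in (0 : ℝ)..1, QQ m S (fun k => g (c k) (d k) (k + 1) x) rs τ ≤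
    3 * ((m : ℝ) + 1) ^ rs.length * ∑ k ∈ S, ((k + 1).divisors.card : ℝ) * (d k - c k)

end Pool.Agent.H90.MR
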