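import Pool.Agent.H90.MR.Met2

/-! # Project MR: the metric theorem, shrinking targets -/

set_option autoImplicit false

namespace Pool.Agent.H90.MR

open Finset MeasureTheory Filter

theorem sum_g_zero (n : ℕ → ℕ) (δ : ℕ → ℝ) (α : ℝ) (S : Finset ℕ) :
    ∑ k ∈ S, g 0 (δ k) (n k) α = ((S.filter (fun k => Int.fract ((n k : ℝ) * α) < δ k)).card : ℝ) - ∑ k ∈ S, δ k := by
  unfold g
  rw [sum_sub_distrib, card_filter]
  push_cast
  congr 1
  · apply sum_congr rfl
    intro k _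
    have : (0 ≤ Int.fract ((n k : ℝ) * α) ∧ Int.fract ((n k : ℝ) * α) < δ k) ↔ Int.fract ((n k : ℝ) * α) < δ k :=
      ⟨fun h => h.2, fun h => ⟨Int.fract_nonneg _, h⟩⟩
    simp only [this]
  · simp

theorem thin (hS : S_SUP) (hE : S_EXP) : S_THIN := by
  intro n hn hn0 hc δ hδ L rs τ hL hr
  have hδ0 : ∀ m : ℕ, 0 ≤ ∑ k ∈ range (2 ^ m), δ k := fun m => sum_nonneg fun k _ => (hδ k).1
  have h1 := bc (fun m α => QQ m (range (2 ^ m)) (fun k => g 0 (δ k) (n k) α) (rs m) (τ m))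
    (fun m => (1 + ∑ k ∈ range (2 ^ m), δ k) * ((m : ℝ) + 2) ^ (L + 2))
    (fun m => 3 / ((m : ℝ) + 1) ^ 2) (fun m => by have := hδ0 m; positivity) (fun m x => QQ_nonneg _ _ _ _ _)
    (fun m => QQ_measurable m (range (2 ^ m)) (fun k α => g 0 (δ k) (n k) α) (fun k => g_measurable _ _ _) _ _)
    (fun m => by
      obtain ⟨B, hB⟩ := QQ_bound m (range (2 ^ m)) (rs m) (τ m)
      exact ⟨B, fun α => hB _ fun k => g_bound le_rfl (hδ k).1 (hδ k).2 _ _⟩)
    (fun m x => by simp only [g_periodic])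
    (fun m => by positivity) (by
      have h0 : Summable (fun m : ℕ => 1 / ((m : ℝ) + 1) ^ 2) := by
        have := (summable_nat_add_iff 1).2 (Real.summable_one_div_nat_pow.2 (by norm_num : 1 < 2))
        simpa using this
      have := h0.mul_left 3
      refine this.congr fun m => by ring) (fun m => by
      refine (hE n hn hn0 hc (fun _ => 0) δ (fun k => ⟨le_rfl, hδ k⟩) m (range (2 ^ m)) (rs m) (τ m)).trans ?_
      rw [hL m]
      simp only [sub_zero]
      have hm : (0 : ℝ) < (m : ℝ) + 1 := by positivity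
      have hd := hδ0 m
      rw [div_mul_eq_mul_div, le_div_iff₀ (by positivity)]
      have h2 : ((m : ℝ) + 1) ^ L * ((m : ℝ) + 1) ^ 2 ≤ ((m : ℝ) + 2) ^ (L + 2) := by
        rw [← pow_add]
        exact pow_le_pow_left₀ hm.le (by linarith) _
      calc 3 * ((m : ℝ) + 1) ^ L * (∑ k ∈ range (2 ^ m), δ k) * ((m : ℝ) + 1) ^ 2
          = 3 * ((∑ k ∈ range (2 ^ m), δ k) * (((m : ℝ) + 1) ^ L * ((m : ℝ) + 1) ^ 2)) := by ring
        _ ≤ 3 * ((1 + ∑ k ∈ range (2 ^ m), δ k) * ((m : ℝ) + 2) ^ (L + 2)) := by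
          gcongr
          linarith)
  filter_upwards [h1] with α hα
  filter_upwards [hα] with m hm
  intro rb hrb hb
  have hlen : rb.length = L := by
    have := congrArg List.length hrb
    rw [List.length_map, hL m] at this
    exact this
  have hrb' : ∀ x ∈ rb, (∀ k ∈ range (2 ^ m), x.1 k < 2 ^ m) ∧ x.2 ≤ 2 ^ m := by
    intro x hx
    refine ⟨fun k hk => hr m x.1 ?_ k (mem_range.1 hk), hb x hx⟩
    rw [← hrb]
    exact List.mem_map_of_mem hx
  have h3 := hS m (range (2 ^ m)) (fun k => g 0 (δ k) (n k) α) rb (τ m) hrb'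
  simp only [sum_g_zero, filter_filter] at h3
  refine h3.trans ?_
  rw [hlen, hrb]
  have hd := hδ0 m
  calc ((m : ℝ) + 1) ^ L * QQ m (range (2 ^ m)) (fun k => g 0 (δ k) (n k) α) (rs m) (τ m)
      ≤ ((m : ℝ) + 2) ^ L * ((1 + ∑ k ∈ range (2 ^ m), δ k) * ((m : ℝ) + 2) ^ (L + 2)) := by
        apply mul_le_mul (pow_le_pow_left₀ (by positivity) (by linarith) _) hm (QQ_nonneg _ _ _ _ _) (by positivity)
    _ = (1 + ∑ k ∈ range (2 ^ m), δ k) * ((m : ℝ) + 2) ^ (2 * L + 2) := by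
        rw [show 2 * L + 2 = L + (L + 2) by ring, pow_add]
        ring
    _ ≤ (1 + ∑ k ∈ range (2 ^ m), δ k) * ((m : ℝ) + 2) ^ (2 * L + 4) := by
        apply mul_le_mul_of_nonneg_left _ (by positivity)
        exact pow_le_pow_right₀ (by have : (0:ℝ) ≤ m := by positivity
                                    linarith) (by omega)

end Pool.Agent.H90.MR
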