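import Pool.Agent.H90.MR.Stm

/-! # Project MR: passage from the scale `2 ^ m` to all `K` -/

set_option autoImplicit false

namespace Pool.Agent.H90.MR

open Finset MeasureTheory Filter

theorem clog_facts {K : ℕ} (hK : 1 ≤ K) : K ≤ 2 ^ Nat.clog 2 K ∧ 2 ^ Nat.clog 2 K ≤ 2 * K := by
  refine ⟨Nat.le_pow_clog (by norm_num) K, ?_⟩
  rcases Nat.lt_or_ge 1 K with h | h
  · have h1 := Nat.pow_pred_clog_lt_self (b := 2) (by norm_num) h
    have h2 : 0 < Nat.clog 2 K := Nat.clog_pos (by norm_num) h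
    obtain ⟨j, hj⟩ : ∃ j, Nat.clog 2 K = j + 1 := ⟨Nat.clog 2 K - 1, by omega⟩
    rw [hj] at h1 ⊢
    rw [pow_succ]
    simp at h1
    omega
  · have : K = 1 := by omega
    subst this
    simp

/-- `clog K + 2 ≤ 2 log K` for large `K` -/
theorem clog_log : ∀ᶠ K : ℕ in atTop, (Nat.clog 2 K : ℝ) + 2 ≤ 2 * Real.log K := by
  have h1 : Tendsto (fun K : ℕ => Real.log K) atTop atTop := Real.tendsto_log_atTop.comp tendsto_natCast_atTop_atTop
  filter_upwards [h1.eventually_ge_atTop 8, eventually_ge_atTop 1] with K hK hK1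
  have h2 := (clog_facts hK1).2
  have h3 : (2 : ℝ) ^ Nat.clog 2 K ≤ 2 * K := by exact_mod_cast h2
  have hK0 : (0 : ℝ) < K := by exact_mod_cast hK1
  have h4 : Real.log ((2 : ℝ) ^ Nat.clog 2 K) ≤ Real.log (2 * K) := Real.log_le_log (by positivity) h3
  rw [Real.log_pow, Real.log_mul (by norm_num) hK0.ne'] at h4
  have h5 := Real.log_two_gt_d9
  have h6 : (Nat.clog 2 K : ℝ) * 0.6931 ≤ (Nat.clog 2 K : ℝ) * Real.log 2 := by
    apply mul_le_mul_of_nonneg_left _ (by positivity)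
    linarith
  have h7 := Real.log_two_lt_d9
  linarith

theorem pow_log (E : ℕ) (B : ℝ) : ∀ᶠ K : ℕ in atTop, B * ((Nat.clog 2 K : ℝ) + 2) ^ E ≤ Real.log K ^ (E + 1) := by
  have h1 : Tendsto (fun K : ℕ => Real.log K) atTop atTop := Real.tendsto_log_atTop.comp tendsto_natCast_atTop_atTop
  filter_upwards [clog_log, h1.eventually_ge_atTop (|B| * 2 ^ E), h1.eventually_ge_atTop 0] with K h2 h3 h4
  calc B * ((Nat.clog 2 K : ℝ) + 2) ^ E ≤ |B| * (2 * Real.log K) ^ E := by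
        apply mul_le_mul (le_abs_self _) (pow_le_pow_left₀ (by positivity) h2 _) (by positivity) (abs_nonneg _)
    _ = (|B| * 2 ^ E) * Real.log K ^ E := by rw [mul_pow]; ring
    _ ≤ Real.log K * Real.log K ^ E := by gcongr
    _ = Real.log K ^ (E + 1) := by rw [pow_succ']

theorem tendsto_clog : Tendsto (Nat.clog 2) atTop atTop := by
  refine tendsto_atTop.2 fun b => ?_
  filter_upwards [eventually_ge_atTop (2 ^ b)] with K hK
  have h1 : (2 : ℕ) ^ b ≤ 2 ^ Nat.clog 2 K := hK.trans (Nat.le_pow_clog (by norm_num) K)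
  exact (Nat.pow_le_pow_iff_right (by norm_num)).1 h1

open Classical in
/-- all `K` -/
theorem arcs (hM : S_MET) (n : ℕ → ℕ) (hn : StrictMono n) (hn0 : 1 ≤ n 0) (hc : ∀ k l, k ≠ l → (n k).Coprime (n l))
    (L : ℕ) (rs : ℕ → List (ℕ → ℕ)) (τ : ℕ → List ℤ) (hL : ∀ m, (rs m).length = L)
    (hr : ∀ m, ∀ r ∈ rs m, ∀ k < 2 ^ m, r k < 2 ^ m) :
    ∀ᵐ α : ℝ, ∃ K₀ : ℕ, ∀ K : ℕ, K₀ ≤ K → ∀ rb : List ((ℕ → ℕ) × ℕ), rb.map Prod.fst = rs (Nat.clog 2 K) →
      (∀ x ∈ rb, x.2 ≤ 2 ^ (Nat.clog 2 K)) → ∀ v : ℝ, 0 ≤ v → v ≤ 1 → ∀ A : Finset (List ℤ),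
      ∑ c ∈ A, ((((range K).filter (fun k => (τ k = c ∧ ∀ x ∈ rb, x.1 k < x.2) ∧ Int.fract (n k * α) < v)).card : ℝ) -
        v * (((range K).filter (fun k => τ k = c ∧ ∀ x ∈ rb, x.1 k < x.2)).card : ℝ)) ^ 2 ≤
      K * Real.log K ^ (2 * L + 11) := by
  have h1 := hM n hn hn0 hc (L + 1) (fun m => (fun k => k) :: rs m) (fun _ => τ) (fun m => by simp [hL m])
    (fun m r hr' k hk => by
      rcases List.mem_cons.1 hr' with rfl | hr'
      · exact hk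
      · exact hr m r hr' k hk)
  filter_upwards [h1] with α hα
  have h2 := (tendsto_clog.eventually hα).and ((pow_log (2 * (L + 1) + 8) 2).and (eventually_ge_atTop 1))
  obtain ⟨K₀, hK₀⟩ := eventually_atTop.1 h2
  refine ⟨K₀, fun K hK rb hrb hb v hv0 hv1 A => ?_⟩
  obtain ⟨h3, h4, h5⟩ := hK₀ K hK
  obtain ⟨h6, h7⟩ := clog_facts h5
  have h8 := h3 (((fun k => k), K) :: rb) (by simp [hrb]) (by
    intro x hx
    rcases List.mem_cons.1 hx with rfl | hx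
    · exact h6
    · exact hb x hx) v hv0 hv1
  have e1 : ∀ c, ((range K).filter (fun k => (τ k = c ∧ ∀ x ∈ rb, x.1 k < x.2) ∧ Int.fract ((n k : ℝ) * α) < v)) =
      ((range (2 ^ Nat.clog 2 K)).filter (fun k => (τ k = c ∧ ∀ x ∈ ((fun k => k), K) :: rb, x.1 k < x.2) ∧
        Int.fract ((n k : ℝ) * α) < v)) := by
    intro c
    ext k
    simp only [mem_filter, mem_range, List.forall_mem_cons]
    constructor
    · rintro ⟨h, ⟨h', h''⟩, h'''⟩
      exact ⟨h.trans_le h6, ⟨h', h, h''⟩, h'''⟩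
    · rintro ⟨_, ⟨h', h, h''⟩, h'''⟩
      exact ⟨h, ⟨h', h''⟩, h'''⟩
  have e2 : ∀ c, ((range K).filter (fun k => τ k = c ∧ ∀ x ∈ rb, x.1 k < x.2)) =
      ((range (2 ^ Nat.clog 2 K)).filter (fun k => τ k = c ∧ ∀ x ∈ ((fun k => k), K) :: rb, x.1 k < x.2)) := by
    intro c
    ext k
    simp only [mem_filter, mem_range, List.forall_mem_cons]
    constructor
    · rintro ⟨h, h', h''⟩
      exact ⟨h.trans_le h6, h', h, h''⟩
    · rintro ⟨_, h', h, h''⟩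
      exact ⟨h, h', h''⟩
  simp only [e1, e2]
  set F : List ℤ → ℝ := fun c =>
    ((((range (2 ^ Nat.clog 2 K)).filter (fun k => (τ k = c ∧ ∀ x ∈ ((fun k => k), K) :: rb, x.1 k < x.2) ∧
        Int.fract ((n k : ℝ) * α) < v)).card : ℝ) -
        v * (((range (2 ^ Nat.clog 2 K)).filter (fun k => τ k = c ∧ ∀ x ∈ ((fun k => k), K) :: rb, x.1 k < x.2)).card : ℝ)) ^ 2 with hF
  have hF0 : ∀ c, 0 ≤ F c := fun c => sq_nonneg _
  have hFz : ∀ c ∉ (range (2 ^ Nat.clog 2 K)).image τ, F c = 0 := by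
    intro c hc'
    have e3 : ((range (2 ^ Nat.clog 2 K)).filter (fun k => τ k = c ∧ ∀ x ∈ ((fun k => k), K) :: rb, x.1 k < x.2)) = ∅ := by
      apply filter_eq_empty_iff.2
      rintro k hk ⟨h, _⟩
      exact hc' (mem_image.2 ⟨k, hk, h⟩)
    have e4 : ((range (2 ^ Nat.clog 2 K)).filter (fun k => (τ k = c ∧ ∀ x ∈ ((fun k => k), K) :: rb, x.1 k < x.2) ∧
        Int.fract ((n k : ℝ) * α) < v)) = ∅ := by
      apply filter_eq_empty_iff.2
      rintro k hk ⟨⟨h, _⟩, _⟩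
      exact hc' (mem_image.2 ⟨k, hk, h⟩)
    simp only [hF, e3, e4]
    simp
  have h9 : ∑ c ∈ A, F c ≤ ∑ c ∈ (range (2 ^ Nat.clog 2 K)).image τ, F c := by
    calc ∑ c ∈ A, F c ≤ ∑ c ∈ A ∪ (range (2 ^ Nat.clog 2 K)).image τ, F c :=
          sum_le_sum_of_subset_of_nonneg subset_union_left fun c _ _ => hF0 c
      _ = ∑ c ∈ (range (2 ^ Nat.clog 2 K)).image τ, F c :=
          (sum_subset subset_union_right fun c _ h => hFz c h).symm
  refine h9.trans (h8.trans ?_)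
  have h10 : (2 : ℝ) ^ Nat.clog 2 K ≤ 2 * K := by exact_mod_cast h7
  calc (2 : ℝ) ^ Nat.clog 2 K * ((Nat.clog 2 K : ℝ) + 2) ^ (2 * (L + 1) + 8)
      ≤ (2 * K) * ((Nat.clog 2 K : ℝ) + 2) ^ (2 * (L + 1) + 8) := by gcongr
    _ = K * (2 * ((Nat.clog 2 K : ℝ) + 2) ^ (2 * (L + 1) + 8)) := by ring
    _ ≤ K * Real.log K ^ (2 * (L + 1) + 8 + 1) := by gcongr
    _ = K * Real.log K ^ (2 * L + 11) := by ring_nf

open Classical in
/-- all `K`, shrinking targets -/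
theorem targets (hM : S_THIN) (n : ℕ → ℕ) (hn : StrictMono n) (hn0 : 1 ≤ n 0) (hc : ∀ k l, k ≠ l → (n k).Coprime (n l))
    (δ : ℕ → ℝ) (hδ : ∀ k, 0 ≤ δ k ∧ δ k ≤ 1) (hδa : Antitone δ)
    (L : ℕ) (rs : ℕ → List (ℕ → ℕ)) (τ : ℕ → List ℤ) (hL : ∀ m, (rs m).length = L)
    (hr : ∀ m, ∀ r ∈ rs m, ∀ k < 2 ^ m, r k < 2 ^ m) :
    ∀ᵐ α : ℝ, ∃ K₀ : ℕ, ∀ K : ℕ, K₀ ≤ K → ∀ rb : List ((ℕ → ℕ) × ℕ), rb.map Prod.fst = rs (Nat.clog 2 K) →
      (∀ x ∈ rb, x.2 ≤ 2 ^ (Nat.clog 2 K)) → ∀ A : Finset (List ℤ),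
      ∑ c ∈ A, ((((range K).filter (fun k => (τ k = c ∧ ∀ x ∈ rb, x.1 k < x.2) ∧ Int.fract (n k * α) < δ k)).card : ℝ) -
        ∑ k ∈ (range K).filter (fun k => τ k = c ∧ ∀ x ∈ rb, x.1 k < x.2), δ k) ^ 2 ≤
      (1 + ∑ k ∈ range K, δ k) * Real.log K ^ (2 * L + 7) := by
  have h1 := hM n hn hn0 hc δ hδ (L + 1) (fun m => (fun k => k) :: rs m) (fun _ => τ) (fun m => by simp [hL m])
    (fun m r hr' k hk => by
      rcases List.mem_cons.1 hr' with rfl | hr'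
      · exact hk
      · exact hr m r hr' k hk)
  filter_upwards [h1] with α hα
  have h2 := (tendsto_clog.eventually hα).and ((pow_log (2 * (L + 1) + 4) 2).and (eventually_ge_atTop 1))
  obtain ⟨K₀, hK₀⟩ := eventually_atTop.1 h2
  refine ⟨K₀, fun K hK rb hrb hb A => ?_⟩
  obtain ⟨h3, h4, h5⟩ := hK₀ K hK
  obtain ⟨h6, h7⟩ := clog_facts h5
  have h8 := h3 (((fun k => k), K) :: rb) (by simp [hrb]) (by
    intro x hx
    rcases List.mem_cons.1 hx with rfl | hx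
    · exact h6
    · exact hb x hx)
  have e1 : ∀ c, ((range K).filter (fun k => (τ k = c ∧ ∀ x ∈ rb, x.1 k < x.2) ∧ Int.fract ((n k : ℝ) * α) < δ k)) =
      ((range (2 ^ Nat.clog 2 K)).filter (fun k => (τ k = c ∧ ∀ x ∈ ((fun k => k), K) :: rb, x.1 k < x.2) ∧
        Int.fract ((n k : ℝ) * α) < δ k)) := by
    intro c
    ext k
    simp only [mem_filter, mem_range, List.forall_mem_cons]
    constructor
    · rintro ⟨h, ⟨h', h''⟩, h'''⟩
      exact ⟨h.trans_le h6, ⟨h', h, h''⟩, h'''⟩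
    · rintro ⟨_, ⟨h', h, h''⟩, h'''⟩
      exact ⟨h, ⟨h', h''⟩, h'''⟩
  have e2 : ∀ c, ((range K).filter (fun k => τ k = c ∧ ∀ x ∈ rb, x.1 k < x.2)) =
      ((range (2 ^ Nat.clog 2 K)).filter (fun k => τ k = c ∧ ∀ x ∈ ((fun k => k), K) :: rb, x.1 k < x.2)) := by
    intro c
    ext k
    simp only [mem_filter, mem_range, List.forall_mem_cons]
    constructor
    · rintro ⟨h, h', h''⟩
      exact ⟨h.trans_le h6, h', h, h''⟩
    · rintro ⟨_, h', h, h''⟩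
      exact ⟨h, h', h''⟩
  simp only [e1, e2]
  set F : List ℤ → ℝ := fun c =>
    ((((range (2 ^ Nat.clog 2 K)).filter (fun k => (τ k = c ∧ ∀ x ∈ ((fun k => k), K) :: rb, x.1 k < x.2) ∧
        Int.fract ((n k : ℝ) * α) < δ k)).card : ℝ) -
        ∑ k ∈ (range (2 ^ Nat.clog 2 K)).filter (fun k => τ k = c ∧ ∀ x ∈ ((fun k => k), K) :: rb, x.1 k < x.2), δ k) ^ 2 with hF
  have hF0 : ∀ c, 0 ≤ F c := fun c => sq_nonneg _
  have hFz : ∀ c ∉ (range (2 ^ Nat.clog 2 K)).image τ, F c = 0 := by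
    intro c hc'
    have e3 : ((range (2 ^ Nat.clog 2 K)).filter (fun k => τ k = c ∧ ∀ x ∈ ((fun k => k), K) :: rb, x.1 k < x.2)) = ∅ := by
      apply filter_eq_empty_iff.2
      rintro k hk ⟨h, _⟩
      exact hc' (mem_image.2 ⟨k, hk, h⟩)
    have e4 : ((range (2 ^ Nat.clog 2 K)).filter (fun k => (τ k = c ∧ ∀ x ∈ ((fun k => k), K) :: rb, x.1 k < x.2) ∧
        Int.fract ((n k : ℝ) * α) < δ k)) = ∅ := by
      apply filter_eq_empty_iff.2
      rintro k hk ⟨⟨h, _⟩, _⟩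
      exact hc' (mem_image.2 ⟨k, hk, h⟩)
    simp only [hF, e3, e4]
    simp
  have h9 : ∑ c ∈ A, F c ≤ ∑ c ∈ (range (2 ^ Nat.clog 2 K)).image τ, F c := by
    calc ∑ c ∈ A, F c ≤ ∑ c ∈ A ∪ (range (2 ^ Nat.clog 2 K)).image τ, F c :=
          sum_le_sum_of_subset_of_nonneg subset_union_left fun c _ _ => hF0 c
      _ = ∑ c ∈ (range (2 ^ Nat.clog 2 K)).image τ, F c :=
          (sum_subset subset_union_right fun c _ h => hFz c h).symm
  refine h9.trans (h8.trans ?_)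
  have h10 : ∑ k ∈ range (2 ^ Nat.clog 2 K), δ k ≤ 2 * ∑ k ∈ range K, δ k := by
    calc ∑ k ∈ range (2 ^ Nat.clog 2 K), δ k ≤ ∑ k ∈ range (2 * K), δ k :=
          sum_le_sum_of_subset_of_nonneg (range_mono h7) fun k _ _ => (hδ k).1
      _ = ∑ k ∈ range K, δ k + ∑ k ∈ range K, δ (K + k) := by rw [two_mul, sum_range_add]
      _ ≤ ∑ k ∈ range K, δ k + ∑ k ∈ range K, δ k := by
          gcongr with k _
          exact hδa (by omega)
      _ = 2 * ∑ k ∈ range K, δ k := by ring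
  have h11 : 0 ≤ ∑ k ∈ range K, δ k := sum_nonneg fun k _ => (hδ k).1
  calc (1 + ∑ k ∈ range (2 ^ Nat.clog 2 K), δ k) * ((Nat.clog 2 K : ℝ) + 2) ^ (2 * (L + 1) + 4)
      ≤ (2 * (1 + ∑ k ∈ range K, δ k)) * ((Nat.clog 2 K : ℝ) + 2) ^ (2 * (L + 1) + 4) := by
        gcongr
        linarith
    _ = (1 + ∑ k ∈ range K, δ k) * (2 * ((Nat.clog 2 K : ℝ) + 2) ^ (2 * (L + 1) + 4)) := by ring
    _ ≤ (1 + ∑ k ∈ range K, δ k) * Real.log K ^ (2 * (L + 1) + 4 + 1) := by gcongr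
    _ = (1 + ∑ k ∈ range K, δ k) * Real.log K ^ (2 * L + 7) := by ring_nf

/-- the bijection between indices and elements -/
theorem card_nth (T Q : ℕ → Prop) [DecidablePred T] [DecidablePred Q] (hT : {p | T p}.Infinite) (x : ℕ) :
    ((range (Nat.count T (x + 1))).filter (fun k => Q (Nat.nth T k))).card =
      ((range (x + 1)).filter (fun p => T p ∧ Q p)).card := by
  have h : ((range (x + 1)).filter (fun p => T p ∧ Q p)) =
      ((range (Nat.count T (x + 1))).filter (fun k => Q (Nat.nth T k))).image (Nat.nth T) := by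
    ext p
    simp only [mem_filter, mem_range, mem_image]
    constructor
    · rintro ⟨h1, h2, h3⟩
      refine ⟨Nat.count T p, ⟨Nat.count_strict_mono h2 h1, ?_⟩, Nat.nth_count h2⟩
      rw [Nat.nth_count h2]
      exact h3
    · rintro ⟨k, ⟨h1, h2⟩, rfl⟩
      exact ⟨Nat.nth_lt_of_lt_count h1, Nat.nth_mem_of_infinite hT k, h2⟩
  rw [h, card_image_of_injective _ (Nat.nth_injective hT)]

theorem sum_nth (T Q : ℕ → Prop) [DecidablePred T] [DecidablePred Q] (hT : {p | T p}.Infinite) (x : ℕ) (f : ℕ → ℝ) :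
    ∑ k ∈ (range (Nat.count T (x + 1))).filter (fun k => Q (Nat.nth T k)), f (Nat.nth T k) =
      ∑ p ∈ (range (x + 1)).filter (fun p => T p ∧ Q p), f p := by
  have h : ((range (x + 1)).filter (fun p => T p ∧ Q p)) =
      ((range (Nat.count T (x + 1))).filter (fun k => Q (Nat.nth T k))).image (Nat.nth T) := by
    ext p
    simp only [mem_filter, mem_range, mem_image]
    constructor
    · rintro ⟨h1, h2, h3⟩
      refine ⟨Nat.count T p, ⟨Nat.count_strict_mono h2 h1, ?_⟩, Nat.nth_count h2⟩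
      rw [Nat.nth_count h2]
      exact h3
    · rintro ⟨k, ⟨h1, h2⟩, rfl⟩
      exact ⟨Nat.nth_lt_of_lt_count h1, Nat.nth_mem_of_infinite hT k, h2⟩
  rw [h, sum_image (fun a _ b _ hab => Nat.nth_injective hT hab)]

end Pool.Agent.H90.MR
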