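import Pool.Agent.H90.MR.App

/-! # Project MR: asymptotics along a subset -/

set_option autoImplicit false

namespace Pool.Agent.H90.MR

open Finset MeasureTheory Filter

theorem log_pow_div (E : ℕ) : Tendsto (fun K : ℕ => Real.log K ^ E / K) atTop (nhds 0) := by
  have h := (Real.isLittleO_pow_log_id_atTop (n := E)).tendsto_div_nhds_zero
  exact h.comp tendsto_natCast_atTop_atTop

/-- the ratio -/
theorem ratio {P Q : ℕ → ℕ} {v : ℝ} {E : ℕ} (hP : Tendsto P atTop atTop)
    (H : ∃ K₀ : ℕ, ∀ x, K₀ ≤ P x → ((Q x : ℝ) - v * P x) ^ 2 ≤ P x * Real.log (P x) ^ E) :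
    Tendsto (fun x => (Q x : ℝ) / P x) atTop (nhds v) := by
  obtain ⟨K₀, H⟩ := H
  have h1 : Tendsto (fun x => ((Q x : ℝ) / P x - v) ^ 2) atTop (nhds 0) := by
    refine squeeze_zero' (Eventually.of_forall fun x => sq_nonneg _) ?_ ((log_pow_div E).comp hP)
    filter_upwards [hP.eventually_ge_atTop K₀, hP.eventually_ge_atTop 1] with x h2 h3
    have h4 : (0 : ℝ) < P x := by exact_mod_cast h3
    have h5 : ((Q x : ℝ) / P x - v) = ((Q x : ℝ) - v * P x) / P x := by
      field_simp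
    rw [h5, div_pow, div_le_iff₀ (by positivity)]
    simp only [Function.comp_apply]
    refine (H x h2).trans (le_of_eq ?_)
    field_simp
  have h2 : Tendsto (fun x => |(Q x : ℝ) / P x - v|) atTop (nhds 0) := by
    have h3 := (Real.continuous_sqrt.tendsto 0).comp h1
    rw [Real.sqrt_zero] at h3
    refine h3.congr fun x => ?_
    simp only [Function.comp_apply, Real.sqrt_sq_eq_abs]
  have h3 := (tendsto_zero_iff_abs_tendsto_zero _).2 h2
  have h4 := h3.add_const v
  simpa using h4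

theorem bdd_iff {P Q : ℕ → ℕ} {v : ℝ} {E : ℕ} (hv : 0 < v) (hPm : Monotone P) (hQP : ∀ x, Q x ≤ P x)
    (H : ∃ K₀ : ℕ, ∀ x, K₀ ≤ P x → ((Q x : ℝ) - v * P x) ^ 2 ≤ P x * Real.log (P x) ^ E) :
    (∃ B : ℕ, ∀ x, P x ≤ B) ↔ (∃ B : ℕ, ∀ x, Q x ≤ B) := by
  constructor
  · rintro ⟨B, hB⟩
    exact ⟨B, fun x => (hQP x).trans (hB x)⟩
  · rintro ⟨B, hB⟩
    by_contra hcon
    push Not at hcon
    have hP : Tendsto P atTop atTop := tendsto_atTop_atTop_of_monotone hPm fun b => by
      obtain ⟨x, hx⟩ := hcon b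
      exact ⟨x, hx.le⟩
    have h1 := ratio hP H
    have hPr : Tendsto (fun x => (P x : ℝ)) atTop atTop := tendsto_natCast_atTop_atTop.comp hP
    have h2 : Tendsto (fun x => (Q x : ℝ) / P x * P x) atTop atTop := h1.pos_mul_atTop hv hPr
    obtain ⟨x, hx1, hx2⟩ := ((h2.eventually_gt_atTop (B : ℝ)).and (hP.eventually_ge_atTop 1)).exists
    have h4 : (P x : ℝ) ≠ 0 := by
      have : (0 : ℝ) < P x := by exact_mod_cast hx2
      exact this.ne'
    rw [div_mul_cancel₀ _ h4] at hx1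
    have h5 : B < Q x := by exact_mod_cast hx1
    exact absurd (hB x) (by omega)

theorem lim_iff {P Q : ℕ → ℕ} {v C : ℝ} {E : ℕ} {f : ℕ → ℝ} (hv : 0 < v) (hC : 0 < C) (hf : Tendsto f atTop atTop)
    (hQP : ∀ x, Q x ≤ P x)
    (H : ∃ K₀ : ℕ, ∀ x, K₀ ≤ P x → ((Q x : ℝ) - v * P x) ^ 2 ≤ P x * Real.log (P x) ^ E) :
    Tendsto (fun x => (P x : ℝ) / f x) atTop (nhds C) ↔ Tendsto (fun x => (Q x : ℝ) / f x) atTop (nhds (v * C)) := by
  have key : ∀ (R : ℕ → ℕ) (D : ℝ), 0 < D → Tendsto (fun x => (R x : ℝ) / f x) atTop (nhds D) → Tendsto R atTop atTop := by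
    intro R D hD hR
    have h1 : Tendsto (fun x => (R x : ℝ) / f x * f x) atTop atTop := hR.pos_mul_atTop hD hf
    have h2 : Tendsto (fun x => (R x : ℝ)) atTop atTop := by
      refine h1.congr' ?_
      filter_upwards [hf.eventually_gt_atTop 0] with x hx
      rw [div_mul_cancel₀ _ hx.ne']
    exact tendsto_natCast_atTop_iff.1 h2
  constructor
  · intro h
    have hP := key P C hC h
    have h1 := (ratio hP H).mul h
    refine h1.congr' ?_
    filter_upwards [hP.eventually_ge_atTop 1] with x hx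
    have h4 : (P x : ℝ) ≠ 0 := by
      have : (0 : ℝ) < P x := by exact_mod_cast hx
      exact this.ne'
    field_simp
  · intro h
    have hQ := key Q (v * C) (by positivity) h
    have hP : Tendsto P atTop atTop := tendsto_atTop_mono hQP hQ
    have h1 := h.div (ratio hP H) hv.ne'
    rw [mul_div_cancel_left₀ _ hv.ne'] at h1
    refine h1.congr' ?_
    simp only [Pi.div_def]
    filter_upwards [hP.eventually_ge_atTop 1, hQ.eventually_ge_atTop 1, hf.eventually_gt_atTop 0] with x hx hx' hfx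
    have h4 : (P x : ℝ) ≠ 0 := by
      have : (0 : ℝ) < P x := by exact_mod_cast hx
      exact this.ne'
    have h5 : (Q x : ℝ) ≠ 0 := by
      have : (0 : ℝ) < Q x := by exact_mod_cast hx'
      exact this.ne'
    have h6 := hfx.ne'
    field_simp

theorem sqrt_div_log : Tendsto (fun x : ℕ => √(x : ℝ) / Real.log x) atTop atTop := by
  have h1 : Tendsto (fun x : ℝ => Real.log x / x ^ (1 / 2 : ℝ)) atTop (nhds 0) :=
    (isLittleO_log_rpow_atTop (by norm_num : (0 : ℝ) < 1 / 2)).tendsto_div_nhds_zero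
  have h2 : Tendsto (fun x : ℝ => Real.log x / x ^ (1 / 2 : ℝ)) atTop (nhdsWithin 0 (Set.Ioi 0)) := by
    refine tendsto_nhdsWithin_iff.2 ⟨h1, ?_⟩
    filter_upwards [eventually_gt_atTop 1] with x hx
    exact div_pos (Real.log_pos hx) (by positivity)
  have h3 := h2.inv_tendsto_nhdsGT_zero
  have h4 := h3.comp tendsto_natCast_atTop_atTop
  refine h4.congr fun x => ?_
  simp only [Function.comp_apply, Pi.inv_apply, inv_div, Real.sqrt_eq_rpow]

/-- mean squares -/
theorem mean_iff {ι : Type*} (D : ℕ → Finset ι) (P Q : ι → ℕ → ℝ) (c : ι → ℝ) (f : ℕ → ℝ) (M : ℕ → ℝ) {v : ℝ} (hv : 0 < v)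
    (hM : ∀ x, 0 ≤ M x)
    (H : Tendsto (fun x => (∑ a ∈ D x, (Q a x - v * P a x) ^ 2) / M x) atTop (nhds 0)) :
    Tendsto (fun x => (∑ a ∈ D x, (P a x - c a * f x) ^ 2) / M x) atTop (nhds 0) ↔
      Tendsto (fun x => (∑ a ∈ D x, (Q a x - v * c a * f x) ^ 2) / M x) atTop (nhds 0) := by
  constructor
  · intro h
    have h1 := (H.const_mul 2).add (h.const_mul (2 * v ^ 2))
    simp only [mul_zero, add_zero] at h1
    refine squeeze_zero (fun x => div_nonneg (sum_nonneg fun _ _ => sq_nonneg _) (hM x)) (fun x => ?_) h1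
    rw [← mul_div_assoc, ← mul_div_assoc, ← add_div]
    apply div_le_div_of_nonneg_right _ (hM x)
    rw [mul_sum, mul_sum, ← sum_add_distrib]
    apply sum_le_sum
    intro a _
    nlinarith [sq_nonneg ((Q a x - v * P a x) - v * (P a x - c a * f x))]
  · intro h
    have h1 := ((H.const_mul 2).add (h.const_mul 2)).const_mul (1 / v ^ 2)
    simp only [mul_zero, add_zero] at h1
    refine squeeze_zero (fun x => div_nonneg (sum_nonneg fun _ _ => sq_nonneg _) (hM x)) (fun x => ?_) h1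
    rw [← mul_div_assoc, ← mul_div_assoc, ← add_div, ← mul_div_assoc]
    apply div_le_div_of_nonneg_right _ (hM x)
    rw [div_mul_eq_mul_div, one_mul, le_div_iff₀ (by positivity), mul_sum, mul_sum, ← sum_add_distrib, sum_mul]
    apply sum_le_sum
    intro a _
    nlinarith [sq_nonneg ((Q a x - v * P a x) + (Q a x - v * c a * f x))]

theorem beatty_iff {θ : ℝ} (h0 : 0 < θ) (h1 : θ < 1) (p : ℕ) :
    (∃ n : ℕ, (p : ℤ) = ⌊(n : ℝ) / θ⌋) ↔ Int.fract ((p : ℝ) * (-θ)) < θ := by
  constructor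
  · rintro ⟨n, hn⟩
    have h2 := (Int.floor_eq_iff.1 hn.symm)
    obtain ⟨h3, h4⟩ := h2
    push_cast at h3 h4
    rw [le_div_iff₀ h0] at h3
    rw [div_lt_iff₀ h0] at h4
    have h5 : Int.fract ((p : ℝ) * (-θ)) = (n : ℝ) - p * θ := by
      rw [Int.fract_eq_iff]
      refine ⟨by linarith, by nlinarith, -(n : ℤ), ?_⟩
      push_cast
      ring
    rw [h5]
    nlinarith
  · intro h
    have h2 : 0 ≤ ⌈(p : ℝ) * θ⌉ := Int.ceil_nonneg (by positivity)
    obtain ⟨n, hn⟩ := Int.eq_ofNat_of_zero_le h2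
    refine ⟨n, ?_⟩
    have h3 : Int.fract ((p : ℝ) * (-θ)) = (n : ℝ) - p * θ := by
      have h4 : (p : ℝ) * (-θ) = -((p : ℝ) * θ) := by ring
      rw [h4, Int.fract, Int.floor_neg, hn]
      push_cast
      ring
    rw [h3] at h
    have h5 : (p : ℝ) * θ ≤ n := by
      have := Int.le_ceil ((p : ℝ) * θ)
      rw [hn] at this
      exact_mod_cast this
    symm
    rw [Int.floor_eq_iff]
    push_cast
    constructor
    · rw [le_div_iff₀ h0]
      exact h5
    · rw [div_lt_iff₀ h0]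
      linarith

theorem ae_neg {P : ℝ → Prop} (h : ∀ᵐ α : ℝ, P α) : ∀ᵐ α : ℝ, P (-α) :=
  (Measure.measurePreserving_neg (volume : Measure ℝ)).quasiMeasurePreserving.ae h

instance : Countable (WeierstrassCurve ℤ) := by
  have : Function.Injective (fun W : WeierstrassCurve ℤ => (W.a₁, W.a₂, W.a₃, W.a₄, W.a₆)) := by
    intro W W' h
    simp only [Prod.mk.injEq] at h
    obtain ⟨h1, h2, h3, h4, h5⟩ := h
    cases W
    cases W'
    simp_all
  exact this.countable

theorem nth_coprime : ∀ k l : ℕ, k ≠ l → (Nat.nth Nat.Prime k).Coprime (Nat.nth Nat.Prime l) := by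
  intro k l hkl
  rw [Nat.coprime_primes (Nat.prime_nth_prime k) (Nat.prime_nth_prime l)]
  exact fun h => hkl (Nat.nth_injective Nat.infinite_setOfPred_prime h)

end Pool.Agent.H90.MR
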