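import Pool.Agent.H90.MR.Stm

/-! # Project MR: Borel-Cantelli for periodic functions, measurability -/

set_option autoImplicit false

namespace Pool.Agent.H90.MR

open Finset MeasureTheory Filter

theorem g_measurable (c d : ℝ) (n : ℕ) : Measurable (g c d n) := by
  unfold g
  have h1 : Measurable (fun x : ℝ => Int.fract ((n : ℝ) * x)) := (measurable_const.mul measurable_id).fract
  refine Measurable.sub (Measurable.ite ?_ measurable_const measurable_const) measurable_const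
  exact (measurableSet_le measurable_const h1).inter (measurableSet_lt h1 measurable_const)

theorem g_bound {c d : ℝ} (hc : 0 ≤ c) (hcd : c ≤ d) (hd : d ≤ 1) (n : ℕ) (x : ℝ) : |g c d n x| ≤ 1 := by
  unfold g
  split_ifs
  · rw [abs_le]; constructor <;> linarith
  · rw [abs_le]; constructor <;> linarith

theorem g_periodic (c d : ℝ) (n : ℕ) (x : ℝ) : g c d n (x + 1) = g c d n x := by
  unfold g
  have h : Int.fract ((n : ℝ) * (x + 1)) = Int.fract ((n : ℝ) * x) := by
    rw [mul_add, mul_one]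
    exact_mod_cast Int.fract_add_natCast ((n : ℝ) * x) n
  rw [h]

theorem QQ_nonneg (m : ℕ) (S : Finset ℕ) (f : ℕ → ℝ) (rs : List (ℕ → ℕ)) : ∀ τ : ℕ → List ℤ, 0 ≤ QQ m S f rs τ := by
  induction rs with
  | nil => intro τ; exact sum_nonneg fun c _ => sq_nonneg _
  | cons r rs ih => intro τ; exact sum_nonneg fun i _ => ih _

theorem QQ_measurable (m : ℕ) (S : Finset ℕ) (f : ℕ → ℝ → ℝ) (hf : ∀ k, Measurable (f k)) (rs : List (ℕ → ℕ)) :
    ∀ τ : ℕ → List ℤ, Measurable (fun x => QQ m S (fun k => f k x) rs τ) := by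
  induction rs with
  | nil =>
    intro τ
    unfold QQ
    exact Finset.measurable_sum _ fun c _ => (Finset.measurable_sum _ fun k _ => hf k).pow_const 2
  | cons r rs ih =>
    intro τ
    unfold QQ
    exact Finset.measurable_sum _ fun i _ => ih _

theorem QQ_bound (m : ℕ) (S : Finset ℕ) (rs : List (ℕ → ℕ)) : ∀ τ : ℕ → List ℤ, ∃ B : ℝ, ∀ f : ℕ → ℝ, (∀ k, |f k| ≤ 1) →
    QQ m S f rs τ ≤ B := by
  induction rs with
  | nil =>
    intro τ
    refine ⟨∑ c ∈ S.image τ, (S.card : ℝ) ^ 2, fun f hf => sum_le_sum fun c _ => ?_⟩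
    have h1 : |∑ k ∈ S.filter (fun k => τ k = c), f k| ≤ (S.card : ℝ) := by
      calc |∑ k ∈ S.filter (fun k => τ k = c), f k| ≤ ∑ k ∈ S.filter (fun k => τ k = c), |f k| := abs_sum_le_sum_abs _ _
        _ ≤ ∑ k ∈ S.filter (fun k => τ k = c), (1 : ℝ) := sum_le_sum fun k _ => hf k
        _ = ((S.filter (fun k => τ k = c)).card : ℝ) := by simp
        _ ≤ (S.card : ℝ) := by exact_mod_cast card_filter_le _ _
    rw [← sq_abs]
    exact pow_le_pow_left₀ (abs_nonneg _) h1 2
  | cons r rs ih =>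
    intro τ
    choose B hB using fun i : ℕ => ih (fun k => ((r k / 2 ^ i : ℕ) : ℤ) :: τ k)
    exact ⟨∑ i ∈ range (m + 1), B i, fun f hf => sum_le_sum fun i _ => hB i f hf⟩

/-- Borel-Cantelli for periodic functions. -/
theorem bc (V : ℕ → ℝ → ℝ) (t a : ℕ → ℝ) (ht : ∀ m, 0 < t m) (hV0 : ∀ m x, 0 ≤ V m x) (hVm : ∀ m, Measurable (V m))
    (hb : ∀ m, ∃ B : ℝ, ∀ x, V m x ≤ B) (hper : ∀ m x, V m (x + 1) = V m x) (ha0 : ∀ m, 0 ≤ a m) (ha : Summable a)
    (h : ∀ m, ∫ x in (0 : ℝ)..1, V m x ≤ a m * t m) : ∀ᵐ x : ℝ, ∀ᶠ m in atTop, V m x ≤ t m := by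
  set μ : Measure ℝ := volume.restrict (Set.Ioc (0 : ℝ) 1) with hμ
  have hint : ∀ m, Integrable (V m) μ := by
    intro m
    obtain ⟨B, hB⟩ := hb m
    refine Integrable.mono' (integrable_const B) (hVm m).aestronglyMeasurable (ae_of_all _ fun x => ?_)
    rw [Real.norm_eq_abs, abs_of_nonneg (hV0 m x)]
    exact hB x
  have h1 : ∀ m, μ {x | t m ≤ V m x} ≤ ENNReal.ofReal (a m) := by
    intro m
    have h2 := mul_meas_ge_le_integral_of_nonneg (μ := μ) (ae_of_all _ (hV0 m)) (hint m) (t m)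
    have h3 : ∫ x, V m x ∂μ ≤ a m * t m := by
      have := h m
      rwa [intervalIntegral.integral_of_le zero_le_one] at this
    have h4 : μ.real {x | t m ≤ V m x} ≤ a m := by
      have h5 : t m * μ.real {x | t m ≤ V m x} ≤ t m * a m := by linarith [h2.trans h3]
      exact le_of_mul_le_mul_left h5 (ht m)
    rw [← ofReal_measureReal]
    exact ENNReal.ofReal_le_ofReal h4
  have h2 : ∑' m, μ {x | t m ≤ V m x} ≠ ⊤ := by
    refine ne_top_of_le_ne_top ?_ (ENNReal.tsum_le_tsum h1)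
    exact ha.tsum_ofReal_ne_top
  have h3 : ∀ᵐ x ∂μ, ∀ᶠ m in atTop, x ∉ {x | t m ≤ V m x} := ae_eventually_notMem h2
  set N : Set ℝ := {x | ¬ ∀ᶠ m in atTop, V m x ≤ t m} with hN
  have h4 : volume (N ∩ Set.Ioc (0 : ℝ) 1) = 0 := by
    have h5 : ∀ᵐ x ∂μ, x ∉ N := by
      filter_upwards [h3] with x hx
      simp only [hN, Set.mem_ofPred_eq, not_not]
      filter_upwards [hx] with m hm
      simp only [Set.mem_ofPred_eq, not_le] at hm
      exact hm.le
    rw [ae_iff] at h5
    simp only [not_not] at h5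
    rw [hμ, Measure.restrict_apply' measurableSet_Ioc] at h5
    exact h5
  have hperz : ∀ (m : ℕ) (z : ℤ) (x : ℝ), V m (x + z) = V m x := by
    intro m z x
    have hp : Function.Periodic (V m) 1 := hper m
    have := hp.int_mul z x
    simpa using this
  have hNz : ∀ (z : ℤ) (x : ℝ), x + z ∈ N ↔ x ∈ N := by
    intro z x
    simp only [hN, Set.mem_ofPred_eq, hperz]
  have h6 : ∀ z : ℤ, volume (N ∩ Set.Ioc (z : ℝ) (z + 1)) = 0 := by
    intro z
    have h7 : N ∩ Set.Ioc (z : ℝ) (z + 1) ⊆ (fun x => x + (-(z : ℝ))) ⁻¹' (N ∩ Set.Ioc (0 : ℝ) 1) := by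
      rintro x ⟨hx1, hx2, hx3⟩
      refine ⟨?_, ?_, ?_⟩
      · have := (hNz (-z) x).2 hx1
        simpa using this
      · simp only; linarith
      · simp only; linarith
    refine measure_mono_null h7 ?_
    rw [measure_preimage_add_right]
    exact h4
  have h8 : volume N = 0 := by
    have h9 : N ⊆ ⋃ z : ℤ, N ∩ Set.Ioc (z : ℝ) (z + 1) := by
      intro x hx
      rw [Set.mem_iUnion]
      refine ⟨⌈x⌉ - 1, hx, ?_, ?_⟩
      · push_cast
        linarith [Int.ceil_lt_add_one x]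
      · push_cast
        linarith [Int.le_ceil x]
    exact measure_mono_null h9 (measure_iUnion_null h6)
  rw [ae_iff]
  exact h8

end Pool.Agent.H90.MR
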