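import Pool.Agent.H90.MR.Asym

/-! # Project MR: bounds `C K ^ (1 - β + ε)` -/

set_option autoImplicit false

namespace Pool.Agent.H90.MR

open Finset MeasureTheory Filter

/-- the bound `C K ^ (1 - β + ε)` for every `ε`, uniformly -/
def GG (β : ℝ) {ι : Type*} (D : ι → Prop) (F : ℕ → ι → ℝ) : Prop :=
  ∀ ε : ℝ, 0 < ε → ∃ C : ℝ, ∀ K : ℕ, 1 ≤ K → ∀ i, D i → |F K i| ≤ C * (K : ℝ) ^ (1 - β + ε)

theorem GG.add {β : ℝ} {ι : Type*} {D : ι → Prop} {F G : ℕ → ι → ℝ} (h : GG β D F) (h' : GG β D G) : GG β D (fun K i => F K i + G K i) := by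
  intro ε hε
  obtain ⟨C, hC⟩ := h ε hε
  obtain ⟨C', hC'⟩ := h' ε hε
  refine ⟨C + C', fun K hK i hi => (abs_add_le _ _).trans ?_⟩
  rw [add_mul]
  exact add_le_add (hC K hK i hi) (hC' K hK i hi)

theorem GG.mul {β : ℝ} {ι : Type*} {D : ι → Prop} {F : ℕ → ι → ℝ} (h : GG β D F) (c : ι → ℝ) {B : ℝ} (hB : ∀ i, D i → |c i| ≤ B) :
    GG β D (fun K i => c i * F K i) := by
  intro ε hε
  obtain ⟨C, hC⟩ := h ε hε
  refine ⟨B * C, fun K hK i hi => ?_⟩
  rw [abs_mul, mul_assoc]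
  have h1 := hC K hK i hi
  have h2 := hB i hi
  have h3 : 0 ≤ B := (abs_nonneg _).trans h2
  exact mul_le_mul h2 h1 (abs_nonneg _) h3

theorem GG.congr {β : ℝ} {ι : Type*} {D : ι → Prop} {F G : ℕ → ι → ℝ} (h : GG β D F) (h' : ∀ K i, D i → F K i = G K i) : GG β D G := by
  intro ε hε
  obtain ⟨C, hC⟩ := h ε hε
  exact ⟨C, fun K hK i hi => by rw [← h' K i hi]; exact hC K hK i hi⟩

/-- from a square bound for large `K` and a trivial bound -/
theorem GG.of_sq {β : ℝ} (hβ : β ≤ 1 / 2) {ι : Type*} {D : ι → Prop} {F : ℕ → ι → ℝ} {E : ℕ}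
    (h : ∃ K₀ : ℕ, ∀ K : ℕ, K₀ ≤ K → ∀ i, D i → (F K i) ^ 2 ≤ K * Real.log K ^ E)
    (h' : ∀ K i, D i → |F K i| ≤ K) : GG β D F := by
  intro ε hε
  obtain ⟨K₀, h⟩ := h
  -- `log K ^ E ≤ K ^ (2 ε)` for large `K`
  have h1 : ∀ᶠ K : ℕ in atTop, Real.log K ^ E ≤ (K : ℝ) ^ (2 * ε) := by
    have h2 : (fun x : ℝ => Real.log x ^ (E : ℝ)) =o[atTop] fun x => x ^ (2 * ε) :=
      isLittleO_log_rpow_rpow_atTop (E : ℝ) (by positivity)
    have h3 := (h2.bound (by norm_num : (0 : ℝ) < 1))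
    have h4 := tendsto_natCast_atTop_atTop (R := ℝ) |>.eventually h3
    filter_upwards [h4, eventually_ge_atTop 1] with K hK hK1
    rw [Real.rpow_natCast, one_mul, Real.norm_eq_abs, Real.norm_eq_abs,
      abs_of_nonneg (Real.rpow_nonneg (by positivity) _)] at hK
    exact (le_abs_self _).trans hK
  obtain ⟨K₁, h1⟩ := eventually_atTop.1 h1
  refine ⟨1 + (max K₀ K₁ : ℕ), fun K hK i hi => ?_⟩
  have hK' : (1 : ℝ) ≤ K := by exact_mod_cast hK
  have hpow : (1 : ℝ) ≤ (K : ℝ) ^ (1 - β + ε) := Real.one_le_rpow hK' (by linarith)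
  rcases Nat.lt_or_ge K (max K₀ K₁) with h2 | h2
  · have h3 : (K : ℝ) ≤ (max K₀ K₁ : ℕ) := by exact_mod_cast h2.le
    calc |F K i| ≤ K := h' K i hi
      _ ≤ (1 + (max K₀ K₁ : ℕ)) * 1 := by linarith
      _ ≤ (1 + (max K₀ K₁ : ℕ)) * (K : ℝ) ^ (1 - β + ε) := by gcongr
  · have h3 := h K ((le_max_left _ _).trans h2) i hi
    have h4 := h1 K ((le_max_right _ _).trans h2)
    have h5 : (F K i) ^ 2 ≤ ((K : ℝ) ^ (1 - β + ε)) ^ 2 := by
      refine h3.trans ?_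
      calc (K : ℝ) * Real.log K ^ E ≤ K * (K : ℝ) ^ (2 * ε) := by gcongr
        _ = (K : ℝ) ^ (1 + 2 * ε) := by
          rw [Real.rpow_add (by linarith), Real.rpow_one]
        _ ≤ (K : ℝ) ^ ((1 - β + ε) * (2 : ℕ)) := by
          apply Real.rpow_le_rpow_of_exponent_le hK'
          push_cast
          linarith
        _ = ((K : ℝ) ^ (1 - β + ε)) ^ 2 := by
          rw [Real.rpow_mul (by positivity), Real.rpow_natCast]
    have h6 := abs_le_of_sq_le_sq h5 (by positivity)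
    have h7 : (1 : ℝ) ≤ 1 + (max K₀ K₁ : ℕ) := by
      have : (0 : ℝ) ≤ (max K₀ K₁ : ℕ) := by positivity
      linarith
    calc |F K i| ≤ (K : ℝ) ^ (1 - β + ε) := h6
      _ = 1 * (K : ℝ) ^ (1 - β + ε) := (one_mul _).symm
      _ ≤ (1 + (max K₀ K₁ : ℕ)) * (K : ℝ) ^ (1 - β + ε) := by gcongr

/-- normalization by the number of the members -/
theorem norm_iff {β : ℝ} (hβ0 : 0 ≤ β) (hβ : β ≤ 1 / 2) {ι : Type*} {D : ι → Prop} {A : ℕ → ι → ℝ} {N : ℕ → ℕ} {μ : ι → ℝ} {B c : ℝ} (hc : 0 < c)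
    (hN : ∀ K, N K ≤ K) (hN' : ∃ K₁ : ℕ, ∀ K : ℕ, K₁ ≤ K → c * K ≤ N K) (hA : ∀ K i, 0 ≤ A K i ∧ A K i ≤ N K)
    (hμ : ∀ i, D i → |μ i| ≤ B) :
    (∀ ε : ℝ, 0 < ε → ∃ C : ℝ, ∀ K : ℕ, 0 < N K → ∀ i, D i → |A K i / N K - μ i| ≤ C * (N K : ℝ) ^ (ε - β)) ↔
      GG β D (fun K i => A K i - N K * μ i) := by
  constructor
  · intro h ε hε
    obtain ⟨C, hC⟩ := h ε hε
    refine ⟨|C|, fun K hK i hi => ?_⟩
    show |A K i - N K * μ i| ≤ |C| * (K : ℝ) ^ (1 - β + ε)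
    rcases Nat.eq_zero_or_pos (N K) with h0 | h0
    · have h1 := hA K i
      rw [h0] at h1 ⊢
      push_cast at h1 ⊢
      have h2 : A K i = 0 := le_antisymm h1.2 h1.1
      rw [h2, zero_mul, sub_zero, abs_zero]
      positivity
    · have h1 := hC K h0 i hi
      have h2 : (0 : ℝ) < N K := by exact_mod_cast h0
      have h3 : A K i - N K * μ i = N K * (A K i / N K - μ i) := by field_simp
      have h4 : (N K : ℝ) ≤ K := by exact_mod_cast hN K
      rw [h3, abs_mul, abs_of_pos h2]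
      calc (N K : ℝ) * |A K i / N K - μ i| ≤ N K * (|C| * (N K : ℝ) ^ (ε - β)) := by
            apply mul_le_mul_of_nonneg_left _ h2.le
            refine h1.trans ?_
            exact mul_le_mul_of_nonneg_right (le_abs_self _) (by positivity)
        _ = |C| * (N K : ℝ) ^ (1 - β + ε) := by
            rw [mul_left_comm]
            congr 1
            conv_lhs => rw [show (N K : ℝ) * (N K : ℝ) ^ (ε - β) = (N K : ℝ) ^ (1 : ℝ) * (N K : ℝ) ^ (ε - β) by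
              rw [Real.rpow_one], ← Real.rpow_add h2]
            congr 1
            ring
        _ ≤ |C| * (K : ℝ) ^ (1 - β + ε) :=
            mul_le_mul_of_nonneg_left (Real.rpow_le_rpow h2.le h4 (by linarith)) (abs_nonneg _)
  · intro h ε hε
    obtain ⟨C, hC⟩ := h ε hε
    obtain ⟨K₁, hK₁⟩ := hN'
    have hB : ∀ i, D i → 0 ≤ B := fun i hi => (abs_nonneg _).trans (hμ i hi)
    refine ⟨|C| * c⁻¹ ^ (1 - β + ε) + (1 + |B|) * (K₁ : ℝ) ^ β, fun K h0 i hi => ?_⟩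
    have h2 : (0 : ℝ) < N K := by exact_mod_cast h0
    have h2' : (1 : ℝ) ≤ N K := by exact_mod_cast h0
    have hK : 1 ≤ K := h0.trans_le (hN K)
    have hpos : 0 ≤ (N K : ℝ) ^ (ε - β) := by positivity
    rw [add_mul]
    rcases Nat.lt_or_ge K K₁ with h3 | h3
    · have h4 : |A K i / N K - μ i| ≤ 1 + |B| := by
        refine (abs_sub _ _).trans ?_
        have h5 : |A K i / N K| ≤ 1 := by
          rw [abs_of_nonneg (div_nonneg (hA K i).1 h2.le), div_le_one h2]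
          exact (hA K i).2
        have h6 : |μ i| ≤ |B| := (hμ i hi).trans (le_abs_self _)
        linarith
      have h7 : (1 : ℝ) ≤ (K₁ : ℝ) ^ β * (N K : ℝ) ^ (ε - β) := by
        have h8 : (N K : ℝ) ≤ K₁ := by exact_mod_cast (hN K).trans h3.le
        calc (1 : ℝ) ≤ (N K : ℝ) ^ ε := Real.one_le_rpow h2' hε.le
          _ = (N K : ℝ) ^ β * (N K : ℝ) ^ (ε - β) := by
            rw [← Real.rpow_add h2]
            congr 1
            ring
          _ ≤ (K₁ : ℝ) ^ β * (N K : ℝ) ^ (ε - β) :=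
            mul_le_mul_of_nonneg_right (Real.rpow_le_rpow h2.le h8 hβ0) hpos
      calc |A K i / N K - μ i| ≤ (1 + |B|) * 1 := by linarith
        _ ≤ (1 + |B|) * ((K₁ : ℝ) ^ β * (N K : ℝ) ^ (ε - β)) := by gcongr
        _ ≤ |C| * c⁻¹ ^ (1 - β + ε) * (N K : ℝ) ^ (ε - β) +
            (1 + |B|) * (K₁ : ℝ) ^ β * (N K : ℝ) ^ (ε - β) := by
          rw [mul_assoc (1 + |B|)]
          have : 0 ≤ |C| * c⁻¹ ^ (1 - β + ε) * (N K : ℝ) ^ (ε - β) := by positivity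
          linarith
    · have h4 := hC K hK i hi
      have h5 := hK₁ K h3
      have h6 : (K : ℝ) ≤ c⁻¹ * N K := by
        rw [← div_eq_inv_mul, le_div_iff₀ hc]
        linarith
      have h7 : A K i / N K - μ i = (A K i - N K * μ i) / N K := by field_simp
      rw [h7, abs_div, abs_of_pos h2, div_le_iff₀ h2]
      have h8 : 0 ≤ (1 + |B|) * (K₁ : ℝ) ^ β * (N K : ℝ) ^ (ε - β) := by positivity
      have h9 : |C| * (K : ℝ) ^ (1 - β + ε) ≤ |C| * c⁻¹ ^ (1 - β + ε) * (N K : ℝ) ^ (ε - β) * N K := by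
        calc |C| * (K : ℝ) ^ (1 - β + ε) ≤ |C| * (c⁻¹ * N K) ^ (1 - β + ε) :=
              mul_le_mul_of_nonneg_left (Real.rpow_le_rpow (by positivity) h6 (by linarith)) (abs_nonneg _)
          _ = |C| * c⁻¹ ^ (1 - β + ε) * ((N K : ℝ) ^ (ε - β) * N K) := by
            rw [Real.mul_rpow (by positivity) h2.le]
            rw [show (N K : ℝ) ^ (ε - β) * N K = (N K : ℝ) ^ (ε - β) * (N K : ℝ) ^ (1 : ℝ) by rw [Real.rpow_one],
              ← Real.rpow_add h2, show ε - β + 1 = 1 - β + ε by ring]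
            ring
          _ = _ := by ring
      calc |A K i - N K * μ i| ≤ C * (K : ℝ) ^ (1 - β + ε) := h4
        _ ≤ |C| * (K : ℝ) ^ (1 - β + ε) := mul_le_mul_of_nonneg_right (le_abs_self _) (by positivity)
        _ ≤ |C| * c⁻¹ ^ (1 - β + ε) * (N K : ℝ) ^ (ε - β) * N K := h9
        _ ≤ _ := by
          rw [add_mul]
          have := mul_nonneg h8 h2.le
          linarith

end Pool.Agent.H90.MR
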