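import Pool.Agent.H90.MR.BC

/-! # Project MR: the metric theorem -/

set_option autoImplicit false

namespace Pool.Agent.H90.MR

open Finset MeasureTheory Filter

theorem bits (m : ℕ) : ∀ b : ℕ, b < 2 ^ (m + 1) → ∑ i ∈ range (m + 1), (if (b / 2 ^ i) % 2 = 1 then 2 ^ i else 0) = b := by
  induction m with
  | zero =>
    intro b hb
    simp only [zero_add, range_one, sum_singleton, pow_zero, Nat.div_one]
    split_ifs <;> omega
  | succ m ih =>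
    intro b hb
    rw [sum_range_succ']
    have h1 : ∀ i ∈ range (m + 1), (if (b / 2 ^ (i + 1)) % 2 = 1 then 2 ^ (i + 1) else 0) =
        2 * (if ((b / 2) / 2 ^ i) % 2 = 1 then 2 ^ i else 0) := by
      intro i _
      have e : b / 2 ^ (i + 1) = (b / 2) / 2 ^ i := by rw [Nat.div_div_eq_div_mul, pow_succ']
      rw [e]
      split_ifs
      · rw [pow_succ']
      · rfl
    rw [sum_congr rfl h1, ← mul_sum, ih (b / 2) (by rw [pow_succ] at hb; omega)]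
    simp only [pow_zero, Nat.div_one]
    split_ifs <;> omega

/-- a dyadic arc -/
theorem arc_iff {m i w : ℕ} (_hi : i ≤ m) {y : ℝ} (hy : 0 ≤ y) :
    ((w : ℝ) * 2 ^ i / 2 ^ m ≤ y ∧ y < ((w : ℝ) + 1) * 2 ^ i / 2 ^ m) ↔ ⌊2 ^ m * y⌋₊ / 2 ^ i = w := by
  have h2m : (0 : ℝ) < 2 ^ m := by positivity
  have h2i : (0 : ℝ) < 2 ^ i := by positivity
  have e1 : ⌊2 ^ m * y⌋₊ / 2 ^ i = ⌊2 ^ m * y / 2 ^ i⌋₊ := by
    have := Nat.floor_div_natCast (2 ^ m * y) (2 ^ i)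
    push_cast at this
    exact this.symm
  rw [e1, Nat.floor_eq_iff (by positivity)]
  constructor
  · rintro ⟨h1, h2⟩
    constructor
    · rw [le_div_iff₀ h2i]
      rw [div_le_iff₀ h2m] at h1
      linarith
    · rw [div_lt_iff₀ h2i]
      rw [lt_div_iff₀ h2m] at h2
      linarith
  · rintro ⟨h1, h2⟩
    constructor
    · rw [div_le_iff₀ h2m]
      rw [le_div_iff₀ h2i] at h1
      linarith
    · rw [lt_div_iff₀ h2m]
      rw [div_lt_iff₀ h2i] at h2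
      linarith

theorem g_arc {m i w : ℕ} (hi : i ≤ m) (n : ℕ) (α : ℝ) :
    g ((w : ℝ) * 2 ^ i / 2 ^ m) (((w : ℝ) + 1) * 2 ^ i / 2 ^ m) n α =
      (if ⌊2 ^ m * Int.fract ((n : ℝ) * α)⌋₊ / 2 ^ i = w then (1 : ℝ) else 0) - 2 ^ i / 2 ^ m := by
  unfold g
  have e : (((w : ℝ) + 1) * 2 ^ i / 2 ^ m - (w : ℝ) * 2 ^ i / 2 ^ m) = 2 ^ i / 2 ^ m := by ring
  rw [e]
  congr 1
  by_cases h : ⌊2 ^ m * Int.fract ((n : ℝ) * α)⌋₊ / 2 ^ i = w
  · rw [if_pos h, if_pos ((arc_iff hi (Int.fract_nonneg _)).2 h)]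
  · rw [if_neg h, if_neg (fun h' => h ((arc_iff hi (Int.fract_nonneg _)).1 h'))]

/-- the total majorant -/
noncomputable def VV (m : ℕ) (n : ℕ → ℕ) (rs : List (ℕ → ℕ)) (τ : ℕ → List ℤ) (α : ℝ) : ℝ :=
  ∑ i ∈ range (m + 1), ∑ w ∈ range (2 ^ (m - i)),
    QQ m (range (2 ^ m)) (fun k => g ((w : ℝ) * 2 ^ i / 2 ^ m) (((w : ℝ) + 1) * 2 ^ i / 2 ^ m) (n k) α) rs τ

theorem arc_ok {m i w : ℕ} (hi : i ≤ m) (hw : w < 2 ^ (m - i)) :
    0 ≤ (w : ℝ) * 2 ^ i / 2 ^ m ∧ (w : ℝ) * 2 ^ i / 2 ^ m ≤ ((w : ℝ) + 1) * 2 ^ i / 2 ^ m ∧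
      ((w : ℝ) + 1) * 2 ^ i / 2 ^ m ≤ 1 := by
  have h2m : (0 : ℝ) < 2 ^ m := by positivity
  refine ⟨by positivity, ?_, ?_⟩
  · apply div_le_div_of_nonneg_right _ h2m.le
    apply mul_le_mul_of_nonneg_right _ (by positivity)
    linarith
  · rw [div_le_one h2m]
    have h1 : (w + 1) * 2 ^ i ≤ 2 ^ m := by
      calc (w + 1) * 2 ^ i ≤ 2 ^ (m - i) * 2 ^ i := Nat.mul_le_mul_right _ hw
        _ = 2 ^ m := by rw [← pow_add]; congr 1; omega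
    exact_mod_cast h1

theorem VV_nonneg (m : ℕ) (n : ℕ → ℕ) (rs : List (ℕ → ℕ)) (τ : ℕ → List ℤ) (α : ℝ) : 0 ≤ VV m n rs τ α :=
  sum_nonneg fun _ _ => sum_nonneg fun _ _ => QQ_nonneg _ _ _ _ _

theorem VV_measurable (m : ℕ) (n : ℕ → ℕ) (rs : List (ℕ → ℕ)) (τ : ℕ → List ℤ) : Measurable (VV m n rs τ) := by
  unfold VV
  exact Finset.measurable_sum _ fun i _ => Finset.measurable_sum _ fun w _ =>
    QQ_measurable m (range (2 ^ m)) (fun k α => g ((w : ℝ) * 2 ^ i / 2 ^ m) (((w : ℝ) + 1) * 2 ^ i / 2 ^ m) (n k) α)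
      (fun k => g_measurable _ _ _) rs τ

theorem VV_bound (m : ℕ) (n : ℕ → ℕ) (rs : List (ℕ → ℕ)) (τ : ℕ → List ℤ) : ∃ B : ℝ, ∀ α, VV m n rs τ α ≤ B := by
  obtain ⟨B, hB⟩ := QQ_bound m (range (2 ^ m)) rs τ
  refine ⟨∑ i ∈ range (m + 1), ∑ w ∈ range (2 ^ (m - i)), B, fun α => ?_⟩
  apply sum_le_sum
  intro i hi
  apply sum_le_sum
  intro w hw
  obtain ⟨h1, h2, h3⟩ := arc_ok (Nat.lt_succ_iff.1 (mem_range.1 hi)) (mem_range.1 hw)
  exact hB _ fun k => g_bound h1 h2 h3 _ _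

theorem VV_periodic (m : ℕ) (n : ℕ → ℕ) (rs : List (ℕ → ℕ)) (τ : ℕ → List ℤ) (α : ℝ) :
    VV m n rs τ (α + 1) = VV m n rs τ α := by
  unfold VV
  simp only [g_periodic]

theorem int_of_bdd {f : ℝ → ℝ} (hm : Measurable f) {B : ℝ} (hB : ∀ x, |f x| ≤ B) : IntervalIntegrable f volume 0 1 := by
  rw [intervalIntegrable_iff_integrableOn_Ioc_of_le zero_le_one]
  exact Integrable.mono' (integrable_const B) hm.aestronglyMeasurable (ae_of_all _ fun x => by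
    rw [Real.norm_eq_abs]; exact hB x)

theorem VV_mean (hE : S_EXP) (n : ℕ → ℕ) (hn : StrictMono n) (hn0 : 1 ≤ n 0) (hc : ∀ k l, k ≠ l → (n k).Coprime (n l))
    (m : ℕ) (rs : List (ℕ → ℕ)) (τ : ℕ → List ℤ) :
    ∫ x in (0 : ℝ)..1, VV m n rs τ x ≤ 3 * ((m : ℝ) + 1) ^ (rs.length + 1) * 2 ^ m := by
  have hint : ∀ i ∈ range (m + 1), ∀ w ∈ range (2 ^ (m - i)), IntervalIntegrable (fun x =>
      QQ m (range (2 ^ m)) (fun k => g ((w : ℝ) * 2 ^ i / 2 ^ m) (((w : ℝ) + 1) * 2 ^ i / 2 ^ m) (n k) x) rs τ)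
      volume 0 1 := by
    intro i hi w hw
    obtain ⟨h1, h2, h3⟩ := arc_ok (Nat.lt_succ_iff.1 (mem_range.1 hi)) (mem_range.1 hw)
    obtain ⟨B, hB⟩ := QQ_bound m (range (2 ^ m)) rs τ
    rw [intervalIntegrable_iff_integrableOn_Ioc_of_le zero_le_one]
    refine Integrable.mono' (integrable_const B) (QQ_measurable m (range (2 ^ m))
      (fun k α => g ((w : ℝ) * 2 ^ i / 2 ^ m) (((w : ℝ) + 1) * 2 ^ i / 2 ^ m) (n k) α)
      (fun k => g_measurable _ _ _) rs τ).aestronglyMeasurable (ae_of_all _ fun x => ?_)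
    rw [Real.norm_eq_abs, abs_of_nonneg (QQ_nonneg _ _ _ _ _)]
    exact hB _ fun k => g_bound h1 h2 h3 _ _
  unfold VV
  have hint2 : ∀ i ∈ range (m + 1), IntervalIntegrable (fun x => ∑ w ∈ range (2 ^ (m - i)),
      QQ m (range (2 ^ m)) (fun k => g ((w : ℝ) * 2 ^ i / 2 ^ m) (((w : ℝ) + 1) * 2 ^ i / 2 ^ m) (n k) x) rs τ)
      volume 0 1 := by
    intro i hi
    obtain ⟨B, hB⟩ := QQ_bound m (range (2 ^ m)) rs τ
    refine int_of_bdd (B := ∑ w ∈ range (2 ^ (m - i)), B) (Finset.measurable_sum _ fun w _ =>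
      QQ_measurable m (range (2 ^ m)) (fun k α => g ((w : ℝ) * 2 ^ i / 2 ^ m) (((w : ℝ) + 1) * 2 ^ i / 2 ^ m) (n k) α)
      (fun k => g_measurable _ _ _) rs τ) (fun x => ?_)
    rw [abs_of_nonneg (sum_nonneg fun w _ => QQ_nonneg _ _ _ _ _)]
    apply sum_le_sum
    intro w hw
    obtain ⟨h1, h2, h3⟩ := arc_ok (Nat.lt_succ_iff.1 (mem_range.1 hi)) (mem_range.1 hw)
    exact hB _ fun k => g_bound h1 h2 h3 _ _
  rw [intervalIntegral.integral_finsetSum hint2]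
  have h1 : ∀ i ∈ range (m + 1), ∫ x in (0 : ℝ)..1, ∑ w ∈ range (2 ^ (m - i)),
      QQ m (range (2 ^ m)) (fun k => g ((w : ℝ) * 2 ^ i / 2 ^ m) (((w : ℝ) + 1) * 2 ^ i / 2 ^ m) (n k) x) rs τ ≤
      3 * ((m : ℝ) + 1) ^ rs.length * 2 ^ m := by
    intro i hi
    have him : i ≤ m := Nat.lt_succ_iff.1 (mem_range.1 hi)
    rw [intervalIntegral.integral_finsetSum (fun w hw => hint i hi w hw)]
    have h2 : ∀ w ∈ range (2 ^ (m - i)), ∫ x in (0 : ℝ)..1,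
        QQ m (range (2 ^ m)) (fun k => g ((w : ℝ) * 2 ^ i / 2 ^ m) (((w : ℝ) + 1) * 2 ^ i / 2 ^ m) (n k) x) rs τ ≤
        3 * ((m : ℝ) + 1) ^ rs.length * 2 ^ i := by
      intro w hw
      obtain ⟨h1, h2, h3⟩ := arc_ok him (mem_range.1 hw)
      refine (hE n hn hn0 hc (fun _ => (w : ℝ) * 2 ^ i / 2 ^ m) (fun _ => ((w : ℝ) + 1) * 2 ^ i / 2 ^ m)
        (fun _ => ⟨h1, h2, h3⟩) m (range (2 ^ m)) rs τ).trans (le_of_eq ?_)
      congr 1
      rw [sum_const, card_range, nsmul_eq_mul]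
      push_cast
      have h2m : (2 : ℝ) ^ m ≠ 0 := by positivity
      field_simp
      ring
    refine (sum_le_sum h2).trans (le_of_eq ?_)
    rw [sum_const, card_range, nsmul_eq_mul]
    push_cast
    have h3 : (2 : ℝ) ^ (m - i) * 2 ^ i = 2 ^ m := by rw [← pow_add]; congr 1; omega
    rw [← h3]
    ring
  refine (sum_le_sum h1).trans (le_of_eq ?_)
  rw [sum_const, card_range, nsmul_eq_mul]
  push_cast
  ring

end Pool.Agent.H90.MR
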