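import Pool.Agent.H90.MR.Met

/-! # Project MR: the metric theorem, arcs -/

set_option autoImplicit false

namespace Pool.Agent.H90.MR

open Finset MeasureTheory Filter

theorem ind_sum (S : Finset ℕ) (P : ℕ → Prop) [DecidablePred P] (v : ℝ) :
    ((S.filter P).card : ℝ) - v * S.card = ∑ k ∈ S, ((if P k then (1 : ℝ) else 0) - v) := by
  rw [sum_sub_distrib, sum_const, nsmul_eq_mul, card_filter]
  push_cast
  ring

theorem odd_aux (A B : ℕ) (h : B % 2 = 1) : (B % 2 = 1 ∧ A + 1 = B) ↔ A = B - 1 := by omega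

theorem grid_err (hD : S_DY) {m b : ℕ} (hb : b ≤ 2 ^ m) (n : ℕ → ℕ) (α : ℝ) (S : Finset ℕ) :
    ((S.filter (fun k => Int.fract ((n k : ℝ) * α) < (b : ℝ) / 2 ^ m)).card : ℝ) - (b : ℝ) / 2 ^ m * S.card =
      ∑ i ∈ range (m + 1), if (b / 2 ^ i) % 2 = 1 then
        ∑ k ∈ S, g (((b / 2 ^ i - 1 : ℕ) : ℝ) * 2 ^ i / 2 ^ m) ((((b / 2 ^ i - 1 : ℕ) : ℝ) + 1) * 2 ^ i / 2 ^ m) (n k) α
      else 0 := by
  have h2m : (0 : ℝ) < 2 ^ m := by positivity
  rw [ind_sum]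
  have hbits := bits m b (by rw [pow_succ]; have : 1 ≤ 2 ^ m := Nat.one_le_two_pow; omega)
  have hbits' : (b : ℝ) / 2 ^ m = ∑ i ∈ range (m + 1), if (b / 2 ^ i) % 2 = 1 then (2 : ℝ) ^ i / 2 ^ m else 0 := by
    conv_lhs => rw [← hbits]
    push_cast
    rw [sum_div]
    apply sum_congr rfl
    intro i _
    split_ifs
    · rfl
    · simp
  have hk : ∀ k ∈ S, (if Int.fract ((n k : ℝ) * α) < (b : ℝ) / 2 ^ m then (1 : ℝ) else 0) - (b : ℝ) / 2 ^ m =
      ∑ i ∈ range (m + 1), if (b / 2 ^ i) % 2 = 1 then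
        g (((b / 2 ^ i - 1 : ℕ) : ℝ) * 2 ^ i / 2 ^ m) ((((b / 2 ^ i - 1 : ℕ) : ℝ) + 1) * 2 ^ i / 2 ^ m) (n k) α
      else 0 := by
    intro k _
    set y := Int.fract ((n k : ℝ) * α) with hy
    have hy0 : 0 ≤ y := Int.fract_nonneg _
    have hy1 : y < 1 := Int.fract_lt_one _
    set r := ⌊2 ^ m * y⌋₊ with hr
    have hr2 : r < 2 ^ m := by
      rw [hr, Nat.floor_lt (by positivity)]
      push_cast
      nlinarith
    have e1 : (if y < (b : ℝ) / 2 ^ m then (1 : ℝ) else 0) = if r < b then (1 : ℝ) else 0 := by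
      have : y < (b : ℝ) / 2 ^ m ↔ r < b := by
        rw [hr, Nat.floor_lt (by positivity), lt_div_iff₀ h2m, mul_comm]
      simp only [this]
    rw [e1, hD m r b hr2 hb, hbits', ← sum_sub_distrib]
    apply sum_congr rfl
    intro i hi
    have him : i ≤ m := Nat.lt_succ_iff.1 (mem_range.1 hi)
    by_cases ho : (b / 2 ^ i) % 2 = 1
    · rw [if_pos ho, if_pos ho, g_arc him]
      congr 1
      have h3 : ((b / 2 ^ i) % 2 = 1 ∧ r / 2 ^ i + 1 = b / 2 ^ i) ↔ r / 2 ^ i = b / 2 ^ i - 1 :=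
        odd_aux _ _ ho
      simp only [h3]
      rfl
    · rw [if_neg ho, if_neg ho, if_neg (fun h => ho h.1), sub_zero]
  rw [sum_congr rfl hk, sum_comm]
  apply sum_congr rfl
  intro i _
  split_ifs
  · rfl
  · simp

theorem grid_sq (hD : S_DY) {m b : ℕ} (hb : b ≤ 2 ^ m) (n : ℕ → ℕ) (α : ℝ) (S : Finset ℕ) :
    (((S.filter (fun k => Int.fract ((n k : ℝ) * α) < (b : ℝ) / 2 ^ m)).card : ℝ) - (b : ℝ) / 2 ^ m * S.card) ^ 2 ≤
      ((m : ℝ) + 1) * ∑ i ∈ range (m + 1), ∑ w ∈ range (2 ^ (m - i)),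
        (∑ k ∈ S, g ((w : ℝ) * 2 ^ i / 2 ^ m) (((w : ℝ) + 1) * 2 ^ i / 2 ^ m) (n k) α) ^ 2 := by
  rw [grid_err hD hb]
  have h1 := sq_sum_le_card_mul_sum_sq (s := range (m + 1)) (f := fun i => if (b / 2 ^ i) % 2 = 1 then
        ∑ k ∈ S, g (((b / 2 ^ i - 1 : ℕ) : ℝ) * 2 ^ i / 2 ^ m) ((((b / 2 ^ i - 1 : ℕ) : ℝ) + 1) * 2 ^ i / 2 ^ m) (n k) α
      else 0)
  rw [card_range] at h1
  push_cast at h1
  refine h1.trans ?_
  apply mul_le_mul_of_nonneg_left _ (by positivity)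
  apply sum_le_sum
  intro i hi
  have him : i ≤ m := Nat.lt_succ_iff.1 (mem_range.1 hi)
  split_ifs with ho
  · have hw : b / 2 ^ i - 1 ∈ range (2 ^ (m - i)) := by
      rw [mem_range]
      have h2 : b / 2 ^ i ≤ 2 ^ (m - i) := by
        apply Nat.div_le_of_le_mul
        rw [← pow_add]
        refine hb.trans (le_of_eq ?_)
        congr 1
        omega
      have h3 : 1 ≤ 2 ^ (m - i) := Nat.one_le_two_pow
      omega
    exact single_le_sum (f := fun w : ℕ => (∑ k ∈ S, g ((w : ℝ) * 2 ^ i / 2 ^ m) (((w : ℝ) + 1) * 2 ^ i / 2 ^ m) (n k) α) ^ 2)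
      (fun w _ => sq_nonneg _) hw
  · rw [zero_pow two_ne_zero]
    exact sum_nonneg fun w _ => sq_nonneg _

variable (rb : List ((ℕ → ℕ) × ℕ))

theorem grid_total (hD : S_DY) (hS : S_SUP) {m : ℕ} (n : ℕ → ℕ) (α : ℝ) (rb : List ((ℕ → ℕ) × ℕ)) (τ : ℕ → List ℤ)
    (hrb : ∀ x ∈ rb, (∀ k ∈ range (2 ^ m), x.1 k < 2 ^ m) ∧ x.2 ≤ 2 ^ m) {b : ℕ} (hb : b ≤ 2 ^ m) :
    ∑ c ∈ (range (2 ^ m)).image τ,
      ((((((range (2 ^ m)).filter (fun k => τ k = c ∧ ∀ x ∈ rb, x.1 k < x.2)).filter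
        (fun k => Int.fract ((n k : ℝ) * α) < (b : ℝ) / 2 ^ m)).card : ℝ)) - (b : ℝ) / 2 ^ m *
        ((range (2 ^ m)).filter (fun k => τ k = c ∧ ∀ x ∈ rb, x.1 k < x.2)).card) ^ 2 ≤
      ((m : ℝ) + 1) ^ (rb.length + 1) * VV m n (rb.map Prod.fst) τ α := by
  refine (sum_le_sum fun c _ => grid_sq hD hb n α _).trans ?_
  rw [← mul_sum, pow_succ', mul_assoc]
  apply mul_le_mul_of_nonneg_left _ (by positivity)
  rw [sum_comm]
  unfold VV
  rw [mul_sum]
  apply sum_le_sum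
  intro i _
  rw [sum_comm, mul_sum]
  apply sum_le_sum
  intro w _
  exact hS m (range (2 ^ m)) (fun k => g ((w : ℝ) * 2 ^ i / 2 ^ m) (((w : ℝ) + 1) * 2 ^ i / 2 ^ m) (n k) α) rb τ hrb

/-- passage from the grid to all `v` -/
theorem real_v {m : ℕ} (S : Finset ℕ) (y : ℕ → ℝ) (hy : ∀ k, y k < 1) {v : ℝ} (hv0 : 0 ≤ v) (hv1 : v ≤ 1) :
    ∃ b b' : ℕ, b ≤ 2 ^ m ∧ b' ≤ 2 ^ m ∧ ∀ S : Finset ℕ,
    (((S.filter (fun k => y k < v)).card : ℝ) - v * S.card) ^ 2 ≤
      3 * ((((S.filter (fun k => y k < (b : ℝ) / 2 ^ m)).card : ℝ) - (b : ℝ) / 2 ^ m * S.card) ^ 2 +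
        (((S.filter (fun k => y k < (b' : ℝ) / 2 ^ m)).card : ℝ) - (b' : ℝ) / 2 ^ m * S.card) ^ 2 +
        ((S.card : ℝ) / 2 ^ m) ^ 2) := by
  have h2m : (0 : ℝ) < 2 ^ m := by positivity
  rcases eq_or_lt_of_le hv1 with rfl | hv1
  · refine ⟨0, 0, by positivity, by positivity, fun S => ?_⟩
    have h1 : S.filter (fun k => y k < 1) = S := filter_true_of_mem fun k _ => hy k
    rw [h1, one_mul, sub_self, zero_pow two_ne_zero]
    positivity
  · set b := ⌊2 ^ m * v⌋₊ with hb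
    have hb1 : (b : ℝ) ≤ 2 ^ m * v := Nat.floor_le (by positivity)
    have hb2 : 2 ^ m * v < (b : ℝ) + 1 := Nat.lt_floor_add_one _
    have hb3 : b < 2 ^ m := by
      rw [hb, Nat.floor_lt (by positivity)]
      push_cast
      nlinarith
    refine ⟨b, b + 1, hb3.le, hb3, fun S => ?_⟩
    have hvl : (b : ℝ) / 2 ^ m ≤ v := by rw [div_le_iff₀ h2m]; linarith
    have hvr : v ≤ ((b + 1 : ℕ) : ℝ) / 2 ^ m := by rw [le_div_iff₀ h2m]; push_cast; linarith
    have hc1 : ((S.filter (fun k => y k < (b : ℝ) / 2 ^ m)).card : ℝ) ≤ ((S.filter (fun k => y k < v)).card : ℝ) := by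
      exact_mod_cast card_le_card (monotone_filter_right S fun k _ hk => lt_of_lt_of_le hk hvl)
    have hc2 : ((S.filter (fun k => y k < v)).card : ℝ) ≤
        ((S.filter (fun k => y k < ((b + 1 : ℕ) : ℝ) / 2 ^ m)).card : ℝ) := by
      exact_mod_cast card_le_card (monotone_filter_right S fun k _ hk => lt_of_lt_of_le hk hvr)
    set A := ((S.filter (fun k => y k < (b : ℝ) / 2 ^ m)).card : ℝ)
    set B := ((S.filter (fun k => y k < ((b + 1 : ℕ) : ℝ) / 2 ^ m)).card : ℝ)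
    set X := ((S.filter (fun k => y k < v)).card : ℝ)
    set s := (S.card : ℝ) with hs
    have hs0 : 0 ≤ s := by positivity
    have hw : ((b + 1 : ℕ) : ℝ) / 2 ^ m = (b : ℝ) / 2 ^ m + 1 / 2 ^ m := by push_cast; ring
    rw [hw] at hvr ⊢
    set p := (b : ℝ) / 2 ^ m
    set e := (1 : ℝ) / 2 ^ m with he
    have hse : s / 2 ^ m = s * e := by rw [he]; ring
    rw [hse]
    have he0 : 0 < e := by positivity
    have h1 : X - v * s ≤ (B - (p + e) * s) + s * e := by nlinarith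
    have h2 : (A - p * s) - s * e ≤ X - v * s := by nlinarith
    have h3 : |X - v * s| ≤ |A - p * s| + |B - (p + e) * s| + s * e := by
      rw [abs_le]
      have ha := neg_abs_le (A - p * s)
      have hb := le_abs_self (B - (p + e) * s)
      have ha' := abs_nonneg (A - p * s)
      have hb' := abs_nonneg (B - (p + e) * s)
      constructor <;> nlinarith
    have h4 : (X - v * s) ^ 2 ≤ (|A - p * s| + |B - (p + e) * s| + s * e) ^ 2 := by
      rw [← sq_abs (X - v * s)]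
      exact pow_le_pow_left₀ (abs_nonneg _) h3 2
    refine h4.trans ?_
    rw [← sq_abs (A - p * s), ← sq_abs (B - (p + e) * s)]
    nlinarith [sq_nonneg (|A - p * s| - |B - (p + e) * s|), sq_nonneg (|A - p * s| - s * e),
      sq_nonneg (|B - (p + e) * s| - s * e)]

theorem met (hD : S_DY) (hS : S_SUP) (hE : S_EXP) : S_MET := by
  intro n hn hn0 hc L rs τ hL hr
  have h1 := bc (fun m α => VV m n (rs m) (τ m) α) (fun m => 2 ^ m * ((m : ℝ) + 2) ^ (L + 4))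
    (fun m => 3 / ((m : ℝ) + 1) ^ 2) (fun m => by positivity) (fun m x => VV_nonneg _ _ _ _ _)
    (fun m => VV_measurable _ _ _ _) (fun m => VV_bound _ _ _ _) (fun m x => VV_periodic _ _ _ _ _)
    (fun m => by positivity) (by
      have h0 : Summable (fun m : ℕ => 1 / ((m : ℝ) + 1) ^ 2) := by
        have := (summable_nat_add_iff 1).2 (Real.summable_one_div_nat_pow.2 (by norm_num : 1 < 2))
        simpa using this
      have := h0.mul_left 3
      refine this.congr fun m => by ring) (fun m => by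
      refine (VV_mean hE n hn hn0 hc m (rs m) (τ m)).trans ?_
      rw [hL m]
      have hm : (0 : ℝ) < (m : ℝ) + 1 := by positivity
      rw [div_mul_eq_mul_div, le_div_iff₀ (by positivity)]
      have h2 : ((m : ℝ) + 1) ^ (L + 1) * ((m : ℝ) + 1) ^ 2 ≤ ((m : ℝ) + 2) ^ (L + 4) := by
        rw [← pow_add]
        calc ((m : ℝ) + 1) ^ (L + 1 + 2) ≤ ((m : ℝ) + 2) ^ (L + 1 + 2) := pow_le_pow_left₀ hm.le (by linarith) _
          _ ≤ ((m : ℝ) + 2) ^ (L + 4) := pow_le_pow_right₀ (by linarith) (by omega)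
      calc 3 * ((m : ℝ) + 1) ^ (L + 1) * 2 ^ m * ((m : ℝ) + 1) ^ 2
          = 3 * (2 ^ m * (((m : ℝ) + 1) ^ (L + 1) * ((m : ℝ) + 1) ^ 2)) := by ring
        _ ≤ 3 * (2 ^ m * ((m : ℝ) + 2) ^ (L + 4)) := by gcongr)
  filter_upwards [h1] with α hα
  filter_upwards [hα, eventually_ge_atTop 1] with m hm hm1
  intro rb hrb hb v hv0 hv1
  have hlen : rb.length = L := by
    have := congrArg List.length hrb
    rw [List.length_map, hL m] at this
    exact this
  have hrb' : ∀ x ∈ rb, (∀ k ∈ range (2 ^ m), x.1 k < 2 ^ m) ∧ x.2 ≤ 2 ^ m := by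
    intro x hx
    refine ⟨fun k hk => hr m x.1 ?_ k (mem_range.1 hk), hb x hx⟩
    rw [← hrb]
    exact List.mem_map_of_mem hx
  obtain ⟨b, b', hb1, hb2, hv⟩ := real_v (m := m) ∅ (fun k => Int.fract ((n k : ℝ) * α)) (fun k => Int.fract_lt_one _) hv0 hv1
  have hm1' : (1 : ℝ) ≤ m := by exact_mod_cast hm1
  have hT : ∀ b : ℕ, b ≤ 2 ^ m → ∑ c ∈ (range (2 ^ m)).image (τ m),
      ((((((range (2 ^ m)).filter (fun k => τ m k = c ∧ ∀ x ∈ rb, x.1 k < x.2)).filter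
        (fun k => Int.fract ((n k : ℝ) * α) < (b : ℝ) / 2 ^ m)).card : ℝ)) - (b : ℝ) / 2 ^ m *
        ((range (2 ^ m)).filter (fun k => τ m k = c ∧ ∀ x ∈ rb, x.1 k < x.2)).card) ^ 2 ≤
      2 ^ m * ((m : ℝ) + 2) ^ (2 * L + 5) := by
    intro b hb
    refine (grid_total hD hS n α rb (τ m) hrb' hb).trans ?_
    rw [hlen, hrb]
    calc ((m : ℝ) + 1) ^ (L + 1) * VV m n (rs m) (τ m) α
        ≤ ((m : ℝ) + 2) ^ (L + 1) * (2 ^ m * ((m : ℝ) + 2) ^ (L + 4)) := by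
          apply mul_le_mul (pow_le_pow_left₀ (by positivity) (by linarith) _) hm (VV_nonneg _ _ _ _ _) (by positivity)
      _ = 2 ^ m * ((m : ℝ) + 2) ^ (2 * L + 5) := by rw [show 2 * L + 5 = (L + 1) + (L + 4) by ring, pow_add]; ring
  have hcard : ∑ c ∈ (range (2 ^ m)).image (τ m),
      (((((range (2 ^ m)).filter (fun k => τ m k = c ∧ ∀ x ∈ rb, x.1 k < x.2)).card : ℝ)) / 2 ^ m) ^ 2 ≤ 1 := by
    have h2m : (0 : ℝ) < 2 ^ m := by positivity
    have hle : ∀ c, ((((range (2 ^ m)).filter (fun k => τ m k = c ∧ ∀ x ∈ rb, x.1 k < x.2)).card : ℝ)) ≤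
        (((range (2 ^ m)).filter (fun k => τ m k = c)).card : ℝ) := by
      intro c
      have h11 : ((range (2 ^ m)).filter (fun k => τ m k = c ∧ ∀ x ∈ rb, x.1 k < x.2)) ⊆
          ((range (2 ^ m)).filter (fun k => τ m k = c)) := by
        intro k hk
        rw [mem_filter] at hk ⊢
        exact ⟨hk.1, hk.2.1⟩
      exact_mod_cast card_le_card h11
    have hsum : ∑ c ∈ (range (2 ^ m)).image (τ m), (((range (2 ^ m)).filter (fun k => τ m k = c)).card : ℝ) = 2 ^ m := by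
      have := card_eq_sum_card_image (τ m) (range (2 ^ m))
      rw [card_range] at this
      exact_mod_cast this.symm
    have hone : ∀ c ∈ (range (2 ^ m)).image (τ m),
        (((((range (2 ^ m)).filter (fun k => τ m k = c ∧ ∀ x ∈ rb, x.1 k < x.2)).card : ℝ)) / 2 ^ m) ^ 2 ≤
        (((range (2 ^ m)).filter (fun k => τ m k = c)).card : ℝ) / 2 ^ m := by
      intro c _
      have h5 : ((((range (2 ^ m)).filter (fun k => τ m k = c ∧ ∀ x ∈ rb, x.1 k < x.2)).card : ℝ)) / 2 ^ m ≤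
          (((range (2 ^ m)).filter (fun k => τ m k = c)).card : ℝ) / 2 ^ m :=
        div_le_div_of_nonneg_right (hle c) h2m.le
      have h6 : (((range (2 ^ m)).filter (fun k => τ m k = c)).card : ℝ) / 2 ^ m ≤ 1 := by
        rw [div_le_one h2m]
        have := card_filter_le (range (2 ^ m)) (fun k => τ m k = c)
        rw [card_range] at this
        exact_mod_cast this
      have h7 : 0 ≤ ((((range (2 ^ m)).filter (fun k => τ m k = c ∧ ∀ x ∈ rb, x.1 k < x.2)).card : ℝ)) / 2 ^ m := by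
        positivity
      nlinarith
    refine (sum_le_sum hone).trans (le_of_eq ?_)
    rw [← sum_div, hsum, div_self h2m.ne']
  have hmain : ∀ c ∈ (range (2 ^ m)).image (τ m), _ := fun c _ =>
    hv ((range (2 ^ m)).filter (fun k => τ m k = c ∧ ∀ x ∈ rb, x.1 k < x.2))
  simp only [filter_filter] at hT hmain
  refine (sum_le_sum hmain).trans ?_
  rw [← mul_sum, sum_add_distrib, sum_add_distrib]
  have hA := hT b hb1
  have hB := hT b' hb2
  have hpow : 27 * ((m : ℝ) + 2) ^ (2 * L + 5) ≤ ((m : ℝ) + 2) ^ (2 * L + 8) := by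
    have h12 : ((m : ℝ) + 2) ^ (2 * L + 8) = ((m : ℝ) + 2) ^ 3 * ((m : ℝ) + 2) ^ (2 * L + 5) := by
      rw [← pow_add]
      congr 1
      omega
    rw [h12]
    apply mul_le_mul_of_nonneg_right _ (by positivity)
    have : (3 : ℝ) ^ 3 ≤ ((m : ℝ) + 2) ^ 3 := pow_le_pow_left₀ (by norm_num) (by linarith) 3
    linarith
  have hone : (1 : ℝ) ≤ 2 ^ m * ((m : ℝ) + 2) ^ (2 * L + 5) := by
    have h8 : (1 : ℝ) ≤ 2 ^ m := one_le_pow₀ (by norm_num)
    have h9 : (1 : ℝ) ≤ ((m : ℝ) + 2) ^ (2 * L + 5) := one_le_pow₀ (by linarith)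
    nlinarith
  calc _ ≤ 3 * (2 ^ m * ((m : ℝ) + 2) ^ (2 * L + 5) + 2 ^ m * ((m : ℝ) + 2) ^ (2 * L + 5) +
        2 ^ m * ((m : ℝ) + 2) ^ (2 * L + 5)) := by
        apply mul_le_mul_of_nonneg_left _ (by norm_num)
        have := hcard.trans hone
        linarith
    _ = 2 ^ m * (9 * ((m : ℝ) + 2) ^ (2 * L + 5)) := by ring
    _ ≤ 2 ^ m * ((m : ℝ) + 2) ^ (2 * L + 8) := by
        apply mul_le_mul_of_nonneg_left _ (by positivity)
        have : (0 : ℝ) ≤ ((m : ℝ) + 2) ^ (2 * L + 5) := by positivity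
        linarith

end Pool.Agent.H90.MR
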