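import Pool.Agent.H90.MR.StmFam

/-! # Project MR-FAM: families of sequences -/

set_option autoImplicit false

namespace Pool.Agent.H90.MR

open Finset MeasureTheory Filter

open Classical in
/-- the rank function of a real sequence -/
noncomputable def rk (m : ℕ) (z : ℕ → ℝ) (k : ℕ) : ℕ := ((range (2 ^ m)).filter (fun l => z l < z k)).card

open Classical in
/-- the threshold -/
noncomputable def th (m : ℕ) (z : ℕ → ℝ) (t : ℝ) : ℕ := ((range (2 ^ m)).filter (fun l => z l ≤ t)).card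

theorem rk_lt {m : ℕ} (z : ℕ → ℝ) {k : ℕ} (hk : k < 2 ^ m) : rk m z k < 2 ^ m := by
  classical
  unfold rk
  have h : (range (2 ^ m)).filter (fun l => z l < z k) ⊂ range (2 ^ m) := by
    rw [filter_ssubset]
    exact ⟨k, mem_range.2 hk, lt_irrefl _⟩
  have := card_lt_card h
  rwa [card_range] at this

theorem th_le (m : ℕ) (z : ℕ → ℝ) (t : ℝ) : th m z t ≤ 2 ^ m := by
  classical
  unfold th
  exact (card_filter_le _ _).trans (card_range _).le

theorem rk_iff {m : ℕ} (z : ℕ → ℝ) {k : ℕ} (hk : k < 2 ^ m) (t : ℝ) : rk m z k < th m z t ↔ z k ≤ t := by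
  classical
  unfold rk th
  constructor
  · intro h
    by_contra hcon
    push Not at hcon
    have h1 : (range (2 ^ m)).filter (fun l => z l ≤ t) ⊆ (range (2 ^ m)).filter (fun l => z l < z k) := by
      intro l hl
      rw [mem_filter] at hl ⊢
      exact ⟨hl.1, hl.2.trans_lt hcon⟩
    exact absurd (card_le_card h1) (by omega)
  · intro h
    apply card_lt_card
    rw [Finset.ssubset_iff_of_subset]
    · exact ⟨k, mem_filter.2 ⟨mem_range.2 hk, h⟩, fun h' => lt_irrefl _ (mem_filter.1 h').2⟩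
    · intro l hl
      rw [mem_filter] at hl ⊢
      exact ⟨hl.1, (hl.2.trans_le h).le⟩

theorem metf (hD : S_DY) (hS : S_SUP) (hE : S_EXPG) (hT' : S_TAU) : S_METF := by
  classical
  intro G y
  set n : ℕ → ℕ := fun k => k + 1 with hn
  set τ : ℕ → List ℤ := fun _ => [] with hτ
  set rs : ℕ → ℕ → List (ℕ → ℕ) := fun m u => [fun k => k, rk m (y m u)] with hrs
  have h1 := bc (fun m α => ∑ u ∈ range (G m), VV m n (rs m u) τ α) (fun m => ((G m : ℝ) + 1) * (2 ^ m * ((m : ℝ) + 2) ^ 7))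
    (fun m => 3 / ((m : ℝ) + 1) ^ 2) (fun m => by positivity) (fun m x => sum_nonneg fun u _ => VV_nonneg _ _ _ _ _)
    (fun m => Finset.measurable_sum _ fun u _ => VV_measurable _ _ _ _)
    (fun m => by
      choose B hB using fun u => VV_bound m n (rs m u) τ
      exact ⟨∑ u ∈ range (G m), B u, fun α => sum_le_sum fun u _ => hB u α⟩)
    (fun m x => by simp only [VV_periodic])
    (fun m => by positivity) (by
      have h0 : Summable (fun m : ℕ => 1 / ((m : ℝ) + 1) ^ 2) := by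
        have := (summable_nat_add_iff 1).2 (Real.summable_one_div_nat_pow.2 (by norm_num : 1 < 2))
        simpa using this
      have := h0.mul_left 3
      refine this.congr fun m => by ring) (fun m => by
      have hii : ∀ u ∈ range (G m), IntervalIntegrable (VV m n (rs m u) τ) volume 0 1 := by
        intro u _
        obtain ⟨B, hB⟩ := VV_bound m n (rs m u) τ
        refine int_of_bdd (B := B) (VV_measurable _ _ _ _) (fun x => ?_)
        rw [abs_of_nonneg (VV_nonneg _ _ _ _ _)]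
        exact hB x
      rw [intervalIntegral.integral_finsetSum hii]
      have hm : (0 : ℝ) < (m : ℝ) + 1 := by positivity
      have h3 : ∀ u ∈ range (G m), ∫ x in (0 : ℝ)..1, VV m n (rs m u) τ x ≤ 3 * ((m : ℝ) + 1) ^ 4 * 2 ^ m := by
        intro u _
        exact VV_meanG hE hT' m (rs m u) τ
      refine (sum_le_sum h3).trans ?_
      rw [sum_const, card_range, nsmul_eq_mul, div_mul_eq_mul_div, le_div_iff₀ (by positivity)]
      have h2 : ((m : ℝ) + 1) ^ 4 * ((m : ℝ) + 1) ^ 2 ≤ ((m : ℝ) + 2) ^ 7 := by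
        rw [← pow_add]
        calc ((m : ℝ) + 1) ^ (4 + 2) ≤ ((m : ℝ) + 2) ^ (4 + 2) := pow_le_pow_left₀ hm.le (by linarith) _
          _ ≤ ((m : ℝ) + 2) ^ 7 := pow_le_pow_right₀ (by linarith) (by omega)
      calc (G m : ℝ) * (3 * ((m : ℝ) + 1) ^ 4 * 2 ^ m) * ((m : ℝ) + 1) ^ 2
          = 3 * ((G m : ℝ) * (2 ^ m * (((m : ℝ) + 1) ^ 4 * ((m : ℝ) + 1) ^ 2))) := by ring
        _ ≤ 3 * (((G m : ℝ) + 1) * (2 ^ m * ((m : ℝ) + 2) ^ 7)) := by
          gcongr
          linarith)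
  filter_upwards [h1] with α hα
  filter_upwards [hα, eventually_ge_atTop 1] with m hm hm1
  intro u hu K hK t v hv0 hv1
  set rb : List ((ℕ → ℕ) × ℕ) := [((fun k => k), K), (rk m (y m u), th m (y m u) t)] with hrb
  have hrb1 : rb.map Prod.fst = rs m u := by simp [hrb, hrs]
  have hlen : rb.length = 2 := by simp [hrb]
  have hrb' : ∀ x ∈ rb, (∀ k ∈ range (2 ^ m), x.1 k < 2 ^ m) ∧ x.2 ≤ 2 ^ m := by
    intro x hx
    simp only [hrb, List.mem_cons, List.not_mem_nil, or_false] at hx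
    rcases hx with rfl | rfl
    · exact ⟨fun k hk => mem_range.1 hk, hK⟩
    · exact ⟨fun k hk => rk_lt _ (mem_range.1 hk), th_le _ _ _⟩
  obtain ⟨b, b', hb1, hb2, hv⟩ := real_v (m := m) ∅ (fun k => Int.fract ((n k : ℝ) * α)) (fun k => Int.fract_lt_one _) hv0 hv1
  have hm1' : (1 : ℝ) ≤ m := by exact_mod_cast hm1
  have hVu : VV m n (rs m u) τ α ≤ ((G m : ℝ) + 1) * (2 ^ m * ((m : ℝ) + 2) ^ 7) :=
    (single_le_sum (f := fun u => VV m n (rs m u) τ α) (fun u _ => VV_nonneg _ _ _ _ _) (mem_range.2 hu)).trans hm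
  have hone : (range (2 ^ m)).image τ = {[]} := by
    ext c
    simp only [mem_image, mem_range, hτ, mem_singleton]
    constructor
    · rintro ⟨_, _, h⟩
      exact h.symm
    · rintro rfl
      exact ⟨0, by positivity, rfl⟩
  set T : Finset ℕ := (range (2 ^ m)).filter (fun k => τ k = [] ∧ ∀ x ∈ rb, x.1 k < x.2) with hTdef
  have hTe : T = (range K).filter (fun k => y m u k ≤ t) := by
    rw [hTdef]
    ext k
    simp only [mem_filter, mem_range, hτ, hrb, List.forall_mem_cons, List.not_mem_nil, IsEmpty.forall_iff,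
      implies_true, and_true, true_and]
    constructor
    · rintro ⟨h, h', h''⟩
      exact ⟨h', (rk_iff _ h _).1 h''⟩
    · rintro ⟨h, h'⟩
      have h'' : k < 2 ^ m := h.trans_le hK
      exact ⟨h'', h, (rk_iff _ h'' _).2 h'⟩
  set E : ℝ := ((G m : ℝ) + 1) * (2 ^ m * ((m : ℝ) + 2) ^ 10) with hEdef
  have hT : ∀ b : ℕ, b ≤ 2 ^ m → (((T.filter (fun k => Int.fract ((n k : ℝ) * α) < (b : ℝ) / 2 ^ m)).card : ℝ) -
      (b : ℝ) / 2 ^ m * T.card) ^ 2 ≤ E := by
    intro b hb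
    have h2 := grid_total hD hS n α rb τ hrb' hb
    rw [hone, sum_singleton, hlen, hrb1] at h2
    refine h2.trans ?_
    rw [hEdef]
    calc ((m : ℝ) + 1) ^ (2 + 1) * VV m n (rs m u) τ α
        ≤ ((m : ℝ) + 2) ^ 3 * (((G m : ℝ) + 1) * (2 ^ m * ((m : ℝ) + 2) ^ 7)) := by
          apply mul_le_mul (pow_le_pow_left₀ (by positivity) (by linarith) _) hVu (VV_nonneg _ _ _ _ _) (by positivity)
      _ = ((G m : ℝ) + 1) * (2 ^ m * ((m : ℝ) + 2) ^ 10) := by ring
  have hcard : ((T.card : ℝ) / 2 ^ m) ^ 2 ≤ 1 := by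
    have h2m : (0 : ℝ) < 2 ^ m := by positivity
    have h5 : (T.card : ℝ) ≤ 2 ^ m := by
      have := card_filter_le (range (2 ^ m)) (fun k => τ k = [] ∧ ∀ x ∈ rb, x.1 k < x.2)
      rw [card_range] at this
      exact_mod_cast this
    have h6 : (T.card : ℝ) / 2 ^ m ≤ 1 := (div_le_one h2m).2 h5
    have h7 : 0 ≤ (T.card : ℝ) / 2 ^ m := by positivity
    nlinarith
  have hE1 : 1 ≤ E := by
    rw [hEdef]
    have h8 : (1 : ℝ) ≤ 2 ^ m := one_le_pow₀ (by norm_num)
    have h9 : (1 : ℝ) ≤ ((m : ℝ) + 2) ^ 10 := one_le_pow₀ (by linarith)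
    have h10 : (1 : ℝ) ≤ (G m : ℝ) + 1 := by
      have : (0 : ℝ) ≤ G m := by positivity
      linarith
    have h11 : (1 : ℝ) ≤ 2 ^ m * ((m : ℝ) + 2) ^ 10 := one_le_mul_of_one_le_of_one_le h8 h9
    exact one_le_mul_of_one_le_of_one_le h10 h11
  have hmain := hv T
  have hA := hT b hb1
  have hB := hT b' hb2
  have hfin : (((T.filter (fun k => Int.fract ((n k : ℝ) * α) < v)).card : ℝ) - v * T.card) ^ 2 ≤
      ((G m : ℝ) + 1) * 2 ^ m * ((m : ℝ) + 2) ^ 13 := by
    refine hmain.trans ?_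
    have hpow : 27 * ((m : ℝ) + 2) ^ 10 ≤ ((m : ℝ) + 2) ^ 13 := by
      have h12 : ((m : ℝ) + 2) ^ 13 = ((m : ℝ) + 2) ^ 3 * ((m : ℝ) + 2) ^ 10 := by ring
      rw [h12]
      apply mul_le_mul_of_nonneg_right _ (by positivity)
      have : (3 : ℝ) ^ 3 ≤ ((m : ℝ) + 2) ^ 3 := pow_le_pow_left₀ (by norm_num) (by linarith) 3
      linarith
    calc _ ≤ 3 * (E + E + E) := by
          apply mul_le_mul_of_nonneg_left _ (by norm_num)
          have := hcard.trans hE1
          linarith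
      _ = ((G m : ℝ) + 1) * 2 ^ m * (9 * ((m : ℝ) + 2) ^ 10) := by rw [hEdef]; ring
      _ ≤ ((G m : ℝ) + 1) * 2 ^ m * ((m : ℝ) + 2) ^ 13 := by
          apply mul_le_mul_of_nonneg_left _ (by positivity)
          have : (0 : ℝ) ≤ ((m : ℝ) + 2) ^ 10 := by positivity
          linarith
  rw [hTe, filter_filter] at hfin
  exact hfin

end Pool.Agent.H90.MR
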