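import Pool.Agent.H90.MR.Met2
import Pool.Agent.H90.MR.App
import Pool.Agent.H90.MR.StmInt

/-! # Project MR-INT: the metric theorem for all integers -/

set_option autoImplicit false

namespace Pool.Agent.H90.MR

open Finset MeasureTheory Filter

open Classical in
/-- `METG`: the metric theorem for the integers `n = k + 1`. -/
def S_METG : Prop :=
  ∀ (L : ℕ) (rs : ℕ → List (ℕ → ℕ)) (τ : ℕ → ℕ → List ℤ), (∀ m, (rs m).length = L) →
  (∀ m, ∀ r ∈ rs m, ∀ k < 2 ^ m, r k < 2 ^ m) →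
  ∀ᵐ α : ℝ, ∀ᶠ m : ℕ in atTop, ∀ rb : List ((ℕ → ℕ) × ℕ), rb.map Prod.fst = rs m → (∀ x ∈ rb, x.2 ≤ 2 ^ m) →
    ∀ v : ℝ, 0 ≤ v → v ≤ 1 → ∑ c ∈ (range (2 ^ m)).image (τ m),
      ((((range (2 ^ m)).filter (fun k => (τ m k = c ∧ ∀ x ∈ rb, x.1 k < x.2) ∧ Int.fract (((k + 1 : ℕ) : ℝ) * α) < v)).card : ℝ) -
        v * (((range (2 ^ m)).filter (fun k => τ m k = c ∧ ∀ x ∈ rb, x.1 k < x.2)).card : ℝ)) ^ 2 ≤
      2 ^ m * ((m : ℝ) + 2) ^ (2 * L + 9)

theorem VV_meanG (hE : S_EXPG) (hT : S_TAU)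
    (m : ℕ) (rs : List (ℕ → ℕ)) (τ : ℕ → List ℤ) :
    ∫ x in (0 : ℝ)..1, VV m (fun k => k + 1) rs τ x ≤ 3 * ((m : ℝ) + 1) ^ (rs.length + 2) * 2 ^ m := by
  have hint : ∀ i ∈ range (m + 1), ∀ w ∈ range (2 ^ (m - i)), IntervalIntegrable (fun x =>
      QQ m (range (2 ^ m)) (fun k => g ((w : ℝ) * 2 ^ i / 2 ^ m) (((w : ℝ) + 1) * 2 ^ i / 2 ^ m) (k + 1) x) rs τ)
      volume 0 1 := by
    intro i hi w hw
    obtain ⟨h1, h2, h3⟩ := arc_ok (Nat.lt_succ_iff.1 (mem_range.1 hi)) (mem_range.1 hw)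
    obtain ⟨B, hB⟩ := QQ_bound m (range (2 ^ m)) rs τ
    rw [intervalIntegrable_iff_integrableOn_Ioc_of_le zero_le_one]
    refine Integrable.mono' (integrable_const B) (QQ_measurable m (range (2 ^ m))
      (fun k α => g ((w : ℝ) * 2 ^ i / 2 ^ m) (((w : ℝ) + 1) * 2 ^ i / 2 ^ m) (k + 1) α)
      (fun k => g_measurable _ _ _) rs τ).aestronglyMeasurable (ae_of_all _ fun x => ?_)
    rw [Real.norm_eq_abs, abs_of_nonneg (QQ_nonneg _ _ _ _ _)]
    exact hB _ fun k => g_bound h1 h2 h3 _ _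
  unfold VV
  have hint2 : ∀ i ∈ range (m + 1), IntervalIntegrable (fun x => ∑ w ∈ range (2 ^ (m - i)),
      QQ m (range (2 ^ m)) (fun k => g ((w : ℝ) * 2 ^ i / 2 ^ m) (((w : ℝ) + 1) * 2 ^ i / 2 ^ m) (k + 1) x) rs τ)
      volume 0 1 := by
    intro i hi
    obtain ⟨B, hB⟩ := QQ_bound m (range (2 ^ m)) rs τ
    refine int_of_bdd (B := ∑ w ∈ range (2 ^ (m - i)), B) (Finset.measurable_sum _ fun w _ =>
      QQ_measurable m (range (2 ^ m)) (fun k α => g ((w : ℝ) * 2 ^ i / 2 ^ m) (((w : ℝ) + 1) * 2 ^ i / 2 ^ m) (k + 1) α)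
      (fun k => g_measurable _ _ _) rs τ) (fun x => ?_)
    rw [abs_of_nonneg (sum_nonneg fun w _ => QQ_nonneg _ _ _ _ _)]
    apply sum_le_sum
    intro w hw
    obtain ⟨h1, h2, h3⟩ := arc_ok (Nat.lt_succ_iff.1 (mem_range.1 hi)) (mem_range.1 hw)
    exact hB _ fun k => g_bound h1 h2 h3 _ _
  rw [intervalIntegral.integral_finsetSum hint2]
  have h1 : ∀ i ∈ range (m + 1), ∫ x in (0 : ℝ)..1, ∑ w ∈ range (2 ^ (m - i)),
      QQ m (range (2 ^ m)) (fun k => g ((w : ℝ) * 2 ^ i / 2 ^ m) (((w : ℝ) + 1) * 2 ^ i / 2 ^ m) (k + 1) x) rs τ ≤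
      3 * ((m : ℝ) + 1) ^ rs.length * (2 ^ m * ((m : ℝ) + 1)) := by
    intro i hi
    have him : i ≤ m := Nat.lt_succ_iff.1 (mem_range.1 hi)
    rw [intervalIntegral.integral_finsetSum (fun w hw => hint i hi w hw)]
    have h2 : ∀ w ∈ range (2 ^ (m - i)), ∫ x in (0 : ℝ)..1,
        QQ m (range (2 ^ m)) (fun k => g ((w : ℝ) * 2 ^ i / 2 ^ m) (((w : ℝ) + 1) * 2 ^ i / 2 ^ m) (k + 1) x) rs τ ≤
        3 * ((m : ℝ) + 1) ^ rs.length * (2 ^ i * ((m : ℝ) + 1)) := by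
      intro w hw
      obtain ⟨h1, h2, h3⟩ := arc_ok him (mem_range.1 hw)
      refine (hE (fun _ => (w : ℝ) * 2 ^ i / 2 ^ m) (fun _ => ((w : ℝ) + 1) * 2 ^ i / 2 ^ m)
        (fun _ => ⟨h1, h2, h3⟩) m (range (2 ^ m)) rs τ).trans ?_
      apply mul_le_mul_of_nonneg_left _ (by positivity)
      rw [← sum_mul]
      have h2m : (0 : ℝ) < 2 ^ m := by positivity
      have h5 : (((w : ℝ) + 1) * 2 ^ i / 2 ^ m - (w : ℝ) * 2 ^ i / 2 ^ m) = 2 ^ i / 2 ^ m := by ring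
      rw [h5]
      calc (∑ k ∈ range (2 ^ m), ((k + 1).divisors.card : ℝ)) * (2 ^ i / 2 ^ m) ≤
            (2 ^ m * ((m : ℝ) + 1)) * (2 ^ i / 2 ^ m) := mul_le_mul_of_nonneg_right (hT m) (by positivity)
        _ = 2 ^ i * ((m : ℝ) + 1) := by field_simp
    refine (sum_le_sum h2).trans (le_of_eq ?_)
    rw [sum_const, card_range, nsmul_eq_mul]
    push_cast
    have h3 : (2 : ℝ) ^ (m - i) * 2 ^ i = 2 ^ m := by rw [← pow_add]; congr 1; omega
    rw [← h3]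
    ring
  refine (sum_le_sum h1).trans (le_of_eq ?_)
  rw [sum_const, card_range, nsmul_eq_mul]
  push_cast
  ring

theorem metg (hD : S_DY) (hS : S_SUP) (hE : S_EXPG) (hT' : S_TAU) : S_METG := by
  intro L rs τ hL hr
  set n : ℕ → ℕ := fun k => k + 1 with hn
  have h1 := bc (fun m α => VV m n (rs m) (τ m) α) (fun m => 2 ^ m * ((m : ℝ) + 2) ^ (L + 5))
    (fun m => 3 / ((m : ℝ) + 1) ^ 2) (fun m => by positivity) (fun m x => VV_nonneg _ _ _ _ _)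
    (fun m => VV_measurable _ _ _ _) (fun m => VV_bound _ _ _ _) (fun m x => VV_periodic _ _ _ _ _)
    (fun m => by positivity) (by
      have h0 : Summable (fun m : ℕ => 1 / ((m : ℝ) + 1) ^ 2) := by
        have := (summable_nat_add_iff 1).2 (Real.summable_one_div_nat_pow.2 (by norm_num : 1 < 2))
        simpa using this
      have := h0.mul_left 3
      refine this.congr fun m => by ring) (fun m => by
      refine (VV_meanG hE hT' m (rs m) (τ m)).trans ?_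
      rw [hL m]
      have hm : (0 : ℝ) < (m : ℝ) + 1 := by positivity
      rw [div_mul_eq_mul_div, le_div_iff₀ (by positivity)]
      have h2 : ((m : ℝ) + 1) ^ (L + 2) * ((m : ℝ) + 1) ^ 2 ≤ ((m : ℝ) + 2) ^ (L + 5) := by
        rw [← pow_add]
        calc ((m : ℝ) + 1) ^ (L + 2 + 2) ≤ ((m : ℝ) + 2) ^ (L + 2 + 2) := pow_le_pow_left₀ hm.le (by linarith) _
          _ ≤ ((m : ℝ) + 2) ^ (L + 5) := pow_le_pow_right₀ (by linarith) (by omega)
      calc 3 * ((m : ℝ) + 1) ^ (L + 2) * 2 ^ m * ((m : ℝ) + 1) ^ 2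
          = 3 * (2 ^ m * (((m : ℝ) + 1) ^ (L + 2) * ((m : ℝ) + 1) ^ 2)) := by ring
        _ ≤ 3 * (2 ^ m * ((m : ℝ) + 2) ^ (L + 5)) := by gcongr)
  filter_upwards [h1] with α hα
  filter_upwards [hα, eventually_ge_atTop 1] with m hm hm1
  intro rb hrb hb v hv0 hv1
  have hlen : rb.length = L := by
    have := congrArg List.length hrb
    rw [List.length_map, hL m] at this
    exact this
  have hrb' : ∀ x ∈ rb, (∀ k ∈ range (2 ^ m), x.1 k < 2 ^ m) ∧ x.2 ≤ 2 ^ m := by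
    intro x hx
    refine ⟨fun k hk => hr m x.1 ?_ k (mem_range.1 hk), hb x hx⟩
    rw [← hrb]
    exact List.mem_map_of_mem hx
  obtain ⟨b, b', hb1, hb2, hv⟩ := real_v (m := m) ∅ (fun k => Int.fract ((n k : ℝ) * α)) (fun k => Int.fract_lt_one _) hv0 hv1
  have hm1' : (1 : ℝ) ≤ m := by exact_mod_cast hm1
  have hT : ∀ b : ℕ, b ≤ 2 ^ m → ∑ c ∈ (range (2 ^ m)).image (τ m),
      ((((((range (2 ^ m)).filter (fun k => τ m k = c ∧ ∀ x ∈ rb, x.1 k < x.2)).filter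
        (fun k => Int.fract ((n k : ℝ) * α) < (b : ℝ) / 2 ^ m)).card : ℝ)) - (b : ℝ) / 2 ^ m *
        ((range (2 ^ m)).filter (fun k => τ m k = c ∧ ∀ x ∈ rb, x.1 k < x.2)).card) ^ 2 ≤
      2 ^ m * ((m : ℝ) + 2) ^ (2 * L + 6) := by
    intro b hb
    refine (grid_total hD hS n α rb (τ m) hrb' hb).trans ?_
    rw [hlen, hrb]
    calc ((m : ℝ) + 1) ^ (L + 1) * VV m n (rs m) (τ m) α
        ≤ ((m : ℝ) + 2) ^ (L + 1) * (2 ^ m * ((m : ℝ) + 2) ^ (L + 5)) := by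
          apply mul_le_mul (pow_le_pow_left₀ (by positivity) (by linarith) _) hm (VV_nonneg _ _ _ _ _) (by positivity)
      _ = 2 ^ m * ((m : ℝ) + 2) ^ (2 * L + 6) := by rw [show 2 * L + 6 = (L + 1) + (L + 5) by ring, pow_add]; ring
  have hcard : ∑ c ∈ (range (2 ^ m)).image (τ m),
      (((((range (2 ^ m)).filter (fun k => τ m k = c ∧ ∀ x ∈ rb, x.1 k < x.2)).card : ℝ)) / 2 ^ m) ^ 2 ≤ 1 := by
    have h2m : (0 : ℝ) < 2 ^ m := by positivity
    have hle : ∀ c, ((((range (2 ^ m)).filter (fun k => τ m k = c ∧ ∀ x ∈ rb, x.1 k < x.2)).card : ℝ)) ≤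
        (((range (2 ^ m)).filter (fun k => τ m k = c)).card : ℝ) := by
      intro c
      have h11 : ((range (2 ^ m)).filter (fun k => τ m k = c ∧ ∀ x ∈ rb, x.1 k < x.2)) ⊆
          ((range (2 ^ m)).filter (fun k => τ m k = c)) := by
        intro k hk
        rw [mem_filter] at hk ⊢
        exact ⟨hk.1, hk.2.1⟩
      exact_mod_cast card_le_card h11
    have hsum : ∑ c ∈ (range (2 ^ m)).image (τ m), (((range (2 ^ m)).filter (fun k => τ m k = c)).card : ℝ) = 2 ^ m := by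
      have := card_eq_sum_card_image (τ m) (range (2 ^ m))
      rw [card_range] at this
      exact_mod_cast this.symm
    have hone : ∀ c ∈ (range (2 ^ m)).image (τ m),
        (((((range (2 ^ m)).filter (fun k => τ m k = c ∧ ∀ x ∈ rb, x.1 k < x.2)).card : ℝ)) / 2 ^ m) ^ 2 ≤
        (((range (2 ^ m)).filter (fun k => τ m k = c)).card : ℝ) / 2 ^ m := by
      intro c _
      have h5 : ((((range (2 ^ m)).filter (fun k => τ m k = c ∧ ∀ x ∈ rb, x.1 k < x.2)).card : ℝ)) / 2 ^ m ≤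
          (((range (2 ^ m)).filter (fun k => τ m k = c)).card : ℝ) / 2 ^ m :=
        div_le_div_of_nonneg_right (hle c) h2m.le
      have h6 : (((range (2 ^ m)).filter (fun k => τ m k = c)).card : ℝ) / 2 ^ m ≤ 1 := by
        rw [div_le_one h2m]
        have := card_filter_le (range (2 ^ m)) (fun k => τ m k = c)
        rw [card_range] at this
        exact_mod_cast this
      have h7 : 0 ≤ ((((range (2 ^ m)).filter (fun k => τ m k = c ∧ ∀ x ∈ rb, x.1 k < x.2)).card : ℝ)) / 2 ^ m := by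
        positivity
      nlinarith
    refine (sum_le_sum hone).trans (le_of_eq ?_)
    rw [← sum_div, hsum, div_self h2m.ne']
  have hmain : ∀ c ∈ (range (2 ^ m)).image (τ m), _ := fun c _ =>
    hv ((range (2 ^ m)).filter (fun k => τ m k = c ∧ ∀ x ∈ rb, x.1 k < x.2))
  simp only [filter_filter] at hT hmain
  refine (sum_le_sum hmain).trans ?_
  rw [← mul_sum, sum_add_distrib, sum_add_distrib]
  have hA := hT b hb1
  have hB := hT b' hb2
  have hpow : 27 * ((m : ℝ) + 2) ^ (2 * L + 6) ≤ ((m : ℝ) + 2) ^ (2 * L + 9) := by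
    have h12 : ((m : ℝ) + 2) ^ (2 * L + 9) = ((m : ℝ) + 2) ^ 3 * ((m : ℝ) + 2) ^ (2 * L + 6) := by
      rw [← pow_add]
      congr 1
      omega
    rw [h12]
    apply mul_le_mul_of_nonneg_right _ (by positivity)
    have : (3 : ℝ) ^ 3 ≤ ((m : ℝ) + 2) ^ 3 := pow_le_pow_left₀ (by norm_num) (by linarith) 3
    linarith
  have hone : (1 : ℝ) ≤ 2 ^ m * ((m : ℝ) + 2) ^ (2 * L + 6) := by
    have h8 : (1 : ℝ) ≤ 2 ^ m := one_le_pow₀ (by norm_num)
    have h9 : (1 : ℝ) ≤ ((m : ℝ) + 2) ^ (2 * L + 6) := one_le_pow₀ (by linarith)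
    nlinarith
  calc _ ≤ 3 * (2 ^ m * ((m : ℝ) + 2) ^ (2 * L + 6) + 2 ^ m * ((m : ℝ) + 2) ^ (2 * L + 6) +
        2 ^ m * ((m : ℝ) + 2) ^ (2 * L + 6)) := by
        apply mul_le_mul_of_nonneg_left _ (by norm_num)
        have := hcard.trans hone
        linarith
    _ = 2 ^ m * (9 * ((m : ℝ) + 2) ^ (2 * L + 6)) := by ring
    _ ≤ 2 ^ m * ((m : ℝ) + 2) ^ (2 * L + 9) := by
        apply mul_le_mul_of_nonneg_left _ (by positivity)
        have : (0 : ℝ) ≤ ((m : ℝ) + 2) ^ (2 * L + 6) := by positivity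
        linarith

open Classical in
/-- all `K` -/
theorem arcsg (hM : S_METG)
    (L : ℕ) (rs : ℕ → List (ℕ → ℕ)) (τ : ℕ → List ℤ) (hL : ∀ m, (rs m).length = L)
    (hr : ∀ m, ∀ r ∈ rs m, ∀ k < 2 ^ m, r k < 2 ^ m) :
    ∀ᵐ α : ℝ, ∃ K₀ : ℕ, ∀ K : ℕ, K₀ ≤ K → ∀ rb : List ((ℕ → ℕ) × ℕ), rb.map Prod.fst = rs (Nat.clog 2 K) →
      (∀ x ∈ rb, x.2 ≤ 2 ^ (Nat.clog 2 K)) → ∀ v : ℝ, 0 ≤ v → v ≤ 1 → ∀ A : Finset (List ℤ),
      ∑ c ∈ A, ((((range K).filter (fun k => (τ k = c ∧ ∀ x ∈ rb, x.1 k < x.2) ∧ Int.fract (((k + 1 : ℕ) : ℝ) * α) < v)).card : ℝ) -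
        v * (((range K).filter (fun k => τ k = c ∧ ∀ x ∈ rb, x.1 k < x.2)).card : ℝ)) ^ 2 ≤
      K * Real.log K ^ (2 * L + 12) := by
  have h1 := hM (L + 1) (fun m => (fun k => k) :: rs m) (fun _ => τ) (fun m => by simp [hL m])
    (fun m r hr' k hk => by
      rcases List.mem_cons.1 hr' with rfl | hr'
      · exact hk
      · exact hr m r hr' k hk)
  filter_upwards [h1] with α hα
  have h2 := (tendsto_clog.eventually hα).and ((pow_log (2 * (L + 1) + 9) 2).and (eventually_ge_atTop 1))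
  obtain ⟨K₀, hK₀⟩ := eventually_atTop.1 h2
  refine ⟨K₀, fun K hK rb hrb hb v hv0 hv1 A => ?_⟩
  obtain ⟨h3, h4, h5⟩ := hK₀ K hK
  obtain ⟨h6, h7⟩ := clog_facts h5
  have h8 := h3 (((fun k => k), K) :: rb) (by simp [hrb]) (by
    intro x hx
    rcases List.mem_cons.1 hx with rfl | hx
    · exact h6
    · exact hb x hx) v hv0 hv1
  have e1 : ∀ c, ((range K).filter (fun k => (τ k = c ∧ ∀ x ∈ rb, x.1 k < x.2) ∧ Int.fract (((k + 1 : ℕ) : ℝ) * α) < v)) =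
      ((range (2 ^ Nat.clog 2 K)).filter (fun k => (τ k = c ∧ ∀ x ∈ ((fun k => k), K) :: rb, x.1 k < x.2) ∧
        Int.fract (((k + 1 : ℕ) : ℝ) * α) < v)) := by
    intro c
    ext k
    simp only [mem_filter, mem_range, List.forall_mem_cons]
    constructor
    · rintro ⟨h, ⟨h', h''⟩, h'''⟩
      exact ⟨h.trans_le h6, ⟨h', h, h''⟩, h'''⟩
    · rintro ⟨_, ⟨h', h, h''⟩, h'''⟩
      exact ⟨h, ⟨h', h''⟩, h'''⟩
  have e2 : ∀ c, ((range K).filter (fun k => τ k = c ∧ ∀ x ∈ rb, x.1 k < x.2)) =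
      ((range (2 ^ Nat.clog 2 K)).filter (fun k => τ k = c ∧ ∀ x ∈ ((fun k => k), K) :: rb, x.1 k < x.2)) := by
    intro c
    ext k
    simp only [mem_filter, mem_range, List.forall_mem_cons]
    constructor
    · rintro ⟨h, h', h''⟩
      exact ⟨h.trans_le h6, h', h, h''⟩
    · rintro ⟨_, h', h, h''⟩
      exact ⟨h, h', h''⟩
  simp only [e1, e2]
  set F : List ℤ → ℝ := fun c =>
    ((((range (2 ^ Nat.clog 2 K)).filter (fun k => (τ k = c ∧ ∀ x ∈ ((fun k => k), K) :: rb, x.1 k < x.2) ∧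
        Int.fract (((k + 1 : ℕ) : ℝ) * α) < v)).card : ℝ) -
        v * (((range (2 ^ Nat.clog 2 K)).filter (fun k => τ k = c ∧ ∀ x ∈ ((fun k => k), K) :: rb, x.1 k < x.2)).card : ℝ)) ^ 2 with hF
  have hF0 : ∀ c, 0 ≤ F c := fun c => sq_nonneg _
  have hFz : ∀ c ∉ (range (2 ^ Nat.clog 2 K)).image τ, F c = 0 := by
    intro c hc'
    have e3 : ((range (2 ^ Nat.clog 2 K)).filter (fun k => τ k = c ∧ ∀ x ∈ ((fun k => k), K) :: rb, x.1 k < x.2)) = ∅ := by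
      apply filter_eq_empty_iff.2
      rintro k hk ⟨h, _⟩
      exact hc' (mem_image.2 ⟨k, hk, h⟩)
    have e4 : ((range (2 ^ Nat.clog 2 K)).filter (fun k => (τ k = c ∧ ∀ x ∈ ((fun k => k), K) :: rb, x.1 k < x.2) ∧
        Int.fract (((k + 1 : ℕ) : ℝ) * α) < v)) = ∅ := by
      apply filter_eq_empty_iff.2
      rintro k hk ⟨⟨h, _⟩, _⟩
      exact hc' (mem_image.2 ⟨k, hk, h⟩)
    simp only [hF, e3, e4]
    simp
  have h9 : ∑ c ∈ A, F c ≤ ∑ c ∈ (range (2 ^ Nat.clog 2 K)).image τ, F c := by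
    calc ∑ c ∈ A, F c ≤ ∑ c ∈ A ∪ (range (2 ^ Nat.clog 2 K)).image τ, F c :=
          sum_le_sum_of_subset_of_nonneg subset_union_left fun c _ _ => hF0 c
      _ = ∑ c ∈ (range (2 ^ Nat.clog 2 K)).image τ, F c :=
          (sum_subset subset_union_right fun c _ h => hFz c h).symm
  refine h9.trans (h8.trans ?_)
  have h10 : (2 : ℝ) ^ Nat.clog 2 K ≤ 2 * K := by exact_mod_cast h7
  calc (2 : ℝ) ^ Nat.clog 2 K * ((Nat.clog 2 K : ℝ) + 2) ^ (2 * (L + 1) + 9)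
      ≤ (2 * K) * ((Nat.clog 2 K : ℝ) + 2) ^ (2 * (L + 1) + 9) := by gcongr
    _ = K * (2 * ((Nat.clog 2 K : ℝ) + 2) ^ (2 * (L + 1) + 9)) := by ring
    _ ≤ K * Real.log K ^ (2 * (L + 1) + 9 + 1) := by gcongr
    _ = K * Real.log K ^ (2 * L + 12) := by ring_nf

end Pool.Agent.H90.MR
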