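import Pool.Agent.H90.MR.StmReal
import Pool.Agent.H40.MR.Levy

/-! # Project MR-REAL (helper90): real centres and real lengths (assembly) -/

set_option autoImplicit false

namespace Pool.Agent.H90.MR

open Finset MeasureTheory Filter

/-- what MOB says for one α -/
def MobA (α : ℝ) : Prop := ∀ q : ℕ, 1 ≤ q → ∃ N₀ : ℕ, ∀ N : ℕ, N₀ ≤ N → ∀ h ≤ N, ∀ t v : ℝ, 0 ≤ v → v ≤ 1 →
  v * (below Set.univ N h (t - 16 * (N : ℝ) ^ (1 / (q : ℝ)))).card - (N : ℝ) ^ (1 - 1 / (4 * (q : ℝ))) ≤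
    (below (arcSet α v) N h t).card ∧
  ((below (arcSet α v) N h t).card : ℝ) ≤
    v * (below Set.univ N h (t + 16 * (N : ℝ) ^ (1 / (q : ℝ)))).card + (N : ℝ) ^ (1 - 1 / (4 * (q : ℝ)))

/-- The length of the set of the `x` in `[X, 2X]` with `⌊x⌋` in `S` and `mobReal H x / √(H / ζ(2)) ≤ t`. -/
noncomputable def lengthBelow (S : Set ℕ) (H X t : ℝ) : ℝ :=
  (volume {x : ℝ | x ∈ Set.Icc X (2 * X) ∧ ⌊x⌋₊ ∈ S ∧ mobReal H x / √(H / (Real.pi ^ 2 / 6)) ≤ t}).toReal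

/-- The length of the set of the `x` in `[X, 2X]` with `⌊x⌋` in `S`. -/
noncomputable def lengthAll (S : Set ℕ) (X : ℝ) : ℝ := (volume {x : ℝ | x ∈ Set.Icc X (2 * X) ∧ ⌊x⌋₊ ∈ S}).toReal

lemma belowMono (S : Set ℕ) (N h : ℕ) {t t' : ℝ} (ht : t ≤ t') : (below S N h t).card ≤ (below S N h t').card := by
  apply card_le_card
  unfold below
  intro n hn
  simp only [mem_filter] at hn ⊢
  exact ⟨hn.1, hn.2.1, hn.2.2.trans ht⟩

lemma volume_mono_toReal {A B : Set ℝ} {X : ℝ} (h : A ⊆ B) (hB : B ⊆ Set.Icc X (2 * X)) :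
    (volume A).toReal ≤ (volume B).toReal := by
  apply ENNReal.toReal_mono _ (measure_mono h)
  refine ne_top_of_le_ne_top ?_ (measure_mono hB)
  rw [Real.volume_Icc]
  exact ENNReal.ofReal_ne_top

lemma vol_gen (hV : S_VOL) (T : Set ℕ) {X : ℝ} (hX : 1 ≤ X) (F : Finset ℕ)
    (hF : ∀ n, n ∈ F ↔ n ∈ Ioc ⌊X⌋₊ (2 * ⌊X⌋₊) ∧ n ∈ T) :
    |(volume {x : ℝ | x ∈ Set.Icc X (2 * X) ∧ ⌊x⌋₊ ∈ T}).toReal - (F.card : ℝ)| ≤ 3 := by
  classical
  have h1 := hV T X hX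
  have h2 : F.card = ((Ioc ⌊X⌋₊ (2 * ⌊X⌋₊)).filter (fun n => n ∈ T)).card := by
    congr 1
    ext n
    rw [mem_filter]
    exact hF n
  rw [h2]
  exact h1

lemma vol_below (hV : S_VOL) (S : Set ℕ) (h : ℕ) {X : ℝ} (hX : 1 ≤ X) (u : ℝ) :
    |(volume {x : ℝ | x ∈ Set.Icc X (2 * X) ∧ ⌊x⌋₊ ∈ {n : ℕ | n ∈ S ∧ mobSum n h ≤ u}}).toReal -
      ((below S ⌊X⌋₊ h u).card : ℝ)| ≤ 3 := by
  apply vol_gen hV {n : ℕ | n ∈ S ∧ mobSum n h ≤ u} hX
  intro n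
  unfold below
  simp only [mem_filter, Set.mem_ofPred_eq]

/-- the sandwich, from above -/
lemma length_le (hW : S_WIN) (hV : S_VOL) (S : Set ℕ) {H X : ℝ} (hX : 1 ≤ X) (hH : 2 ≤ H) (hHX : H ≤ X) (t : ℝ) :
    lengthBelow S H X t ≤ (below S ⌊X⌋₊ ⌊H / 2⌋₊ (t * √(H / (Real.pi ^ 2 / 6)) + 2)).card + 3 := by
  have hs : 0 < √(H / (Real.pi ^ 2 / 6)) := by
    apply Real.sqrt_pos.2
    have := Real.pi_pos
    positivity
  have h1 := vol_below hV S ⌊H / 2⌋₊ hX (t * √(H / (Real.pi ^ 2 / 6)) + 2)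
  have h2 : lengthBelow S H X t ≤ (volume {x : ℝ | x ∈ Set.Icc X (2 * X) ∧ ⌊x⌋₊ ∈ {n : ℕ | n ∈ S ∧
      mobSum n ⌊H / 2⌋₊ ≤ t * √(H / (Real.pi ^ 2 / 6)) + 2}}).toReal := by
    unfold lengthBelow
    apply volume_mono_toReal (X := X)
    · rintro x ⟨hx1, hx2, hx3⟩
      refine ⟨hx1, hx2, ?_⟩
      rw [div_le_iff₀ hs] at hx3
      have hw := abs_le.1 (hW H x hH (hHX.trans hx1.1))
      show mobSum ⌊x⌋₊ ⌊H / 2⌋₊ ≤ _
      linarith [hw.1, hw.2]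
    · rintro x ⟨hx1, _⟩
      exact hx1
  have h3 := (abs_le.1 h1).2
  linarith

/-- the sandwich, from below -/
lemma le_length (hW : S_WIN) (hV : S_VOL) (S : Set ℕ) {H X : ℝ} (hX : 1 ≤ X) (hH : 2 ≤ H) (hHX : H ≤ X) (t : ℝ) :
    ((below S ⌊X⌋₊ ⌊H / 2⌋₊ (t * √(H / (Real.pi ^ 2 / 6)) - 2)).card : ℝ) - 3 ≤ lengthBelow S H X t := by
  have hs : 0 < √(H / (Real.pi ^ 2 / 6)) := by
    apply Real.sqrt_pos.2
    have := Real.pi_pos
    positivity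
  have h1 := vol_below hV S ⌊H / 2⌋₊ hX (t * √(H / (Real.pi ^ 2 / 6)) - 2)
  have h2 : (volume {x : ℝ | x ∈ Set.Icc X (2 * X) ∧ ⌊x⌋₊ ∈ {n : ℕ | n ∈ S ∧
      mobSum n ⌊H / 2⌋₊ ≤ t * √(H / (Real.pi ^ 2 / 6)) - 2}}).toReal ≤ lengthBelow S H X t := by
    unfold lengthBelow
    apply volume_mono_toReal (X := X)
    · rintro x ⟨hx1, hx2, hx3⟩
      refine ⟨hx1, hx2, ?_⟩
      rw [div_le_iff₀ hs]
      have hw := abs_le.1 (hW H x hH (hHX.trans hx1.1))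
      have hx3' : mobSum ⌊x⌋₊ ⌊H / 2⌋₊ ≤ t * √(H / (Real.pi ^ 2 / 6)) - 2 := hx3
      linarith [hw.1, hw.2]
    · rintro x ⟨hx1, _⟩
      exact hx1
  have h3 := (abs_le.1 h1).1
  linarith

lemma lengthAll_univ {X : ℝ} (hX : 0 ≤ X) : lengthAll Set.univ X = X := by
  unfold lengthAll
  have : {x : ℝ | x ∈ Set.Icc X (2 * X) ∧ ⌊x⌋₊ ∈ (Set.univ : Set ℕ)} = Set.Icc X (2 * X) := by
    ext x
    simp
  rw [this, Real.volume_Icc, ENNReal.toReal_ofReal (by linarith)]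
  ring

lemma lengthBelow_le (S : Set ℕ) (H X t : ℝ) : lengthBelow S H X t ≤ lengthAll S X := by
  unfold lengthBelow lengthAll
  apply volume_mono_toReal (X := X)
  · rintro x ⟨hx1, hx2, _⟩
    exact ⟨hx1, hx2⟩
  · rintro x ⟨hx1, _⟩
    exact hx1

/-- The distribution function of `M(x; H) / √(H / ζ(2))`, `x` in `[X, 2X]` with `⌊x⌋` in `S`. -/
noncomputable def lawR (S : Set ℕ) (H X t : ℝ) : ℝ := lengthBelow S H X t / lengthAll S X

/-- arithmetic of quotients -/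
lemma quot_close {X M v E' η B Y : ℝ} (hX : 0 < X) (hM : 0 < M) (h1 : |M - v * X| ≤ E') (h2 : 2 * E' ≤ η * M)
    (hB0 : 0 ≤ B) (hB : B ≤ X) :
    (Y ≤ v * B + E' → Y / M ≤ B / X + η) ∧ (v * B - E' ≤ Y → B / X ≤ Y / M + η) := by
  have hBX : B / X ≤ 1 := (div_le_one hX).2 hB
  have hBX0 : 0 ≤ B / X := by positivity
  have hab := abs_le.1 h1
  have hE : 0 ≤ E' := (abs_nonneg _).trans h1
  constructor
  · intro hY
    rw [div_le_iff₀ hM]
    have e : (B / X + η) * M = v * B + B / X * (M - v * X) + η * M := by field_simp; ring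
    have h5 : -E' ≤ B / X * (M - v * X) := by nlinarith
    rw [e]
    linarith
  · intro hY
    rw [← sub_le_iff_le_add, le_div_iff₀ hM]
    have e : (B / X - η) * M = v * B + B / X * (M - v * X) - η * M := by field_simp; ring
    have h5 : B / X * (M - v * X) ≤ E' := by nlinarith
    rw [e]
    linarith

/-- the members of an arc set -/
lemma lengthAll_close (hV : S_VOL) {α v : ℝ} {q : ℕ} {X : ℝ} (hX : 1 ≤ X)
    (H : ∀ t v : ℝ, 0 ≤ v → v ≤ 1 →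
      v * (below Set.univ ⌊X⌋₊ 0 (t - 16 * (⌊X⌋₊ : ℝ) ^ (1 / (q : ℝ)))).card - (⌊X⌋₊ : ℝ) ^ (1 - 1 / (4 * (q : ℝ))) ≤
        (below (arcSet α v) ⌊X⌋₊ 0 t).card ∧
      ((below (arcSet α v) ⌊X⌋₊ 0 t).card : ℝ) ≤
        v * (below Set.univ ⌊X⌋₊ 0 (t + 16 * (⌊X⌋₊ : ℝ) ^ (1 / (q : ℝ)))).card + (⌊X⌋₊ : ℝ) ^ (1 - 1 / (4 * (q : ℝ))))
    (hv0 : 0 ≤ v) (hv1 : v ≤ 1) :
    |lengthAll (arcSet α v) X - v * X| ≤ (⌊X⌋₊ : ℝ) ^ (1 - 1 / (4 * (q : ℝ))) + 4 := by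
  have hp : 0 ≤ 16 * (⌊X⌋₊ : ℝ) ^ (1 / (q : ℝ)) := by positivity
  have hall : ∀ (S : Set ℕ) (t : ℝ), 1 ≤ t → ({n : ℕ | n ∈ S ∧ mobSum n 0 ≤ t} : Set ℕ) = S := by
    intro S t ht
    ext n
    simp only [Set.mem_ofPred_eq, and_iff_left_iff_imp]
    intro _
    have : mobSum n 0 ≤ 1 := by
      unfold mobSum
      simp only [Nat.sub_zero, Nat.add_zero, Icc_self, sum_singleton]
      have h1 := ArithmeticFunction.abs_moebius_le_one (n := n)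
      have h2 : ArithmeticFunction.moebius n ≤ 1 := (abs_le.1 h1).2
      exact_mod_cast h2
    linarith
  have hN : ∀ t : ℝ, 1 ≤ t → ((below Set.univ ⌊X⌋₊ 0 t).card : ℝ) = ⌊X⌋₊ := by
    intro t ht
    have : below Set.univ ⌊X⌋₊ 0 t = Ioc ⌊X⌋₊ (2 * ⌊X⌋₊) := by
      unfold below
      ext n
      have h1 := hall Set.univ t ht
      have h2 : n ∈ ({n : ℕ | n ∈ Set.univ ∧ mobSum n 0 ≤ t} : Set ℕ) := by rw [h1]; trivial
      simp only [mem_filter]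
      exact ⟨fun h => h.1, fun h => ⟨h, h2⟩⟩
    rw [this, Nat.card_Ioc]
    have : 2 * ⌊X⌋₊ - ⌊X⌋₊ = ⌊X⌋₊ := by omega
    rw [this]
  obtain ⟨h1, h2⟩ := H (1 + 16 * (⌊X⌋₊ : ℝ) ^ (1 / (q : ℝ))) v hv0 hv1
  rw [hN _ (by linarith)] at h1
  rw [hN _ (by linarith)] at h2
  have h3 := vol_below hV (arcSet α v) 0 hX (1 + 16 * (⌊X⌋₊ : ℝ) ^ (1 / (q : ℝ)))
  rw [hall _ _ (by linarith)] at h3
  have h4 : |lengthAll (arcSet α v) X - ((below (arcSet α v) ⌊X⌋₊ 0 (1 + 16 * (⌊X⌋₊ : ℝ) ^ (1 / (q : ℝ)))).card : ℝ)| ≤ 3 := h3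
  have h5 := Nat.floor_le (show (0 : ℝ) ≤ X by linarith)
  have h6 := Nat.lt_floor_add_one X
  have h7 : v * (⌊X⌋₊ : ℝ) ≤ v * X := mul_le_mul_of_nonneg_left h5 hv0
  have h8 : v * X ≤ v * (⌊X⌋₊ : ℝ) + 1 := by nlinarith
  have h9 := abs_le.1 h4
  rw [abs_le]
  constructor <;> linarith [h9.1, h9.2]

/-- closeness of the distribution functions, uniformly in the length -/
lemma closeR (hW : S_WIN) (hV : S_VOL) {α v ε : ℝ} (hα : MobA α) (hv0 : 0 < v) (hv1 : v ≤ 1) (hε : 0 < ε)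
    (δ : ℝ) (hδ : 0 < δ) (η : ℝ) (hη : 0 < η) :
    ∀ᶠ X : ℝ in atTop, ∀ H : ℝ, X ^ ε ≤ H → H ≤ X → ∀ t : ℝ,
      lawR (arcSet α v) H X t ≤ lawR Set.univ H X (t + δ) + η ∧
      lawR Set.univ H X (t - δ) ≤ lawR (arcSet α v) H X t + η := by
  obtain ⟨q, hq⟩ := exists_nat_gt (max 1 (4 / ε))
  have hq1 : (1 : ℝ) < q := (le_max_left _ _).trans_lt hq
  have hq2 : 4 / ε < q := (le_max_right _ _).trans_lt hq
  have hq0 : (0 : ℝ) < q := by linarith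
  have hqn : 1 ≤ q := by exact_mod_cast hq1.le
  obtain ⟨N₀, h0⟩ := hα q hqn
  -- the shift
  have hsh : ∀ᶠ X : ℝ in atTop, 20 * X ^ (1 / (q : ℝ)) ≤ δ * (X ^ (ε / 2) * (1 / 2)) := by
    have h1 : Tendsto (fun x : ℝ => x ^ (ε / 2 - 1 / (q : ℝ))) atTop atTop := by
      apply tendsto_rpow_atTop
      rw [sub_pos, div_lt_div_iff₀ hq0 (by norm_num)]
      rw [div_lt_iff₀ hε] at hq2
      nlinarith
    have h2 := h1.eventually_ge_atTop (40 / δ)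
    filter_upwards [h2, eventually_ge_atTop 1] with X hX hX1
    have hX0 : (0 : ℝ) < X := by linarith
    have h3 : X ^ (ε / 2) = X ^ (ε / 2 - 1 / (q : ℝ)) * X ^ (1 / (q : ℝ)) := by
      rw [← Real.rpow_add hX0]
      congr 1
      ring
    have h4 : 40 ≤ δ * X ^ (ε / 2 - 1 / (q : ℝ)) := by
      rw [div_le_iff₀ hδ] at hX
      linarith
    have h5 : 0 ≤ X ^ (1 / (q : ℝ)) := by positivity
    rw [h3]
    nlinarith [mul_le_mul_of_nonneg_right h4 h5]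
  -- the error
  have herr : ∀ c : ℝ, 0 < c → ∀ᶠ X : ℝ in atTop, X ^ (1 - 1 / (4 * (q : ℝ))) + 6 ≤ c * X := by
    intro c hc
    have h1 : Tendsto (fun x : ℝ => x ^ (-(1 / (4 * (q : ℝ))))) atTop (nhds 0) := tendsto_rpow_neg_atTop (by positivity)
    have h2 := h1.eventually_le_const (show 0 < c / 2 by positivity)
    filter_upwards [h2, eventually_ge_atTop 1, eventually_ge_atTop (12 / c)] with X hX hX1 hX2
    have hX0 : (0 : ℝ) < X := by linarith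
    rw [div_le_iff₀ hc] at hX2
    have h3 : X ^ (1 - 1 / (4 * (q : ℝ))) ≤ c / 2 * X := by
      rw [sub_eq_add_neg, Real.rpow_add hX0, Real.rpow_one, mul_comm]
      exact mul_le_mul_of_nonneg_right hX hX0.le
    linarith
  have hHbig : ∀ᶠ X : ℝ in atTop, 2 ≤ X ^ ε := (tendsto_rpow_atTop hε).eventually_ge_atTop 2
  filter_upwards [hsh, herr (v / 2) (by linarith), herr (v * η / 4) (by positivity), hHbig,
    eventually_ge_atTop ((N₀ : ℝ) + 1), eventually_ge_atTop 1] with X hs he1 he2 hHb hXN hX1 H hH1 hH2 t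
  have hX0 : (0 : ℝ) < X := by linarith
  have hHge : 2 ≤ H := hHb.trans hH1
  have hH0 : 0 < H := by linarith
  set N : ℕ := ⌊X⌋₊ with hN
  have hN0 : N₀ ≤ N := by
    apply Nat.le_floor
    linarith
  have hhN : ⌊H / 2⌋₊ ≤ N := Nat.floor_le_floor (by linarith)
  have hNX : (N : ℝ) ≤ X := Nat.floor_le hX0.le
  set E : ℝ := (N : ℝ) ^ (1 - 1 / (4 * (q : ℝ))) with hE
  have hEX : E ≤ X ^ (1 - 1 / (4 * (q : ℝ))) := by
    apply Real.rpow_le_rpow (by positivity) hNX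
    rw [sub_nonneg, div_le_one (by positivity)]
    linarith
  have hNq : (N : ℝ) ^ (1 / (q : ℝ)) ≤ X ^ (1 / (q : ℝ)) := Real.rpow_le_rpow (by positivity) hNX (by positivity)
  have hXq : 1 ≤ X ^ (1 / (q : ℝ)) := Real.one_le_rpow hX1 (by positivity)
  set M : ℝ := lengthAll (arcSet α v) X with hM
  have hmem : |M - v * X| ≤ E + 4 := lengthAll_close hV hX1 (h0 N hN0 0 (Nat.zero_le _)) hv0.le hv1
  have hMlow : v / 2 * X ≤ M := by
    have := (abs_le.1 hmem).1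
    linarith
  have hM0 : 0 < M := lt_of_lt_of_le (by positivity) hMlow
  set s : ℝ := √(H / (Real.pi ^ 2 / 6)) with hs'
  have hscale : X ^ (ε / 2) * (1 / 2) ≤ s := by
    apply Real.le_sqrt_of_sq_le
    have e1 : (X ^ (ε / 2) * (1 / 2)) ^ 2 = X ^ ε * (1 / 4) := by
      rw [mul_pow, ← Real.rpow_natCast, ← Real.rpow_mul hX0.le]
      have e : ε / 2 * ((2 : ℕ) : ℝ) = ε := by push_cast; ring
      rw [e]
      norm_num
    rw [e1]
    have hπ : Real.pi ^ 2 ≤ 12 := by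
      have := Real.pi_lt_d2
      have := Real.pi_pos
      nlinarith
    have hπ0 : 0 < Real.pi ^ 2 := by positivity
    rw [le_div_iff₀ (by positivity)]
    calc X ^ ε * (1 / 4) * (Real.pi ^ 2 / 6) ≤ H * (1 / 4) * (12 / 6) := by gcongr
      _ ≤ H := by linarith
  have hshift : 20 * X ^ (1 / (q : ℝ)) ≤ δ * s := hs.trans (mul_le_mul_of_nonneg_left hscale hδ.le)
  have hshN : 4 + 16 * (N : ℝ) ^ (1 / (q : ℝ)) ≤ δ * s := by linarith
  have hηE : 2 * (E + 6) ≤ η * M := by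
    calc 2 * (E + 6) ≤ 2 * (v * η / 4 * X) := by linarith
      _ = η * (v / 2 * X) := by ring
      _ ≤ η * M := mul_le_mul_of_nonneg_left hMlow hη.le
  have hB : ∀ t : ℝ, lengthBelow Set.univ H X t ≤ X := by
    intro t
    have := lengthBelow_le Set.univ H X t
    rwa [lengthAll_univ hX0.le] at this
  have hB0 : ∀ t : ℝ, 0 ≤ lengthBelow Set.univ H X t := fun t => ENNReal.toReal_nonneg
  have hmem' : |M - v * X| ≤ E + 6 := by linarith
  have hE0 : 0 ≤ E := by positivity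
  constructor
  · unfold lawR
    rw [lengthAll_univ hX0.le]
    apply (quot_close hX0 hM0 hmem' hηE (hB0 _) (hB _)).1
    have a1 := length_le hW hV (arcSet α v) hX1 hHge hH2 t
    have a2 := (h0 N hN0 ⌊H / 2⌋₊ hhN (t * s + 2) v hv0.le hv1).2
    have a3 : ((below Set.univ N ⌊H / 2⌋₊ (t * s + 2 + 16 * (N : ℝ) ^ (1 / (q : ℝ)))).card : ℝ) ≤
        (below Set.univ N ⌊H / 2⌋₊ ((t + δ) * s - 2)).card := by
      exact_mod_cast belowMono _ _ _ (by linarith)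
    have a4 := le_length hW hV Set.univ hX1 hHge hH2 (t + δ)
    rw [← hs', ← hN] at a1 a4
    have a5 : v * ((below Set.univ N ⌊H / 2⌋₊ (t * s + 2 + 16 * (N : ℝ) ^ (1 / (q : ℝ)))).card : ℝ) ≤
        v * (lengthBelow Set.univ H X (t + δ) + 3) :=
      mul_le_mul_of_nonneg_left (by linarith) hv0.le
    nlinarith
  · unfold lawR
    rw [lengthAll_univ hX0.le]
    apply (quot_close hX0 hM0 hmem' hηE (hB0 _) (hB _)).2
    have a1 := le_length hW hV (arcSet α v) hX1 hHge hH2 t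
    have a2 := (h0 N hN0 ⌊H / 2⌋₊ hhN (t * s - 2) v hv0.le hv1).1
    have a3 : ((below Set.univ N ⌊H / 2⌋₊ ((t - δ) * s + 2)).card : ℝ) ≤
        (below Set.univ N ⌊H / 2⌋₊ (t * s - 2 - 16 * (N : ℝ) ^ (1 / (q : ℝ)))).card := by
      exact_mod_cast belowMono _ _ _ (by linarith)
    have a4 := length_le hW hV Set.univ hX1 hHge hH2 (t - δ)
    rw [← hs', ← hN] at a1 a4
    have a5 : v * (lengthBelow Set.univ H X (t - δ) - 3) ≤
        v * ((below Set.univ N ⌊H / 2⌋₊ (t * s - 2 - 16 * (N : ℝ) ^ (1 / (q : ℝ)))).card : ℝ) :=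
      mul_le_mul_of_nonneg_left (by linarith) hv0.le
    nlinarith

theorem levR {Φ : ℝ → ℝ} (hΦ : Continuous Φ) {A B : ℝ → ℝ → ℝ}
    (h : ∀ δ : ℝ, 0 < δ → ∀ η : ℝ, 0 < η → ∀ᶠ N : ℝ in atTop, ∀ t : ℝ,
      B N t ≤ A N (t + δ) + η ∧ A N (t - δ) ≤ B N t + η)
    (hA : ∀ t, Tendsto (fun N => A N t) atTop (nhds (Φ t))) :
    ∀ t, Tendsto (fun N => B N t) atTop (nhds (Φ t)) := by
  intro t
  rw [Metric.tendsto_nhds]
  intro ε hε
  obtain ⟨δ', hδ', hc⟩ := Metric.continuous_iff.1 hΦ t (ε / 4) (by positivity)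
  set δ := δ' / 2 with hδ
  have hδ0 : 0 < δ := by positivity
  have h1 : |Φ (t + δ) - Φ t| < ε / 4 := by
    have := hc (t + δ) (by
      rw [Real.dist_eq, add_sub_cancel_left, abs_of_pos hδ0, hδ]
      linarith)
    rwa [Real.dist_eq] at this
  have h2 : |Φ (t - δ) - Φ t| < ε / 4 := by
    have := hc (t - δ) (by
      rw [Real.dist_eq, sub_sub_cancel_left, abs_neg, abs_of_pos hδ0, hδ]
      linarith)
    rwa [Real.dist_eq] at this
  have e1 := (Metric.tendsto_nhds.1 (hA (t + δ))) (ε / 4) (by positivity)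
  have e2 := (Metric.tendsto_nhds.1 (hA (t - δ))) (ε / 4) (by positivity)
  filter_upwards [e1, e2, h δ hδ0 (ε / 4) (by positivity)] with N f1 f2 h3
  obtain ⟨f3, f4⟩ := h3 t
  rw [Real.dist_eq] at f1 f2 ⊢
  rw [abs_lt] at *
  constructor <;> linarith [f1.1, f1.2, f2.1, f2.2, h1.1, h1.2, h2.1, h2.2]

theorem levyr : S_LEVYR := by
  intro Φ hΦ F F' h
  refine ⟨fun hF => levR hΦ h hF, fun hF => levR hΦ (fun δ hδ η hη => ?_) hF⟩
  filter_upwards [h δ hδ η hη] with N hN t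
  have h1 := (hN (t + δ)).2
  have h2 := (hN (t - δ)).1
  rw [add_sub_cancel_right] at h1
  rw [sub_add_cancel] at h2
  exact ⟨h1, h2⟩

theorem cdf_eq_gaussCDF (t : ℝ) : ProbabilityTheory.cdf (ProbabilityTheory.gaussianReal 0 1) t = gaussCDF t := by
  rw [ProbabilityTheory.cdf_eq_real, measureReal_def, ProbabilityTheory.gaussianReal_apply_eq_integral 0 one_ne_zero]
  rw [ENNReal.toReal_ofReal (setIntegral_nonneg measurableSet_Iic (fun x _ => ProbabilityTheory.gaussianPDFReal_nonneg 0 1 x))]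
  unfold gaussCDF
  rw [← integral_const_mul]
  congr 1
  funext x
  unfold ProbabilityTheory.gaussianPDFReal
  simp

theorem cdfr : S_CDFR := by
  unfold S_CDFR
  have h : (fun t : ℝ => ProbabilityTheory.cdf (ProbabilityTheory.gaussianReal 0 1) t) = gaussCDF :=
    funext cdf_eq_gaussCDF
  rw [h]
  exact Pool.Agent.H40.MR.cdf

end Pool.Agent.H90.MR
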