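import Mathlib

/-! # Project MR (helper90): metric rotations, arbitrary labels and thresholds (statements)

For almost every real `x` the points `n_k x mod 1` (`n_k` pairwise coprime, increasing) are independent, with a square root
error, of ALL the data `k < K`, `r_1 k < b_1, ..., r_s k < b_s`, summed in the square over arbitrary labels `τ k`. -/

set_option autoImplicit false

namespace Pool.Agent.H90.MR

open Finset MeasureTheory Filter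

/-- The centred indicator function of the arc `[c, d)` at `n x` modulo 1. -/
noncomputable def g (c d : ℝ) (n : ℕ) (x : ℝ) : ℝ :=
  (if c ≤ Int.fract (n * x) ∧ Int.fract (n * x) < d then 1 else 0) - (d - c)

/-- `COV`: covariance of two arcs at coprime multipliers.

Proof. As `∫₀¹ g c' d' q = 0`, the integral is `∫₀¹ 1[c ≤ fract (p x) < d] g c' d' q x dx
= (1/p) ∑_{i<p} ∫₀¹ 1[c ≤ t < d] g c' d' q ((i + t)/p) dt = (1/p) ∫_c^d (∑_{i<p} g c' d' q ((i + t)/p)) dt`, and the inner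
sum is at most `1` in absolute value: the points `q (i + t)/p` mod 1, `i < p`, are the points `(j + y)/p`, `j < p`,
`y = fract (q t)`, and the number of those in `[c', d')` differs from `p (d' - c')` by at most `1`. -/
def S_COV : Prop := ∀ p q : ℕ, 1 ≤ q → q < p → p.Coprime q → ∀ c d c' d' : ℝ, 0 ≤ c → c ≤ d → d ≤ 1 → 0 ≤ c' → c' ≤ d' →
  d' ≤ 1 → |∫ x in (0 : ℝ)..1, g c d p x * g c' d' q x| ≤ (d - c) / p

/-- `VAR`: the variance (it is `(d - c) (1 - (d - c))`). -/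
def S_VAR : Prop := ∀ p : ℕ, 1 ≤ p → ∀ c d : ℝ, 0 ≤ c → c ≤ d → d ≤ 1 → ∫ x in (0 : ℝ)..1, g c d p x ^ 2 ≤ d - c

/-- The second moment over a set `D` of indices. -/
def S_MOM : Prop := ∀ (n : ℕ → ℕ), StrictMono n → 1 ≤ n 0 → (∀ k l, k ≠ l → (n k).Coprime (n l)) → ∀ (c d : ℕ → ℝ),
  (∀ k, 0 ≤ c k ∧ c k ≤ d k ∧ d k ≤ 1) → ∀ D : Finset ℕ,
  ∫ x in (0 : ℝ)..1, (∑ k ∈ D, g (c k) (d k) (n k) x) ^ 2 ≤ 3 * ∑ k ∈ D, (d k - c k)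

/-- `QQ`: sum over all dyadic levels `i` of all the functions `r` of the list and over the classes of
`(r k / 2 ^ i)_r, τ k` of the squares of the sums of `f` over the class. -/
noncomputable def QQ (m : ℕ) (S : Finset ℕ) (f : ℕ → ℝ) : List (ℕ → ℕ) → (ℕ → List ℤ) → ℝ
  | [], τ => ∑ c ∈ S.image τ, (∑ k ∈ S.filter (fun k => τ k = c), f k) ^ 2
  | r :: rs, τ => ∑ i ∈ range (m + 1), QQ m S f rs (fun k => ((r k / 2 ^ i : ℕ) : ℤ) :: τ k)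

/-- `DY`: the dyadic decomposition of an initial interval. -/
def S_DY : Prop := ∀ m r b : ℕ, r < 2 ^ m → b ≤ 2 ^ m → (if r < b then (1 : ℝ) else 0) =
  ∑ i ∈ range (m + 1), if (b / 2 ^ i) % 2 = 1 ∧ r / 2 ^ i + 1 = b / 2 ^ i then (1 : ℝ) else 0

/-- `SUP`: the maximal inequality (thresholds), with arbitrary labels `τ`. Induction on the list with `DY` and Cauchy-Schwarz. -/
def S_SUP : Prop := ∀ (m : ℕ) (S : Finset ℕ) (f : ℕ → ℝ) (rb : List ((ℕ → ℕ) × ℕ)) (τ : ℕ → List ℤ),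
  (∀ x ∈ rb, (∀ k ∈ S, x.1 k < 2 ^ m) ∧ x.2 ≤ 2 ^ m) →
  ∑ c ∈ S.image τ, (∑ k ∈ S.filter (fun k => τ k = c ∧ ∀ x ∈ rb, x.1 k < x.2), f k) ^ 2 ≤
    ((m : ℝ) + 1) ^ rb.length * QQ m S f (rb.map Prod.fst) τ

/-- `EXP`: the mean of `QQ`. Induction on the list; for the empty list `S_MOM` for every class. -/
def S_EXP : Prop := ∀ (n : ℕ → ℕ), StrictMono n → 1 ≤ n 0 → (∀ k l, k ≠ l → (n k).Coprime (n l)) → ∀ (c d : ℕ → ℝ),
  (∀ k, 0 ≤ c k ∧ c k ≤ d k ∧ d k ≤ 1) → ∀ (m : ℕ) (S : Finset ℕ) (rs : List (ℕ → ℕ)) (τ : ℕ → List ℤ),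
  ∫ x in (0 : ℝ)..1, QQ m S (fun k => g (c k) (d k) (n k) x) rs τ ≤
    3 * ((m : ℝ) + 1) ^ rs.length * ∑ k ∈ S, (d k - c k)

open Classical in
/-- `MET`: the metric theorem. -/
def S_MET : Prop := ∀ (n : ℕ → ℕ), StrictMono n → 1 ≤ n 0 → (∀ k l, k ≠ l → (n k).Coprime (n l)) →
  ∀ (L : ℕ) (rs : ℕ → List (ℕ → ℕ)) (τ : ℕ → ℕ → List ℤ), (∀ m, (rs m).length = L) →
  (∀ m, ∀ r ∈ rs m, ∀ k < 2 ^ m, r k < 2 ^ m) →
  ∀ᵐ α : ℝ, ∀ᶠ m : ℕ in atTop, ∀ rb : List ((ℕ → ℕ) × ℕ), rb.map Prod.fst = rs m → (∀ x ∈ rb, x.2 ≤ 2 ^ m) →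
    ∀ v : ℝ, 0 ≤ v → v ≤ 1 → ∑ c ∈ (range (2 ^ m)).image (τ m),
      ((((range (2 ^ m)).filter (fun k => (τ m k = c ∧ ∀ x ∈ rb, x.1 k < x.2) ∧ Int.fract (n k * α) < v)).card : ℝ) -
        v * (((range (2 ^ m)).filter (fun k => τ m k = c ∧ ∀ x ∈ rb, x.1 k < x.2)).card : ℝ)) ^ 2 ≤
      2 ^ m * ((m : ℝ) + 2) ^ (2 * L + 8)

open Classical in
/-- `THIN`: the metric theorem for shrinking targets. -/
def S_THIN : Prop := ∀ (n : ℕ → ℕ), StrictMono n → 1 ≤ n 0 → (∀ k l, k ≠ l → (n k).Coprime (n l)) →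
  ∀ δ : ℕ → ℝ, (∀ k, 0 ≤ δ k ∧ δ k ≤ 1) →
  ∀ (L : ℕ) (rs : ℕ → List (ℕ → ℕ)) (τ : ℕ → ℕ → List ℤ), (∀ m, (rs m).length = L) →
  (∀ m, ∀ r ∈ rs m, ∀ k < 2 ^ m, r k < 2 ^ m) →
  ∀ᵐ α : ℝ, ∀ᶠ m : ℕ in atTop, ∀ rb : List ((ℕ → ℕ) × ℕ), rb.map Prod.fst = rs m → (∀ x ∈ rb, x.2 ≤ 2 ^ m) →
    ∑ c ∈ (range (2 ^ m)).image (τ m),
      ((((range (2 ^ m)).filter (fun k => (τ m k = c ∧ ∀ x ∈ rb, x.1 k < x.2) ∧ Int.fract (n k * α) < δ k)).card : ℝ) -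
        ∑ k ∈ (range (2 ^ m)).filter (fun k => τ m k = c ∧ ∀ x ∈ rb, x.1 k < x.2), δ k) ^ 2 ≤
      (1 + ∑ k ∈ range (2 ^ m), δ k) * ((m : ℝ) + 2) ^ (2 * L + 4)

end Pool.Agent.H90.MR
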