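import Pool.Agent.H90.MR.App

/-! # Project MR: all boxes, `s` consecutive members of an arbitrary real sequence (statements) -/

set_option autoImplicit false

namespace Pool.Agent.H90.MR

open Finset MeasureTheory Filter

open Classical in
/-- `BOX`. Proof: `arcs` with `L = 2 s`, labels `fun _ => []`, `A = {[]}` and the `2 s` rank functions at the scale `m`, for
`j < s`: `r k = #{l < 2 ^ m : x (l + j) < x (k + j)}` (then `x (k + j) < b ↔ r k < #{l < 2 ^ m : x (l + j) < b}` for `k < 2 ^ m`)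
and `r' k = #{l < 2 ^ m : x (k + j) < x (l + j)}` (then `a ≤ x (k + j) ↔ r' k < #{l < 2 ^ m : a ≤ x (l + j)}`). -/
def S_BOX : Prop := ∀ (n : ℕ → ℕ), StrictMono n → 1 ≤ n 0 → (∀ k l, k ≠ l → (n k).Coprime (n l)) →
  ∀ (x : ℕ → ℝ) (s : ℕ), ∀ᵐ α : ℝ, ∃ K₀ : ℕ, ∀ K : ℕ, K₀ ≤ K → ∀ a b : Fin s → ℝ, ∀ v : ℝ, 0 ≤ v → v ≤ 1 →
    ((((range K).filter (fun k => (∀ j : Fin s, a j ≤ x (k + j) ∧ x (k + j) < b j) ∧ Int.fract (n k * α) < v)).card : ℝ) -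
      v * (((range K).filter (fun k => ∀ j : Fin s, a j ≤ x (k + j) ∧ x (k + j) < b j)).card : ℝ)) ^ 2 ≤
    K * Real.log K ^ (4 * s + 11)

open Classical in
/-- `BOXT`: the same with shrinking targets (from `targets`). -/
def S_BOXT : Prop := ∀ (n : ℕ → ℕ), StrictMono n → 1 ≤ n 0 → (∀ k l, k ≠ l → (n k).Coprime (n l)) →
  ∀ δ : ℕ → ℝ, (∀ k, 0 ≤ δ k ∧ δ k ≤ 1) → Antitone δ →
  ∀ (x : ℕ → ℝ) (s : ℕ), ∀ᵐ α : ℝ, ∃ K₀ : ℕ, ∀ K : ℕ, K₀ ≤ K → ∀ a b : Fin s → ℝ,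
    ((((range K).filter (fun k => (∀ j : Fin s, a j ≤ x (k + j) ∧ x (k + j) < b j) ∧ Int.fract (n k * α) < δ k)).card : ℝ) -
      ∑ k ∈ (range K).filter (fun k => ∀ j : Fin s, a j ≤ x (k + j) ∧ x (k + j) < b j), δ k) ^ 2 ≤
    (1 + ∑ k ∈ range K, δ k) * Real.log K ^ (4 * s + 7)

end Pool.Agent.H90.MR
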