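import Pool.Agent.H90.MR.MetG

/-! # Project MR-FAM (helper90): families of sequences, Moebius sums in all short windows (statements) -/

set_option autoImplicit false

namespace Pool.Agent.H90.MR

open Finset MeasureTheory Filter

open Classical in
/-- `METF`: at the scale `m` a family of `G m` real sequences `y m u`, `u < G m`; all initial segments, all thresholds,
all arcs, integers `n = k + 1`. -/
def S_METF : Prop := ∀ (G : ℕ → ℕ) (y : ℕ → ℕ → ℕ → ℝ), ∀ᵐ α : ℝ, ∀ᶠ m : ℕ in atTop, ∀ u < G m, ∀ K ≤ 2 ^ m,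
  ∀ t v : ℝ, 0 ≤ v → v ≤ 1 →
    ((((range K).filter (fun k => y m u k ≤ t ∧ Int.fract (((k + 1 : ℕ) : ℝ) * α) < v)).card : ℝ) -
      v * ((range K).filter (fun k => y m u k ≤ t)).card) ^ 2 ≤ ((G m : ℝ) + 1) * 2 ^ m * ((m : ℝ) + 2) ^ 13

/-- The Moebius sum over the window with the centre `n` and the length `2 h + 1`. -/
noncomputable def mobSum (n h : ℕ) : ℝ := ∑ k ∈ Icc (n - h) (n + h), (ArithmeticFunction.moebius k : ℝ)

open Classical in
/-- The `n` in `(N, 2N]`, `n ∈ S`, with `M(n; h) ≤ t`. -/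
noncomputable def below (S : Set ℕ) (N h : ℕ) (t : ℝ) : Finset ℕ :=
  (Ioc N (2 * N)).filter (fun n => n ∈ S ∧ mobSum n h ≤ t)

/-- The numbers `n` with `α n` modulo 1 in `[0, v)`. -/
def arcSet (α v : ℝ) : Set ℕ := {n | Int.fract ((n : ℝ) * α) < v}

/-- `MOB`. Proof from `S_METF`: `m = clog 2 (2 N)`, so `2 N ≤ 2 ^ m ≤ 4 N`; grid spacing `s = 2 ^ (m / q)`,
`G m = 2 ^ m / s + 1`, `y m u k = mobSum (k + 1) (u * s)`; for `h ≤ N` take `u = h / s`, then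
`|mobSum n h - mobSum n (u * s)| ≤ 2 s`, so the threshold moves by at most `4 s ≤ 16 N ^ (1 / q)` (n > N ≥ h; at most `2 (h - u s)` more terms, each at most 1 in absolute
value); the count over `(N, 2N]` is the difference of those over `k < 2 N` and `k < N`, so the error is at most
`2 √((G m + 1) 2 ^ m (m + 2) ^ 13) ≤ N ^ (1 - 1 / (4 q))` for large `N`. -/
def S_MOB : Prop := ∀ᵐ α : ℝ, ∀ q : ℕ, 1 ≤ q → ∃ N₀ : ℕ, ∀ N : ℕ, N₀ ≤ N → ∀ h ≤ N, ∀ t v : ℝ, 0 ≤ v → v ≤ 1 →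
  v * (below Set.univ N h (t - 16 * (N : ℝ) ^ (1 / (q : ℝ)))).card - (N : ℝ) ^ (1 - 1 / (4 * (q : ℝ))) ≤
    (below (arcSet α v) N h t).card ∧
  ((below (arcSet α v) N h t).card : ℝ) ≤
    v * (below Set.univ N h (t + 16 * (N : ℝ) ^ (1 / (q : ℝ)))).card + (N : ℝ) ^ (1 - 1 / (4 * (q : ℝ)))

/-- `LEVY`: a general lemma on distribution functions. -/
def S_LEVY : Prop := ∀ (Φ : ℝ → ℝ), Continuous Φ → ∀ F F' : ℕ → ℝ → ℝ,
  (∀ δ : ℝ, 0 < δ → ∀ η : ℝ, 0 < η → ∀ᶠ N : ℕ in atTop, ∀ t : ℝ, F' N t ≤ F N (t + δ) + η ∧ F N (t - δ) ≤ F' N t + η) →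
  ((∀ t, Tendsto (fun N => F N t) atTop (nhds (Φ t))) ↔ (∀ t, Tendsto (fun N => F' N t) atTop (nhds (Φ t))))

/-- The distribution function of the standard normal law. -/
noncomputable def gaussCDF (t : ℝ) : ℝ := (1 / √(2 * Real.pi)) * ∫ u in Set.Iic t, Real.exp (-u ^ 2 / 2)

/-- `CDF`: it is continuous. -/
def S_CDF : Prop := Continuous gaussCDF

end Pool.Agent.H90.MR
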