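import Pool.Agent.H90.MR.StmFam

/-! # Project MR-REAL (helper90): real centres and real lengths (statements) -/

set_option autoImplicit false

namespace Pool.Agent.H90.MR

open Finset MeasureTheory Filter

/-- The Moebius sum over the integers `n` with `|n - x| < H / 2` (as in the frozen statement). -/
noncomputable def mobReal (H x : ℝ) : ℝ :=
  ∑ n ∈ (Finset.range (⌊x + H⌋₊ + 1)).filter (fun n : ℕ => |(n : ℝ) - x| < H / 2), ((ArithmeticFunction.moebius n : ℤ) : ℝ)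

/-- `WIN`: the window is `[n - h, n + h]` up to at most one element at each end. -/
def S_WIN : Prop := ∀ H x : ℝ, 2 ≤ H → H ≤ x → |mobReal H x - mobSum ⌊x⌋₊ ⌊H / 2⌋₊| ≤ 2

open Classical in
/-- `VOL`: lengths and numbers of integers. (Only the integers `N`, `2 N`, `2 N + 1`, `N = ⌊X⌋₊`, differ.) -/
def S_VOL : Prop := ∀ (T : Set ℕ) (X : ℝ), 1 ≤ X →
  |(volume {x : ℝ | x ∈ Set.Icc X (2 * X) ∧ ⌊x⌋₊ ∈ T}).toReal - ((Ioc ⌊X⌋₊ (2 * ⌊X⌋₊)).filter (fun n => n ∈ T)).card| ≤ 3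

/-- `LEVYR`: `S_LEVY` with a real parameter. -/
def S_LEVYR : Prop := ∀ (Φ : ℝ → ℝ), Continuous Φ → ∀ F F' : ℝ → ℝ → ℝ,
  (∀ δ : ℝ, 0 < δ → ∀ η : ℝ, 0 < η → ∀ᶠ N : ℝ in atTop, ∀ t : ℝ, F' N t ≤ F N (t + δ) + η ∧ F N (t - δ) ≤ F' N t + η) →
  ((∀ t, Tendsto (fun N => F N t) atTop (nhds (Φ t))) ↔ (∀ t, Tendsto (fun N => F' N t) atTop (nhds (Φ t))))

/-- `CDFR`: the normal distribution function of Mathlib is continuous. -/
def S_CDFR : Prop := Continuous (fun t : ℝ => ProbabilityTheory.cdf (ProbabilityTheory.gaussianReal 0 1) t)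

end Pool.Agent.H90.MR
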