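import Pool.Agent.H90.MR.MetG

/-! # Project MR-INT: shrinking targets for all integers (statement) -/

set_option autoImplicit false

namespace Pool.Agent.H90.MR

open Finset MeasureTheory Filter

open Classical in
/-- `TARG`: shrinking targets for the integers `n = k + 1`, arbitrary labels, all `K`. Proof: as `thin` (`Thin.lean`) and
`targets` (`App.lean`) with `L = 0` (one rank function, the time `k`), from `S_SUP` and `S_EXPG`; the new point is
`∑_{k < 2^m} τ(k + 1) δ k ≤ (m + 1) (2 ∑_{k < 2^m} δ k + 1)` for nonincreasing `δ` (dyadic blocks `[2^j, 2^(j+1))` and `S_TAU`: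
`∑_{2^j ≤ k < 2^(j+1)} τ(k + 1) δ k ≤ δ (2^j) 2^(j+1) (j + 2) ≤ 4 (j + 2) ∑_{2^(j-1) ≤ k < 2^j} δ k`, or Abel summation;
any constants and any power of `m` are fine). -/
def S_TARG : Prop := ∀ δ : ℕ → ℝ, (∀ k, 0 ≤ δ k ∧ δ k ≤ 1) → Antitone δ → ∀ τ : ℕ → List ℤ,
  ∀ᵐ α : ℝ, ∃ K₀ : ℕ, ∀ K : ℕ, K₀ ≤ K → ∀ A : Finset (List ℤ),
    ∑ c ∈ A, ((((range K).filter (fun k => τ k = c ∧ Int.fract (((k + 1 : ℕ) : ℝ) * α) < δ k)).card : ℝ) -
      ∑ k ∈ (range K).filter (fun k => τ k = c), δ k) ^ 2 ≤ (1 + ∑ k ∈ range K, δ k) * Real.log K ^ 12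

end Pool.Agent.H90.MR
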