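import Pool.Agent.H90.MR.Asym

/-! # Project MR: the Lang-Trotter sets -/

set_option autoImplicit false

namespace Pool.Agent.H90.MR.Trace

open Finset MeasureTheory Filter

/-- The number of the solutions of the Weierstrass equation modulo `p` (the affine points of the reduction). -/
noncomputable def affinePoints (W : WeierstrassCurve ℤ) (p : ℕ) : ℕ :=
  ((range p ×ˢ range p).filter (fun q : ℕ × ℕ =>
    (q.2 : ZMod p) ^ 2 + (W.a₁ : ZMod p) * (q.1 : ZMod p) * (q.2 : ZMod p) + (W.a₃ : ZMod p) * (q.2 : ZMod p)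
      = (q.1 : ZMod p) ^ 3 + (W.a₂ : ZMod p) * (q.1 : ZMod p) ^ 2 + (W.a₄ : ZMod p) * (q.1 : ZMod p)
        + (W.a₆ : ZMod p))).card

/-- `a_p(E) = p + 1 - #E(𝔽_p)`. -/
noncomputable def ap (W : WeierstrassCurve ℤ) (p : ℕ) : ℤ := (p : ℤ) - affinePoints W p

open Classical in
/-- The primes `p ≤ x`, not dividing the discriminant, with `a_p(E) = a` and `p ∈ S`. -/
noncomputable def tracePrimes (W : WeierstrassCurve ℤ) (a : ℤ) (S : Set ℕ) (x : ℕ) : Finset ℕ :=
  (range (x + 1)).filter (fun p => p.Prime ∧ ¬ (p : ℤ) ∣ W.Δ ∧ ap W p = a ∧ p ∈ S)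

/-- The numbers `p` with `α p` modulo 1 in `[0, v)`. -/
def arc (α v : ℝ) : Set ℕ := {p | Int.fract ((p : ℝ) * α) < v}

/-- The members `⌊n / θ⌋` of a Beatty sequence. -/
def beatty (θ : ℝ) : Set ℕ := {p | ∃ n : ℕ, (p : ℤ) = ⌊(n : ℝ) / θ⌋}

/-- The numbers `p` with `α p` modulo 1 in `[0, δ p)`. -/
def target (α : ℝ) (δ : ℕ → ℝ) : Set ℕ := {p | Int.fract ((p : ℝ) * α) < δ p}

theorem count_le (T : ℕ → Prop) [DecidablePred T] (h0 : ¬ T 0) (x : ℕ) : Nat.count T (x + 1) ≤ x := by
  rw [Nat.count_succ']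
  simp only [h0, if_false, add_zero]
  exact Nat.count_le _

theorem tends_count (T : ℕ → Prop) [DecidablePred T] (hT : {p | T p}.Infinite) : Tendsto (fun x => Nat.count T (x + 1)) atTop atTop := by
  refine tendsto_atTop_atTop_of_monotone (fun a b hab => Nat.count_monotone T (by omega)) fun b => ?_
  refine ⟨Nat.nth T b, ?_⟩
  have h1 : Nat.count T (Nat.nth T b) = b := Nat.count_nth_of_infinite hT b
  calc b = Nat.count T (Nat.nth T b) := h1.symm
    _ ≤ Nat.count T (Nat.nth T b + 1) := Nat.count_monotone T (Nat.le_succ _)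

open Classical in
/-- the label of a prime -/
noncomputable def lab (W : WeierstrassCurve ℤ) (p : ℕ) : List ℤ := [ap W p, if (p : ℤ) ∣ W.Δ then 1 else 0]

theorem lab_iff (W : WeierstrassCurve ℤ) (p : ℕ) (a : ℤ) : lab W p = [a, 0] ↔ (¬ (p : ℤ) ∣ W.Δ ∧ ap W p = a) := by
  unfold lab
  by_cases h : (p : ℤ) ∣ W.Δ
  · simp [h]
  · simp [h]

open Classical in
/-- all traces -/
theorem allTraces (hM : S_MET) (W : WeierstrassCurve ℤ) : ∀ᵐ α : ℝ, ∃ x₀ : ℕ, ∀ x : ℕ, x₀ ≤ x → ∀ v : ℝ, 0 ≤ v → v ≤ 1 →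
    ∀ A : Finset ℤ, ∑ a ∈ A, (((tracePrimes W a (arc α v) x).card : ℝ) - v * (tracePrimes W a Set.univ x).card) ^ 2 ≤
      x * Real.log x ^ 11 := by
  have h1 := arcs hM (Nat.nth Nat.Prime) (Nat.nth_strictMono Nat.infinite_setOfPred_prime) (Nat.prime_nth_prime 0).one_lt.le
    nth_coprime 0 (fun _ => []) (fun k => lab W (Nat.nth Nat.Prime k)) (fun _ => rfl) (fun m r hr => absurd hr (by simp))
  filter_upwards [h1] with α hα
  obtain ⟨K₀, hK₀⟩ := hα
  have h2 := (tends_count Nat.Prime Nat.infinite_setOfPred_prime).eventually_ge_atTop (max K₀ 1)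
  obtain ⟨x₀, hx₀⟩ := eventually_atTop.1 h2
  refine ⟨x₀, fun x hx v hv0 hv1 A => ?_⟩
  have h3 := hx₀ x hx
  have h4 := hK₀ _ ((le_max_left _ _).trans h3) [] rfl (by simp) v hv0 hv1 (A.image (fun a => [a, 0]))
  rw [sum_image (by intro a _ b _ h; simpa using h)] at h4
  set K := Nat.count Nat.Prime (x + 1) with hK
  have hKx : K ≤ x := count_le Nat.Prime Nat.not_prime_zero x
  have hK1 : 1 ≤ K := (le_max_right _ _).trans h3
  have e1 : ∀ a : ℤ, ((range K).filter (fun k => (lab W (Nat.nth Nat.Prime k) = [a, 0] ∧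
      ∀ x ∈ ([] : List ((ℕ → ℕ) × ℕ)), x.1 k < x.2) ∧ Int.fract ((Nat.nth Nat.Prime k : ℝ) * α) < v)).card =
      (tracePrimes W a (arc α v) x).card := by
    intro a
    have h5 := card_nth Nat.Prime (fun p => lab W p = [a, 0] ∧ Int.fract ((p : ℝ) * α) < v)
      Nat.infinite_setOfPred_prime x
    unfold tracePrimes arc
    rw [hK]
    convert h5 using 2
    · ext k
      simp
    · ext p
      simp only [mem_filter, lab_iff, Set.mem_ofPred_eq]
      tauto
  have e2 : ∀ a : ℤ, ((range K).filter (fun k => lab W (Nat.nth Nat.Prime k) = [a, 0] ∧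
      ∀ x ∈ ([] : List ((ℕ → ℕ) × ℕ)), x.1 k < x.2)).card = (tracePrimes W a Set.univ x).card := by
    intro a
    have h5 := card_nth Nat.Prime (fun p => lab W p = [a, 0]) Nat.infinite_setOfPred_prime x
    unfold tracePrimes
    rw [hK]
    convert h5 using 2
    · ext k
      simp
    · ext p
      simp only [mem_filter, lab_iff, Set.mem_univ]
      tauto
  simp only [e1, e2] at h4
  refine h4.trans ?_
  have hK1' : (1 : ℝ) ≤ K := by exact_mod_cast hK1
  have hKx' : (K : ℝ) ≤ x := by exact_mod_cast hKx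
  have h6 : Real.log K ≤ Real.log x := Real.log_le_log (by linarith) hKx'
  have h7 : 0 ≤ Real.log K := Real.log_nonneg hK1'
  simp only [mul_zero, zero_add]
  exact mul_le_mul hKx' (pow_le_pow_left₀ h7 h6 _) (by positivity) (by positivity)

open Classical in
/-- one trace -/
theorem oneTrace (hM : S_MET) (W : WeierstrassCurve ℤ) (a : ℤ) : ∀ᵐ α : ℝ, ∃ K₀ : ℕ, ∀ x : ℕ,
    K₀ ≤ (tracePrimes W a Set.univ x).card → ∀ v : ℝ, 0 ≤ v → v ≤ 1 →
    (((tracePrimes W a (arc α v) x).card : ℝ) - v * (tracePrimes W a Set.univ x).card) ^ 2 ≤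
      (tracePrimes W a Set.univ x).card * Real.log (tracePrimes W a Set.univ x).card ^ 11 := by
  set T : ℕ → Prop := fun p => p.Prime ∧ ¬ (p : ℤ) ∣ W.Δ ∧ ap W p = a with hTdef
  by_cases hT : {p | T p}.Infinite
  · have hTp : ∀ k, T (Nat.nth T k) := fun k => Nat.nth_mem_of_infinite hT k
    have hcop : ∀ k l : ℕ, k ≠ l → (Nat.nth T k).Coprime (Nat.nth T l) := by
      intro k l hkl
      rw [Nat.coprime_primes (hTp k).1 (hTp l).1]
      exact fun h => hkl (Nat.nth_injective hT h)
    have h1 := arcs hM (Nat.nth T) (Nat.nth_strictMono hT) (hTp 0).1.one_lt.le hcop 0 (fun _ => []) (fun _ => [])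
      (fun _ => rfl) (fun m r hr => absurd hr (by simp))
    filter_upwards [h1] with α hα
    obtain ⟨K₀, hK₀⟩ := hα
    refine ⟨K₀, fun x hx v hv0 hv1 => ?_⟩
    have hcard : (tracePrimes W a Set.univ x).card = Nat.count T (x + 1) := by
      rw [Nat.count_eq_card_filter_range]
      unfold tracePrimes
      congr 1
      ext p
      simp only [mem_filter, Set.mem_univ, hTdef]
      tauto
    have h4 := hK₀ _ hx [] rfl (by simp) v hv0 hv1 {[]}
    rw [sum_singleton] at h4
    rw [hcard] at h4 ⊢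
    have e1 : ((range (Nat.count T (x + 1))).filter (fun k => (([] : List ℤ) = [] ∧
        ∀ x ∈ ([] : List ((ℕ → ℕ) × ℕ)), x.1 k < x.2) ∧ Int.fract ((Nat.nth T k : ℝ) * α) < v)).card =
        (tracePrimes W a (arc α v) x).card := by
      have h5 := card_nth T (fun p => Int.fract ((p : ℝ) * α) < v) hT x
      unfold tracePrimes arc
      convert h5 using 2
      · ext k
        simp
      · ext p
        simp only [mem_filter, Set.mem_ofPred_eq, hTdef]
        tauto
    have e2 : ((range (Nat.count T (x + 1))).filter (fun k => (([] : List ℤ) = [] ∧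
        ∀ x ∈ ([] : List ((ℕ → ℕ) × ℕ)), x.1 k < x.2))).card = Nat.count T (x + 1) := by
      have : ((range (Nat.count T (x + 1))).filter (fun k => (([] : List ℤ) = [] ∧
        ∀ x ∈ ([] : List ((ℕ → ℕ) × ℕ)), x.1 k < x.2))) = range (Nat.count T (x + 1)) := by
        apply filter_true_of_mem
        simp
      rw [this, card_range]
    rw [e1, e2] at h4
    simpa using h4
  · refine Eventually.of_forall fun α => ?_
    rw [Set.not_infinite] at hT
    refine ⟨hT.toFinset.card + 1, fun x hx => ?_⟩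
    exfalso
    have h1 : (tracePrimes W a Set.univ x).card ≤ hT.toFinset.card := by
      apply card_le_card
      intro p hp
      unfold tracePrimes at hp
      simp only [mem_filter, Set.mem_univ, and_true] at hp
      rw [Set.Finite.mem_toFinset]
      exact hp.2
    omega

open Classical in
/-- thin sets, all traces -/
theorem allTargets (hM : S_THIN) (δ : ℕ → ℝ) (hδ : ∀ k, 0 ≤ δ k ∧ δ k ≤ 1) (hδa : Antitone δ) (W : WeierstrassCurve ℤ) :
    ∀ᵐ α : ℝ, ∃ x₀ : ℕ, ∀ x : ℕ, x₀ ≤ x →
    ∀ A : Finset ℤ, ∑ a ∈ A, (((tracePrimes W a (target α δ) x).card : ℝ) - ∑ p ∈ tracePrimes W a Set.univ x, δ p) ^ 2 ≤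
      (1 + ∑ p ∈ (range (x + 1)).filter Nat.Prime, δ p) * Real.log x ^ 7 := by
  have h1 := targets hM (Nat.nth Nat.Prime) (Nat.nth_strictMono Nat.infinite_setOfPred_prime)
    (Nat.prime_nth_prime 0).one_lt.le nth_coprime (fun k => δ (Nat.nth Nat.Prime k)) (fun k => hδ _)
    (fun a b hab => hδa ((Nat.nth_strictMono Nat.infinite_setOfPred_prime).monotone hab)) 0 (fun _ => [])
    (fun k => lab W (Nat.nth Nat.Prime k)) (fun _ => rfl) (fun m r hr => absurd hr (by simp))
  filter_upwards [h1] with α hα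
  obtain ⟨K₀, hK₀⟩ := hα
  have h2 := (tends_count Nat.Prime Nat.infinite_setOfPred_prime).eventually_ge_atTop (max K₀ 1)
  obtain ⟨x₀, hx₀⟩ := eventually_atTop.1 h2
  refine ⟨x₀, fun x hx A => ?_⟩
  have h3 := hx₀ x hx
  have h4 := hK₀ _ ((le_max_left _ _).trans h3) [] rfl (by simp) (A.image (fun a => [a, 0]))
  rw [sum_image (by intro a _ b _ h; simpa using h)] at h4
  have h4' : Nat.count Nat.Prime (x + 1) = Nat.count Nat.Prime (x + 1) := rfl
  set K := Nat.count Nat.Prime (x + 1) with hK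
  have hKx : K ≤ x := count_le Nat.Prime Nat.not_prime_zero x
  have hK1 : 1 ≤ K := (le_max_right _ _).trans h3
  have e1 : ∀ a : ℤ, ((range K).filter (fun k => (lab W (Nat.nth Nat.Prime k) = [a, 0] ∧
      ∀ x ∈ ([] : List ((ℕ → ℕ) × ℕ)), x.1 k < x.2) ∧
        Int.fract ((Nat.nth Nat.Prime k : ℝ) * α) < δ (Nat.nth Nat.Prime k))).card =
      (tracePrimes W a (target α δ) x).card := by
    intro a
    have h5 := card_nth Nat.Prime (fun p => lab W p = [a, 0] ∧ Int.fract ((p : ℝ) * α) < δ p)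
      Nat.infinite_setOfPred_prime x
    unfold tracePrimes target
    rw [hK]
    convert h5 using 2
    · ext k
      simp
    · ext p
      simp only [mem_filter, lab_iff, Set.mem_ofPred_eq]
      tauto
  have e2 : ∀ a : ℤ, ∑ k ∈ (range K).filter (fun k => lab W (Nat.nth Nat.Prime k) = [a, 0] ∧
      ∀ x ∈ ([] : List ((ℕ → ℕ) × ℕ)), x.1 k < x.2), δ (Nat.nth Nat.Prime k) = ∑ p ∈ tracePrimes W a Set.univ x, δ p := by
    intro a
    have h5 := sum_nth Nat.Prime (fun p => lab W p = [a, 0]) Nat.infinite_setOfPred_prime x δ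
    unfold tracePrimes
    rw [hK]
    convert h5 using 2
    · ext k
      simp
    · ext p
      simp only [mem_filter, lab_iff, Set.mem_univ]
      tauto
  have e3 : ∑ k ∈ range K, δ (Nat.nth Nat.Prime k) = ∑ p ∈ (range (x + 1)).filter Nat.Prime, δ p := by
    have h5 := sum_nth Nat.Prime (fun _ => True) Nat.infinite_setOfPred_prime x δ
    simp only [and_true, filter_true] at h5
    rw [hK]
    convert h5 using 2
  simp only [e1, e2, e3] at h4
  refine h4.trans ?_
  have hK1' : (1 : ℝ) ≤ K := by exact_mod_cast hK1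
  have hKx' : (K : ℝ) ≤ x := by exact_mod_cast hKx
  have h6 : Real.log K ≤ Real.log x := Real.log_le_log (by linarith) hKx'
  have h7 : 0 ≤ Real.log K := Real.log_nonneg hK1'
  simp only [mul_zero, zero_add]
  have h8 : 0 ≤ ∑ p ∈ (range (x + 1)).filter Nat.Prime, δ p := sum_nonneg fun p _ => (hδ p).1
  exact mul_le_mul_of_nonneg_left (pow_le_pow_left₀ h7 h6 _) (by linarith)

open Classical in
/-- thin sets, one trace -/
theorem oneTarget (hM : S_THIN) (δ : ℕ → ℝ) (hδ : ∀ k, 0 ≤ δ k ∧ δ k ≤ 1) (hδa : Antitone δ) (W : WeierstrassCurve ℤ)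
    (a : ℤ) : ∀ᵐ α : ℝ, ∃ K₀ : ℕ, ∀ x : ℕ, K₀ ≤ (tracePrimes W a Set.univ x).card →
    (((tracePrimes W a (target α δ) x).card : ℝ) - ∑ p ∈ tracePrimes W a Set.univ x, δ p) ^ 2 ≤
      (1 + ∑ p ∈ tracePrimes W a Set.univ x, δ p) * Real.log (tracePrimes W a Set.univ x).card ^ 7 := by
  set T : ℕ → Prop := fun p => p.Prime ∧ ¬ (p : ℤ) ∣ W.Δ ∧ ap W p = a with hTdef
  by_cases hT : {p | T p}.Infinite
  · have hTp : ∀ k, T (Nat.nth T k) := fun k => Nat.nth_mem_of_infinite hT k
    have hcop : ∀ k l : ℕ, k ≠ l → (Nat.nth T k).Coprime (Nat.nth T l) := by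
      intro k l hkl
      rw [Nat.coprime_primes (hTp k).1 (hTp l).1]
      exact fun h => hkl (Nat.nth_injective hT h)
    have h1 := targets hM (Nat.nth T) (Nat.nth_strictMono hT) (hTp 0).1.one_lt.le hcop (fun k => δ (Nat.nth T k))
      (fun k => hδ _) (fun a b hab => hδa ((Nat.nth_strictMono hT).monotone hab)) 0 (fun _ => []) (fun _ => [])
      (fun _ => rfl) (fun m r hr => absurd hr (by simp))
    filter_upwards [h1] with α hα
    obtain ⟨K₀, hK₀⟩ := hα
    refine ⟨K₀, fun x hx => ?_⟩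
    have hset : tracePrimes W a Set.univ x = (range (x + 1)).filter T := by
      unfold tracePrimes
      ext p
      simp only [mem_filter, Set.mem_univ, hTdef]
      tauto
    have hcard : (tracePrimes W a Set.univ x).card = Nat.count T (x + 1) := by
      rw [Nat.count_eq_card_filter_range, hset]
    have h4 := hK₀ _ hx [] rfl (by simp) {[]}
    rw [sum_singleton] at h4
    rw [hcard] at h4 ⊢
    have e1 : ((range (Nat.count T (x + 1))).filter (fun k => (([] : List ℤ) = [] ∧
        ∀ x ∈ ([] : List ((ℕ → ℕ) × ℕ)), x.1 k < x.2) ∧ Int.fract ((Nat.nth T k : ℝ) * α) < δ (Nat.nth T k))).card =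
        (tracePrimes W a (target α δ) x).card := by
      have h5 := card_nth T (fun p => Int.fract ((p : ℝ) * α) < δ p) hT x
      unfold tracePrimes target
      convert h5 using 2
      · ext k
        simp
      · ext p
        simp only [mem_filter, Set.mem_ofPred_eq, hTdef]
        tauto
    have e3 : ∑ k ∈ range (Nat.count T (x + 1)), δ (Nat.nth T k) = ∑ p ∈ tracePrimes W a Set.univ x, δ p := by
      have h5 := sum_nth T (fun _ => True) hT x δ
      simp only [and_true, filter_true] at h5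
      rw [hset]
      convert h5 using 2
    have e2 : ∑ k ∈ (range (Nat.count T (x + 1))).filter (fun k => (([] : List ℤ) = [] ∧
        ∀ x ∈ ([] : List ((ℕ → ℕ) × ℕ)), x.1 k < x.2)), δ (Nat.nth T k) = ∑ p ∈ tracePrimes W a Set.univ x, δ p := by
      have : ((range (Nat.count T (x + 1))).filter (fun k => (([] : List ℤ) = [] ∧
        ∀ x ∈ ([] : List ((ℕ → ℕ) × ℕ)), x.1 k < x.2))) = range (Nat.count T (x + 1)) := by
        apply filter_true_of_mem
        simp
      rw [this, e3]
    rw [e1, e2, e3] at h4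
    simpa using h4
  · refine Eventually.of_forall fun α => ?_
    rw [Set.not_infinite] at hT
    refine ⟨hT.toFinset.card + 1, fun x hx => ?_⟩
    exfalso
    have h1 : (tracePrimes W a Set.univ x).card ≤ hT.toFinset.card := by
      apply card_le_card
      intro p hp
      unfold tracePrimes at hp
      simp only [mem_filter, Set.mem_univ, and_true] at hp
      rw [Set.Finite.mem_toFinset]
      exact hp.2
    omega

end Pool.Agent.H90.MR.Trace
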