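import Pool.Agent.H90.MR.Growth

/-! # Project MR: weighted sums -/

set_option autoImplicit false

namespace Pool.Agent.H90.MR

open Finset MeasureTheory Filter

theorem cake_one {w M e : ℝ} (hw : 0 ≤ w) (hM : w ≤ M) :
    ∫ t in (0 : ℝ)..M, (Set.Iic w).indicator (fun _ => e) t = w * e := by
  rw [intervalIntegral.integral_of_le (hw.trans hM), setIntegral_indicator measurableSet_Iic]
  have : Set.Ioc 0 M ∩ Set.Iic w = Set.Ioc 0 w := by
    ext t
    simp only [Set.mem_inter_iff, Set.mem_Ioc, Set.mem_Iic]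
    constructor
    · rintro ⟨⟨h1, _⟩, h2⟩
      exact ⟨h1, h2⟩
    · rintro ⟨h1, h2⟩
      exact ⟨⟨h1, h2.trans hM⟩, h2⟩
  rw [this, setIntegral_const, smul_eq_mul, Real.volume_real_Ioc_of_le hw, sub_zero]

open Classical in
theorem cake (S : Finset ℕ) (w e : ℕ → ℝ) {M B : ℝ} (hM : 0 ≤ M) (hw : ∀ k ∈ S, 0 ≤ w k ∧ w k ≤ M)
    (h : ∀ t : ℝ, |∑ k ∈ S.filter (fun k => t ≤ w k), e k| ≤ B) : |∑ k ∈ S, w k * e k| ≤ M * B := by
  have h1 : ∑ k ∈ S, w k * e k = ∫ t in (0 : ℝ)..M, ∑ k ∈ S, (Set.Iic (w k)).indicator (fun _ => e k) t := by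
    rw [intervalIntegral.integral_finsetSum]
    · apply sum_congr rfl
      intro k hk
      exact (cake_one (hw k hk).1 (hw k hk).2).symm
    · intro k _
      rw [intervalIntegrable_iff_integrableOn_Ioc_of_le hM]
      exact (integrable_const (e k)).indicator measurableSet_Iic
  have h2 := intervalIntegral.norm_integral_le_of_norm_le_const (a := 0) (b := M) (C := B)
    (f := fun t => ∑ k ∈ S, (Set.Iic (w k)).indicator (fun _ => e k) t) (fun t _ => by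
      have : ∑ k ∈ S, (Set.Iic (w k)).indicator (fun _ => e k) t = ∑ k ∈ S.filter (fun k => t ≤ w k), e k := by
        rw [sum_filter]
        apply sum_congr rfl
        intro k _
        rw [Set.indicator_apply]
        simp only [Set.mem_Iic]
      rw [this, Real.norm_eq_abs]
      exact h t)
  rw [Real.norm_eq_abs, sub_zero, abs_of_nonneg hM] at h2
  rw [h1, mul_comm M B]
  exact h2

/-- Bernoulli, telescoping -/
theorem tele {s : ℝ} (hs : 0 < s) (hs1 : s ≤ 1) (n : ℕ) (hn : 1 ≤ n) :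
    (n : ℝ) ^ (-s) / ((n : ℝ) + 1) ≤ s⁻¹ * ((n : ℝ) ^ (-s) - ((n : ℝ) + 1) ^ (-s)) := by
  have hn0 : (0 : ℝ) < n := by exact_mod_cast hn
  have hn1 : (0 : ℝ) < (n : ℝ) + 1 := by positivity
  have h1 : (1 + (-(1 / ((n : ℝ) + 1)))) ^ s ≤ 1 + s * (-(1 / ((n : ℝ) + 1))) := by
    apply rpow_one_add_le_one_add_mul_self _ hs.le hs1
    rw [neg_le_neg_iff, div_le_one hn1]
    linarith
  have h2 : (1 + (-(1 / ((n : ℝ) + 1)))) = (n : ℝ) / (n + 1) := by field_simp; ring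
  rw [h2, Real.div_rpow hn0.le hn1.le] at h1
  have h3 : ((n : ℝ) + 1) ^ (-s) = (n : ℝ) ^ (-s) * ((n : ℝ) ^ s / ((n : ℝ) + 1) ^ s) := by
    rw [Real.rpow_neg hn1.le, Real.rpow_neg hn0.le]
    have : (n : ℝ) ^ s ≠ 0 := by positivity
    field_simp
  have h4 : (0 : ℝ) < (n : ℝ) ^ (-s) := by positivity
  rw [h3]
  have h5 : (n : ℝ) ^ (-s) * ((n : ℝ) ^ s / ((n : ℝ) + 1) ^ s) ≤ (n : ℝ) ^ (-s) * (1 + s * (-(1 / ((n : ℝ) + 1)))) :=
    mul_le_mul_of_nonneg_left h1 h4.le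
  rw [inv_mul_eq_div, le_div_iff₀ hs]
  calc (n : ℝ) ^ (-s) / ((n : ℝ) + 1) * s = (n : ℝ) ^ (-s) - (n : ℝ) ^ (-s) * (1 + s * (-(1 / ((n : ℝ) + 1)))) := by
        field_simp
        ring
    _ ≤ _ := by linarith

/-- partial summation -/
theorem abel {s C : ℝ} (hs : 0 < s) (hs1 : s ≤ 1) (hC : 0 ≤ C) (f : ℕ → ℝ)
    (hE : ∀ x : ℕ, 1 ≤ x → |∑ n ∈ range (x + 1), f n| ≤ C * (x : ℝ) ^ (1 - s)) (hf0 : f 0 = 0) :
    ∃ c : ℝ, ∀ x : ℕ, 1 ≤ x → |∑ n ∈ range (x + 1), f n / n - c| ≤ C * (1 + 2 * s⁻¹) * (x : ℝ) ^ (-s) := by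
  set E : ℕ → ℝ := fun x => ∑ n ∈ range (x + 1), f n with hEdef
  have hE0 : E 0 = 0 := by simp [hEdef, hf0]
  set u : ℕ → ℝ := fun n => E n / ((n : ℝ) * (n + 1)) with hu
  have hT : ∀ x : ℕ, ∑ n ∈ range (x + 1), f n / n = E x / (x + 1) + ∑ n ∈ range (x + 1), u n := by
    intro x
    induction x with
    | zero => simp [hf0, hu, hE0]
    | succ x ih =>
      rw [sum_range_succ, ih, sum_range_succ u (x + 1)]
      have h1 : E (x + 1) = E x + f (x + 1) := sum_range_succ _ _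
      have h2 : f (x + 1) = E (x + 1) - E x := by rw [h1]; ring
      have hux : u (x + 1) = E (x + 1) / (((x : ℝ) + 1) * ((x : ℝ) + 1 + 1)) := by
        simp only [hu]
        push_cast
        rfl
      rw [h2, hux]
      generalize ∑ n ∈ range (x + 1), u n = SS
      generalize E (x + 1) = E1
      generalize E x = E2
      push_cast
      have hx1 : (x : ℝ) + 1 ≠ 0 := by positivity
      have hx2 : (x : ℝ) + 1 + 1 ≠ 0 := by positivity
      field_simp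
      ring
  have hub : ∀ n : ℕ, 1 ≤ n → |u n| ≤ C * s⁻¹ * ((n : ℝ) ^ (-s) - ((n : ℝ) + 1) ^ (-s)) := by
    intro n hn
    have hn0 : (0 : ℝ) < n := by exact_mod_cast hn
    have h1 := hE n hn
    simp only [hu]
    rw [abs_div, abs_of_pos (by positivity : (0 : ℝ) < (n : ℝ) * (n + 1))]
    have h2 : (n : ℝ) ^ (1 - s) = n * (n : ℝ) ^ (-s) := by
      rw [sub_eq_add_neg, Real.rpow_add hn0, Real.rpow_one]
    calc |E n| / ((n : ℝ) * (n + 1)) ≤ (C * (n : ℝ) ^ (1 - s)) / ((n : ℝ) * (n + 1)) := by gcongr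
      _ = C * ((n : ℝ) ^ (-s) / ((n : ℝ) + 1)) := by rw [h2]; field_simp
      _ ≤ C * (s⁻¹ * ((n : ℝ) ^ (-s) - ((n : ℝ) + 1) ^ (-s))) := by gcongr; exact tele hs hs1 n hn
      _ = _ := by ring
  -- partial sums
  have htail : ∀ x y : ℕ, 1 ≤ x → x ≤ y → |∑ n ∈ range (y + 1), u n - ∑ n ∈ range (x + 1), u n| ≤
      C * s⁻¹ * (((x : ℝ) + 1) ^ (-s) - ((y : ℝ) + 1) ^ (-s)) := by
    intro x y hx hxy
    induction y, hxy using Nat.le_induction with
    | base => simp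
    | succ y hy ih =>
      rw [sum_range_succ u (y + 1)]
      have h1 := hub (y + 1) (by omega)
      push_cast at h1 ⊢
      calc |∑ n ∈ range (y + 1), u n + u (y + 1) - ∑ n ∈ range (x + 1), u n|
          = |(∑ n ∈ range (y + 1), u n - ∑ n ∈ range (x + 1), u n) + u (y + 1)| := by congr 1; ring
        _ ≤ |∑ n ∈ range (y + 1), u n - ∑ n ∈ range (x + 1), u n| + |u (y + 1)| := abs_add_le _ _
        _ ≤ _ := by
          have := add_le_add ih h1
          refine this.trans (le_of_eq ?_)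
          ring
  have hs' : 0 ≤ C * s⁻¹ := by positivity
  have hlim0 : Tendsto (fun x : ℕ => C * s⁻¹ * (((x : ℝ) + 1) ^ (-s))) atTop (nhds 0) := by
    have h1 : Tendsto (fun x : ℝ => x ^ (-s)) atTop (nhds 0) := tendsto_rpow_neg_atTop hs
    have h2 : Tendsto (fun x : ℕ => (x : ℝ) + 1) atTop atTop :=
      tendsto_atTop_add_const_right _ _ tendsto_natCast_atTop_atTop
    have h3 := (h1.comp h2).const_mul (C * s⁻¹)
    rw [mul_zero] at h3
    exact h3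
  have htail' : ∀ x y : ℕ, 1 ≤ x → x ≤ y → |∑ n ∈ range (y + 1), u n - ∑ n ∈ range (x + 1), u n| ≤
      C * s⁻¹ * (((x : ℝ) + 1) ^ (-s)) := by
    intro x y hx hxy
    refine (htail x y hx hxy).trans ?_
    apply mul_le_mul_of_nonneg_left _ hs'
    have : 0 ≤ ((y : ℝ) + 1) ^ (-s) := by positivity
    linarith
  have hcauchy : CauchySeq (fun x : ℕ => ∑ n ∈ range (x + 1), u n) := by
    refine Metric.cauchySeq_iff'.2 fun ε hε => ?_
    obtain ⟨N, hN⟩ := ((hlim0.eventually_lt_const hε).and (eventually_ge_atTop 1)).exists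
    refine ⟨N, fun y hy => ?_⟩
    rw [Real.dist_eq]
    exact (htail' N y hN.2 hy).trans_lt hN.1
  obtain ⟨c, hc⟩ := cauchySeq_tendsto_of_complete hcauchy
  refine ⟨c, fun x hx => ?_⟩
  have h1 : |c - ∑ n ∈ range (x + 1), u n| ≤ C * s⁻¹ * (((x : ℝ) + 1) ^ (-s)) := by
    have h2 : Tendsto (fun y : ℕ => |∑ n ∈ range (y + 1), u n - ∑ n ∈ range (x + 1), u n|) atTop
        (nhds |c - ∑ n ∈ range (x + 1), u n|) := (hc.sub_const _).abs
    refine le_of_tendsto h2 ?_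
    filter_upwards [eventually_ge_atTop x] with y hy
    exact htail' x y hx hy
  have hx0 : (0 : ℝ) < x := by exact_mod_cast hx
  have h3 : ((x : ℝ) + 1) ^ (-s) ≤ (x : ℝ) ^ (-s) :=
    Real.rpow_le_rpow_of_nonpos hx0 (by linarith) (by linarith)
  have h4 : |E x / (x + 1)| ≤ C * (x : ℝ) ^ (-s) := by
    rw [abs_div, abs_of_pos (by positivity : (0 : ℝ) < (x : ℝ) + 1), div_le_iff₀ (by positivity)]
    refine (hE x hx).trans ?_
    rw [sub_eq_add_neg, Real.rpow_add hx0, Real.rpow_one]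
    have h5 : (x : ℝ) * (x : ℝ) ^ (-s) ≤ (x : ℝ) ^ (-s) * ((x : ℝ) + 1) := by
      have : 0 ≤ (x : ℝ) ^ (-s) := by positivity
      nlinarith
    calc C * ((x : ℝ) * (x : ℝ) ^ (-s)) ≤ C * ((x : ℝ) ^ (-s) * ((x : ℝ) + 1)) := by gcongr
      _ = _ := by ring
  rw [hT x]
  have h6 : |E x / (x + 1) + ∑ n ∈ range (x + 1), u n - c| ≤ |E x / (x + 1)| + |c - ∑ n ∈ range (x + 1), u n| := by
    rw [show E x / ((x : ℝ) + 1) + ∑ n ∈ range (x + 1), u n - c = E x / (x + 1) - (c - ∑ n ∈ range (x + 1), u n) by ring]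
    exact abs_sub _ _
  refine h6.trans ?_
  have h7 : C * s⁻¹ * (((x : ℝ) + 1) ^ (-s)) ≤ C * s⁻¹ * ((x : ℝ) ^ (-s)) := mul_le_mul_of_nonneg_left h3 hs'
  have h8 : 0 ≤ C * s⁻¹ * ((x : ℝ) ^ (-s)) := by positivity
  calc |E x / (x + 1)| + |c - ∑ n ∈ range (x + 1), u n| ≤ C * (x : ℝ) ^ (-s) + C * s⁻¹ * ((x : ℝ) ^ (-s)) :=
        add_le_add h4 (h1.trans h7)
    _ ≤ C * (1 + 2 * s⁻¹) * (x : ℝ) ^ (-s) := by linarith

end Pool.Agent.H90.MR
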